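import Mathlib
import Pool.Agent.H97.L.S8.Helper36.SphMeas
set_option autoImplicit false

/-! Fourier restriction to the unit sphere: basic definitions. -/

namespace Pool.Agent.H789R2.FR

open MeasureTheory Measure Set Metric Complex
open scoped ENNReal Pointwise RealInnerProductSpace

/-- Euclidean space. -/
abbrev E (n : ℕ) := EuclideanSpace ℝ (Fin n)

/-- Surface measure of the unit sphere, as a measure on `ℝ^n`. -/
noncomputable def sg (n : ℕ) : Measure (E n) :=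
  ((volume : Measure (E n)).toSphere).map Subtype.val

/-- Extension operator `T g x = ∫ e^{-i x.w} g(w) dσ(w)`. -/
noncomputable def T {n : ℕ} (g : E n → ℂ) (x : E n) : ℂ :=
  ∫ w, Complex.exp (-((⟪x, w⟫ : ℝ) : ℂ) * I) * g w ∂(sg n)

/-- The Gaussian weight at scale `R^{-1/2}`: `∫ e^{-R|y-w|^2/2} dσ(w)`. -/
noncomputable def D {n : ℕ} (R : ℝ) (y : E n) : ℝ :=
  ∫ w, Real.exp (-(R / 2) * ‖y - w‖ ^ 2) ∂(sg n)

/-- Smoothing at scale `R^{-1/2}` on the sphere. -/
noncomputable def A {n : ℕ} (R : ℝ) (g : E n → ℂ) (y : E n) : ℂ :=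
  (∫ w, ((Real.exp (-(R / 2) * ‖y - w‖ ^ 2) : ℝ) : ℂ) * g w ∂(sg n)) / (D R y : ℂ)

end Pool.Agent.H789R2.FR
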