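import Mathlib
import Pool.Agent.H97.L.S8.H789R2.FR.Defs
set_option autoImplicit false

/-! The surface measure of the unit sphere: finiteness, invariance, Gaussian averages. -/

namespace Pool.Agent.H789R2.FR

open MeasureTheory Measure Set Metric Complex
open scoped ENNReal Pointwise RealInnerProductSpace

theorem sg_finite (n : ℕ) : IsFiniteMeasure (sg n) := by
  unfold sg
  infer_instance

lemma sg_apply {n : ℕ} {A : Set (E n)} (hA : MeasurableSet A) :
    sg n A = (volume : Measure (E n)).toSphere (Subtype.val ⁻¹' A) := by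
  rw [sg, map_apply measurable_subtype_coe hA]

theorem sg_ae (n : ℕ) : ∀ᵐ w ∂(sg n), ‖w‖ = 1 := by
  rw [ae_iff]
  have hm : MeasurableSet {a : E n | ¬‖a‖ = 1} :=
    (measurableSet_eq_fun measurable_norm measurable_const).compl
  rw [sg_apply hm]
  have : (Subtype.val ⁻¹' {a | ¬‖a‖ = 1} : Set (sphere (0 : E n) 1)) = ∅ := by
    ext ⟨x, hx⟩
    simp at hx ⊢
  rw [this]; simp

theorem sg_inv {n : ℕ} (L : E n ≃ₗᵢ[ℝ] E n) : MeasurePreserving L (sg n) (sg n) := by
  have hT : Measurable L := L.continuous.measurable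
  refine ⟨hT, ?_⟩
  ext A hA
  rw [map_apply hT hA, sg_apply (hT hA), sg_apply hA,
    toSphere_apply' _ (measurable_subtype_coe (hT hA)),
    toSphere_apply' _ (measurable_subtype_coe hA)]
  congr 1
  have h1 : Ioo (0 : ℝ) 1 • ((↑) '' (Subtype.val ⁻¹' (L ⁻¹' A) :
      Set (sphere (0 : E n) 1)) : Set (E n)) =
      L ⁻¹' (Ioo (0 : ℝ) 1 • ((↑) '' (Subtype.val ⁻¹' A :
      Set (sphere (0 : E n) 1)) : Set (E n))) := by
    ext y
    simp only [mem_preimage, Set.mem_smul, Subtype.image_preimage_coe, mem_inter_iff]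
    constructor
    · rintro ⟨r, hr, x, ⟨hx1, hx2⟩, rfl⟩
      refine ⟨r, hr, L x, ⟨?_, hx2⟩, by simp⟩
      simp at hx1 ⊢; exact hx1
    · rintro ⟨r, hr, x, ⟨hx1, hx2⟩, hx⟩
      refine ⟨r, hr, L.symm x, ⟨?_, by simpa using hx2⟩, ?_⟩
      · simp at hx1 ⊢; exact hx1
      · apply L.injective
        rw [map_smul, L.apply_symm_apply, hx]
  rw [h1]
  have h2 := L.measurePreserving
  have h3 : MeasurePreserving L.toHomeomorph.toMeasurableEquiv
    (volume : Measure (E n)) volume := h2
  exact h3.measure_preimage_equiv _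

theorem D_const {n : ℕ} (R : ℝ) (y y' : E n) (hy : ‖y‖ = 1) (hy' : ‖y'‖ = 1) :
    D R y = D R y' := by
  set L : E n ≃ₗᵢ[ℝ] E n := (ℝ ∙ (y - y'))ᗮ.reflection with hL
  have hLy : L y = y' := Submodule.reflection_sub (by rw [hy, hy'])
  have hmp := sg_inv L
  unfold D
  have hemb : MeasurableEmbedding L := L.toHomeomorph.measurableEmbedding
  rw [← hmp.integral_comp hemb (fun w => Real.exp (-(R / 2) * ‖y' - w‖ ^ 2))]
  congr 1
  ext w
  rw [← hLy, ← map_sub, L.norm_map]

/-- Polar coordinates. -/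
lemma polar {n : ℕ} (hn : 0 < n) (f : E n → ℝ≥0∞) (hf : Measurable f) :
    ∫⁻ x, f x = ∫⁻ w, (∫⁻ r in Ioi (0 : ℝ), ENNReal.ofReal (r ^ (n - 1)) * f (r • w)) ∂(sg n) := by
  haveI : Nonempty (Fin n) := ⟨⟨0, hn⟩⟩
  haveI : Nontrivial (E n) := inferInstance
  have hfr : Module.finrank ℝ (E n) = n := by simp
  have h0 := (volume : Measure (E n)).measurePreserving_homeomorphUnitSphereProd
  rw [hfr] at h0
  have hme : Measurable fun p : E n × ℝ => f (p.2 • p.1) :=
    hf.comp (measurable_snd.smul measurable_fst)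
  have hmeas2 : Measurable fun w : E n =>
      ∫⁻ r in Ioi (0 : ℝ), ENNReal.ofReal (r ^ (n - 1)) * f (r • w) := by
    apply Measurable.lintegral_prod_right
    exact (((measurable_snd.pow_const _).ennreal_ofReal)).mul hme
  calc ∫⁻ x, f x = ∫⁻ x in ({0}ᶜ : Set (E n)), f x := by
        rw [restrict_compl_singleton]
    _ = ∫⁻ x : ({(0 : E n)}ᶜ : Set (E n)), f x ∂((volume : Measure (E n)).comap (↑)) := by
        rw [lintegral_subtype_comap (measurableSet_singleton _).compl]
    _ = ∫⁻ p, f ((p.2 : ℝ) • (p.1 : E n))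
          ∂((volume : Measure (E n)).toSphere.prod (volumeIoiPow (n - 1))) := by
        rw [← h0.lintegral_comp_emb (Homeomorph.measurableEmbedding _)]
        apply lintegral_congr
        intro x
        congr 1
        have hx : ‖(x : E n)‖ ≠ 0 := norm_ne_zero_iff.2 x.2
        simp [smul_smul, hx]
    _ = ∫⁻ w, ∫⁻ r, f ((r : ℝ) • (w : E n)) ∂(volumeIoiPow (n - 1))
          ∂((volume : Measure (E n)).toSphere) := by
        rw [lintegral_prod]
        apply Measurable.aemeasurable
        exact hf.comp ((measurable_subtype_coe.comp measurable_snd).smul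
          (measurable_subtype_coe.comp measurable_fst))
    _ = ∫⁻ w, (∫⁻ r in Ioi (0 : ℝ), ENNReal.ofReal (r ^ (n - 1)) * f (r • (w : E n)))
          ∂((volume : Measure (E n)).toSphere) := by
        apply lintegral_congr
        intro w
        rw [volumeIoiPow, lintegral_withDensity_eq_lintegral_mul]
        · simp only [Pi.mul_apply]
          rw [lintegral_subtype_comap measurableSet_Ioi
            (fun r : ℝ => ENNReal.ofReal (r ^ (n - 1)) * f (r • (w : E n)))]
        · exact (measurable_subtype_coe.pow_const _).ennreal_ofReal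
        · exact hf.comp (measurable_subtype_coe.smul measurable_const)
    _ = _ := by
        rw [sg, lintegral_map hmeas2 measurable_subtype_coe]

lemma ofReal_D {n : ℕ} (R : ℝ) (y : E n) (hR : 0 ≤ R) :
    ENNReal.ofReal (D R y) = ∫⁻ w, ENNReal.ofReal (Real.exp (-(R / 2) * ‖y - w‖ ^ 2)) ∂(sg n) := by
  haveI := sg_finite n
  unfold D
  rw [ofReal_integral_eq_lintegral_ofReal]
  · apply Integrable.of_bound (C := 1)
    · exact (Continuous.measurable (by fun_prop)).aestronglyMeasurable
    · refine Filter.Eventually.of_forall fun w => ?_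
      rw [Real.norm_eq_abs, abs_of_pos (Real.exp_pos _)]
      apply Real.exp_le_one_iff.2
      have : 0 ≤ (R / 2) * ‖y - w‖ ^ 2 := by positivity
      linarith
  · exact Filter.Eventually.of_forall fun w => (Real.exp_pos _).le

lemma D_nonneg {n : ℕ} (R : ℝ) (y : E n) : 0 ≤ D R y :=
  integral_nonneg fun _ => (Real.exp_pos _).le

lemma D_le_mass {n : ℕ} (R : ℝ) (y : E n) (hR : 0 ≤ R) : D R y ≤ (sg n).real univ := by
  haveI := sg_finite n
  unfold D
  have h1 : (sg n).real univ = ∫ w, (1 : ℝ) ∂(sg n) := by simp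
  rw [h1]
  apply integral_mono_of_nonneg
  · exact Filter.Eventually.of_forall fun w => (Real.exp_pos _).le
  · exact integrable_const _
  · refine Filter.Eventually.of_forall fun w => ?_
    apply Real.exp_le_one_iff.2
    have : 0 ≤ (R / 2) * ‖y - w‖ ^ 2 := by positivity
    linarith

lemma gauss_lintegral (n : ℕ) (b : ℝ) (hb : 0 < b) (y : E n) :
    ∫⁻ x : E n, ENNReal.ofReal (Real.exp (-b * ‖y - x‖ ^ 2)) =
      ENNReal.ofReal ((Real.pi / b) ^ ((n : ℝ) / 2)) := by
  have h1 : ∫⁻ x : E n, ENNReal.ofReal (Real.exp (-b * ‖y - x‖ ^ 2)) =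
      ∫⁻ x : E n, ENNReal.ofReal (Real.exp (-b * ‖x‖ ^ 2)) :=
    lintegral_sub_left_eq_self (fun x : E n => ENNReal.ofReal (Real.exp (-b * ‖x‖ ^ 2))) y
  rw [h1, ← ofReal_integral_eq_lintegral_ofReal]
  · congr 1
    have := GaussianFourier.integral_rexp_neg_mul_sq_norm (V := E n) hb
    simpa using this
  · by_contra hcon
    have := GaussianFourier.integral_rexp_neg_mul_sq_norm (V := E n) hb
    rw [integral_undef hcon] at this
    have h2 : 0 < (Real.pi / b) ^ ((Module.finrank ℝ (E n) : ℝ) / 2) := by positivity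
    linarith
  · exact Filter.Eventually.of_forall fun w => (Real.exp_pos _).le


lemma D_upper_large (n : ℕ) (hn : 2 ≤ n) (R : ℝ) (hR : 4 ≤ R) (y : E n) :
    D R y ≤ (2 : ℝ) ^ (n - 1) * Real.exp (1 / 2) * Real.sqrt R * (Real.pi / (R / 4)) ^ ((n : ℝ) / 2) := by
  have hR0 : 0 < R := by linarith
  have hs : 0 < Real.sqrt R := Real.sqrt_pos.2 hR0
  have hs2 : 2 ≤ Real.sqrt R := by
    rw [show (2:ℝ) = Real.sqrt 4 by
      rw [show (4:ℝ) = 2 ^ 2 by norm_num, Real.sqrt_sq (by norm_num)]]
    exact Real.sqrt_le_sqrt hR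
  set δ : ℝ := 1 / Real.sqrt R with hδ
  have hδ0 : 0 < δ := by positivity
  have hδ1 : δ ≤ 1 / 2 := by
    rw [hδ]; exact one_div_le_one_div_of_le (by norm_num) hs2
  have hδR : R * δ ^ 2 = 1 := by
    rw [hδ, div_pow, one_pow, Real.sq_sqrt hR0.le]; field_simp
  have hg := gauss_lintegral n (R / 4) (by linarith) y
  rw [polar (by omega) _ (by
    exact (Continuous.measurable (by fun_prop)).ennreal_ofReal)] at hg
  have hlow : ENNReal.ofReal (δ * (1 / 2) ^ (n - 1) * Real.exp (-(1 / 2))) * ENNReal.ofReal (D R y) ≤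
      ENNReal.ofReal ((Real.pi / (R / 4)) ^ ((n : ℝ) / 2)) := by
    rw [← hg, ofReal_D R y hR0.le, ← lintegral_const_mul]
    · apply lintegral_mono_ae
      filter_upwards [sg_ae n] with w hw
      calc ENNReal.ofReal (δ * (1 / 2) ^ (n - 1) * Real.exp (-(1 / 2))) *
            ENNReal.ofReal (Real.exp (-(R / 2) * ‖y - w‖ ^ 2))
          = ∫⁻ r in Ioc (1 - δ) 1, ENNReal.ofReal ((1 / 2) ^ (n - 1) * Real.exp (-(1 / 2)) *
              Real.exp (-(R / 2) * ‖y - w‖ ^ 2)) := by
            rw [setLIntegral_const, Real.volume_Ioc, ← ENNReal.ofReal_mul (by positivity),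
              ← ENNReal.ofReal_mul (by positivity)]
            congr 1; ring
        _ ≤ ∫⁻ r in Ioc (1 - δ) 1, ENNReal.ofReal (r ^ (n - 1)) *
              ENNReal.ofReal (Real.exp (-(R / 4) * ‖y - r • w‖ ^ 2)) := by
            apply setLIntegral_mono' measurableSet_Ioc
            intro r hr
            have hr0 : 1 / 2 ≤ r := by linarith [hr.1]
            rw [← ENNReal.ofReal_mul (by positivity)]
            apply ENNReal.ofReal_le_ofReal
            rw [mul_assoc]
            apply mul_le_mul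
            · exact pow_le_pow_left₀ (by norm_num) hr0 _
            · rw [← Real.exp_add]
              apply Real.exp_le_exp.2
              have h1 : ‖y - r • w‖ ≤ ‖y - w‖ + (1 - r) := by
                have : y - r • w = (y - w) + (1 - r) • w := by
                  rw [sub_smul, one_smul]; abel
                rw [this]
                refine (norm_add_le _ _).trans ?_
                rw [norm_smul, hw, mul_one, Real.norm_eq_abs, abs_of_nonneg (by linarith [hr.2])]
              have h2 : ‖y - r • w‖ ^ 2 ≤ 2 * ‖y - w‖ ^ 2 + 2 * δ ^ 2 := by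
                have h3 : ‖y - r • w‖ ≤ ‖y - w‖ + δ := by linarith [hr.1]
                have h4 : 0 ≤ ‖y - r • w‖ := norm_nonneg _
                nlinarith [sq_nonneg (‖y - w‖ - δ)]
              nlinarith
            · positivity
            · positivity
        _ ≤ _ := by
            apply lintegral_mono_set
            intro r hr
            exact lt_of_lt_of_le (by linarith) hr.1.le
    · exact (Continuous.measurable (by fun_prop)).ennreal_ofReal
  rw [← ENNReal.ofReal_mul (by positivity),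
    ENNReal.ofReal_le_ofReal_iff (by positivity)] at hlow
  have he : Real.exp (-(1 / 2)) * Real.exp (1 / 2) = 1 := by
    rw [← Real.exp_add]; norm_num
  have hp : ((1:ℝ) / 2) ^ (n - 1) * 2 ^ (n - 1) = 1 := by
    rw [← mul_pow]; norm_num
  have hds : δ * Real.sqrt R = 1 := by rw [hδ]; field_simp
  calc D R y = ((2 : ℝ) ^ (n - 1) * Real.exp (1 / 2) * Real.sqrt R) *
        (δ * (1 / 2) ^ (n - 1) * Real.exp (-(1 / 2)) * D R y) := by
        have : ((2 : ℝ) ^ (n - 1) * Real.exp (1 / 2) * Real.sqrt R) *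
          (δ * (1 / 2) ^ (n - 1) * Real.exp (-(1 / 2)) * D R y) =
          (((1:ℝ) / 2) ^ (n - 1) * 2 ^ (n - 1)) * (Real.exp (-(1 / 2)) * Real.exp (1 / 2)) *
            (δ * Real.sqrt R) * D R y := by ring
        rw [this, he, hp, hds]; ring
    _ ≤ _ := mul_le_mul_of_nonneg_left hlow (by positivity)

theorem D_upper (n : ℕ) (hn : 2 ≤ n) : ∃ C : ℝ, 0 < C ∧ ∀ R : ℝ, 0 < R → ∀ y : E n,
    ‖y‖ = 1 → D R y ≤ C * R ^ (-((n : ℝ) - 1) / 2) := by
  set C1 : ℝ := (2 : ℝ) ^ (n - 1) * Real.exp (1 / 2) * (4 * Real.pi) ^ ((n : ℝ) / 2) with hC1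
  set C2 : ℝ := (sg n).real univ * 4 ^ (((n : ℝ) - 1) / 2) with hC2
  have hpi := Real.pi_pos
  have hC1p : 0 < C1 := by positivity
  have hC2p : 0 ≤ C2 := by positivity
  have hn1 : (2 : ℝ) ≤ n := by exact_mod_cast hn
  refine ⟨C1 + C2, by linarith, ?_⟩
  intro R hR y hy
  have hpow : 0 < R ^ (-((n : ℝ) - 1) / 2) := by positivity
  rcases le_or_gt 4 R with h4 | h4
  · have h := D_upper_large n hn R h4 y
    have h2 : (2 : ℝ) ^ (n - 1) * Real.exp (1 / 2) * Real.sqrt R *
        (Real.pi / (R / 4)) ^ ((n : ℝ) / 2) = C1 * R ^ (-((n : ℝ) - 1) / 2) := by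
      rw [show Real.pi / (R / 4) = (4 * Real.pi) * R⁻¹ by field_simp,
        Real.mul_rpow (by positivity) (by positivity), Real.inv_rpow hR.le,
        ← Real.rpow_neg hR.le, Real.sqrt_eq_rpow, hC1]
      rw [show -((n : ℝ) - 1) / 2 = 1 / 2 + -((n : ℝ) / 2) by ring, Real.rpow_add hR]
      ring
    rw [h2] at h
    nlinarith
  · have h := D_le_mass R y hR.le
    have h3 : 1 ≤ 4 ^ (((n : ℝ) - 1) / 2) * R ^ (-((n : ℝ) - 1) / 2) := by
      rw [show -((n : ℝ) - 1) / 2 = -(((n : ℝ) - 1) / 2) by ring, Real.rpow_neg hR.le,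
        ← div_eq_mul_inv, ← Real.div_rpow (by norm_num) hR.le]
      apply Real.one_le_rpow
      · rw [le_div_iff₀ hR]; linarith
      · linarith
    have h4 : (sg n).real univ ≤ C2 * R ^ (-((n : ℝ) - 1) / 2) := by
      rw [hC2, mul_assoc]
      have : 0 ≤ (sg n).real univ := measureReal_nonneg
      nlinarith
    nlinarith

theorem D_lower (n : ℕ) (hn : 2 ≤ n) : ∃ c : ℝ, 0 < c ∧ ∀ R : ℝ, 1 ≤ R → ∀ y : E n,
    ‖y‖ = 1 → c * R ^ (-((n : ℝ) - 1) / 2) ≤ D R y := by
  have hpi := Real.pi_pos
  set V : ℝ := (volume : Measure (E n)).real (ball 0 1) with hV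
  have hVpos : 0 < V := by
    rw [hV, measureReal_def]
    exact ENNReal.toReal_pos (measure_ball_pos _ _ one_pos).ne' measure_ball_lt_top.ne
  refine ⟨Real.exp (-(1 / 4)) * (1 / 2) ^ n * V / ((3 / 2) ^ (n - 1) * Real.sqrt Real.pi),
    by positivity, ?_⟩
  intro R hR y hy
  have hR0 : 0 < R := by linarith
  have hs : 0 < Real.sqrt R := Real.sqrt_pos.2 hR0
  have hs1 : 1 ≤ Real.sqrt R := Real.one_le_sqrt.2 hR
  set ρ : ℝ := 1 / (2 * Real.sqrt R) with hρ
  have hρ0 : 0 < ρ := by positivity
  have hρ1 : ρ ≤ 1 / 2 := by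
    rw [hρ]; exact one_div_le_one_div_of_le (by norm_num) (by linarith)
  have hρR : R * ρ ^ 2 = 1 / 4 := by
    rw [hρ, div_pow, one_pow, mul_pow, Real.sq_sqrt hR0.le]; field_simp; norm_num
  set f : E n → ℝ≥0∞ := (ball y (1 / 2)).indicator
    (fun x => ENNReal.ofReal (Real.exp (-R * ‖y - x‖ ^ 2))) with hf
  have hfm : Measurable f := by
    apply Measurable.indicator _ measurableSet_ball
    exact (Continuous.measurable (by fun_prop)).ennreal_ofReal
  have hleft : ENNReal.ofReal (Real.exp (-(1 / 4)) * (ρ ^ n * V)) ≤ ∫⁻ x, f x := by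
    calc ENNReal.ofReal (Real.exp (-(1 / 4)) * (ρ ^ n * V))
        = ∫⁻ x in ball y ρ, ENNReal.ofReal (Real.exp (-(1 / 4))) := by
          rw [setLIntegral_const, ENNReal.ofReal_mul (Real.exp_pos _).le]
          congr 1
          rw [addHaar_ball_of_pos _ _ hρ0, hV, measureReal_def, ENNReal.ofReal_mul (by positivity),
            ENNReal.ofReal_toReal measure_ball_lt_top.ne]
          simp
      _ ≤ ∫⁻ x in ball y ρ, f x := by
          apply setLIntegral_mono' measurableSet_ball
          intro x hx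
          have hx2 : x ∈ ball y (1 / 2) := ball_subset_ball hρ1 hx
          rw [hf, indicator_of_mem hx2]
          apply ENNReal.ofReal_le_ofReal
          apply Real.exp_le_exp.2
          rw [mem_ball, dist_comm, dist_eq_norm] at hx
          have : ‖y - x‖ ^ 2 ≤ ρ ^ 2 := by
            have := norm_nonneg (y - x)
            nlinarith
          nlinarith
      _ ≤ _ := setLIntegral_le_lintegral _ _
  have hright : ∫⁻ x, f x ≤ ENNReal.ofReal ((3 / 2) ^ (n - 1) * Real.sqrt (Real.pi / R)) *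
      ENNReal.ofReal (D R y) := by
    rw [polar (by omega) f hfm, ofReal_D R y hR0.le, ← lintegral_const_mul]
    · apply lintegral_mono_ae
      filter_upwards [sg_ae n] with w hw
      have hgi : Integrable fun r : ℝ => Real.exp (-R * (r - 1) ^ 2) := by
        have := (integrable_exp_neg_mul_sq hR0).comp_sub_right 1
        exact this
      have hgv : ∫ r : ℝ, Real.exp (-R * (r - 1) ^ 2) = Real.sqrt (Real.pi / R) := by
        rw [← integral_gaussian R]
        exact integral_sub_right_eq_self (fun r : ℝ => Real.exp (-R * r ^ 2)) 1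
      calc ∫⁻ r in Ioi (0 : ℝ), ENNReal.ofReal (r ^ (n - 1)) * f (r • w)
          ≤ ∫⁻ r in Ioi (0 : ℝ), ENNReal.ofReal ((3 / 2) ^ (n - 1) *
              Real.exp (-(R / 2) * ‖y - w‖ ^ 2) * Real.exp (-R * (r - 1) ^ 2)) := by
            apply setLIntegral_mono' measurableSet_Ioi
            intro r hr
            have hr0 : 0 < r := hr
            by_cases hb : r • w ∈ ball y (1 / 2)
            · rw [hf, indicator_of_mem hb, ← ENNReal.ofReal_mul (by positivity)]
              apply ENNReal.ofReal_le_ofReal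
              rw [mem_ball, dist_eq_norm] at hb
              have h1 : |r - 1| < 1 / 2 := by
                have h2 := abs_norm_sub_norm_le (r • w) y
                rw [norm_smul, hw, hy, mul_one, Real.norm_eq_abs, abs_of_pos hr0] at h2
                linarith
              rw [abs_lt] at h1
              have h3 : ‖y - r • w‖ ^ 2 = (r - 1) ^ 2 + r * ‖y - w‖ ^ 2 := by
                rw [norm_sub_sq_real, norm_sub_sq_real, norm_smul, hw, hy, inner_smul_right,
                  Real.norm_eq_abs, abs_of_pos hr0]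
                ring
              rw [mul_assoc]
              apply mul_le_mul
              · exact pow_le_pow_left₀ hr0.le (by linarith) _
              · rw [← Real.exp_add]
                apply Real.exp_le_exp.2
                rw [h3]
                have h4 : 0 ≤ R * ‖y - w‖ ^ 2 := by positivity
                nlinarith
              · positivity
              · positivity
            · rw [hf, indicator_of_notMem hb, mul_zero]
              exact bot_le
        _ ≤ ∫⁻ r : ℝ, ENNReal.ofReal ((3 / 2) ^ (n - 1) *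
              Real.exp (-(R / 2) * ‖y - w‖ ^ 2) * Real.exp (-R * (r - 1) ^ 2)) :=
            setLIntegral_le_lintegral _ _
        _ = ENNReal.ofReal ((3 / 2) ^ (n - 1) *
              Real.exp (-(R / 2) * ‖y - w‖ ^ 2) * Real.sqrt (Real.pi / R)) := by
            rw [← ofReal_integral_eq_lintegral_ofReal]
            · rw [integral_const_mul, hgv]
            · exact hgi.const_mul _
            · exact Filter.Eventually.of_forall fun r => by positivity
        _ = _ := by
            rw [← ENNReal.ofReal_mul (by positivity)]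
            congr 1; ring
    · exact (Continuous.measurable (by fun_prop)).ennreal_ofReal
  have h := hleft.trans hright
  rw [← ENNReal.ofReal_mul (by positivity),
    ENNReal.ofReal_le_ofReal_iff (mul_nonneg (by positivity) (D_nonneg _ _))] at h
  have hρn : ρ ^ n = (1 / 2) ^ n * R ^ (-((n : ℝ) / 2)) := by
    rw [hρ, show 1 / (2 * Real.sqrt R) = (1 / 2) * (Real.sqrt R)⁻¹ by field_simp, mul_pow]
    congr 1
    rw [Real.sqrt_eq_rpow, ← Real.rpow_neg hR0.le, ← Real.rpow_natCast, ← Real.rpow_mul hR0.le]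
    congr 1; ring
  have hsq : Real.sqrt (Real.pi / R) = Real.sqrt Real.pi * R ^ (-(1 / 2 : ℝ)) := by
    rw [Real.sqrt_div' _ hR0.le, Real.sqrt_eq_rpow R, Real.rpow_neg hR0.le, div_eq_mul_inv]
  rw [hρn, hsq] at h
  have hRh : R ^ (-(1 / 2 : ℝ)) * R ^ (1 / 2 : ℝ) = 1 := by
    rw [← Real.rpow_add hR0]; norm_num
  have hRn : R ^ (-((n : ℝ) / 2)) * R ^ (1 / 2 : ℝ) = R ^ (-((n : ℝ) - 1) / 2) := by
    rw [← Real.rpow_add hR0]; congr 1; ring
  rw [div_mul_eq_mul_div, div_le_iff₀ (by positivity), ← hRn]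
  have hp : 0 < R ^ (1 / 2 : ℝ) := by positivity
  calc Real.exp (-(1 / 4)) * (1 / 2) ^ n * V * (R ^ (-((n : ℝ) / 2)) * R ^ (1 / 2 : ℝ))
      = (Real.exp (-(1 / 4)) * ((1 / 2) ^ n * R ^ (-((n : ℝ) / 2)) * V)) * R ^ (1 / 2 : ℝ) := by ring
    _ ≤ ((3 / 2) ^ (n - 1) * (Real.sqrt Real.pi * R ^ (-(1 / 2 : ℝ))) * D R y) *
        R ^ (1 / 2 : ℝ) := mul_le_mul_of_nonneg_right h hp.le
    _ = (3 / 2) ^ (n - 1) * Real.sqrt Real.pi * D R y * (R ^ (-(1 / 2 : ℝ)) * R ^ (1 / 2 : ℝ)) := by
        ring
    _ = _ := by rw [hRh]; ring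

end Pool.Agent.H789R2.FR
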