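import Mathlib
import Pool.Agent.H97.L.S8.H789R2.FR.Sph
set_option autoImplicit false

/-! Task L: the Agmon-Hormander estimate with Gaussian weights, and its dual. -/

namespace Pool.Agent.H789R2.FR

open MeasureTheory Measure Set Metric Complex
open scoped ENNReal Pointwise RealInnerProductSpace

namespace L2

/-- the phase -/
noncomputable def ph {n : ℕ} (x w : E n) : ℂ := Complex.exp (-((⟪x, w⟫ : ℝ) : ℂ) * I)

theorem norm_ph {n : ℕ} (x w : E n) : ‖ph x w‖ = 1 := by
  unfold ph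
  rw [show -((⟪x, w⟫ : ℝ) : ℂ) * I = ((-⟪x, w⟫ : ℝ) : ℂ) * I by push_cast; ring]
  exact Complex.norm_exp_ofReal_mul_I _

theorem continuous_ph {n : ℕ} : Continuous fun p : E n × E n => ph p.1 p.2 := by
  unfold ph
  fun_prop

theorem ph_mul_conj {n : ℕ} (x w w' : E n) :
    ph x w * (starRingEnd ℂ) (ph x w') = ph x (w - w') := by
  unfold ph
  rw [← Complex.exp_conj, ← Complex.exp_add, inner_sub_right]
  congr 1
  simp only [map_mul, map_neg, Complex.conj_I, Complex.conj_ofReal]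
  push_cast
  ring

theorem ph_add {n : ℕ} (x u w : E n) : ph (x + u) w = ph x w * ph u w := by
  unfold ph
  rw [← Complex.exp_add, inner_add_left]
  congr 1
  push_cast
  ring

/-- the weight -/
noncomputable def W {n : ℕ} (l : ℝ) (x : E n) : ℝ := Real.exp (-‖x‖ ^ 2 / l ^ 2)

theorem W_pos {n : ℕ} (l : ℝ) (x : E n) : 0 < W l x := Real.exp_pos _

theorem continuous_W {n : ℕ} (l : ℝ) : Continuous (W l : E n → ℝ) := by
  unfold W
  fun_prop

theorem integrable_W {n : ℕ} {l : ℝ} (hl : 0 < l) : Integrable (W l : E n → ℝ) := by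
  have hb : 0 < ((1 / l ^ 2 : ℝ) : ℂ).re := by
    rw [Complex.ofReal_re]
    positivity
  have h := (GaussianFourier.integrable_cexp_neg_mul_sq_norm_add hb 0 (0 : E n)).norm
  refine h.congr (Filter.Eventually.of_forall fun x => ?_)
  simp only [zero_mul, add_zero]
  rw [Complex.norm_exp]
  unfold W
  congr 1
  have : (-((1 / l ^ 2 : ℝ) : ℂ) * (‖x‖ : ℂ) ^ 2) = ((-‖x‖ ^ 2 / l ^ 2 : ℝ) : ℂ) := by
    push_cast
    ring
  rw [this, Complex.ofReal_re]

theorem norm_K {n : ℕ} {l : ℝ} (hl : 0 < l) (v : E n) :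
    ‖∫ x, ((W l x : ℝ) : ℂ) * ph x v‖ =
      (Real.pi * l ^ 2) ^ ((n : ℝ) / 2) * Real.exp (-(l ^ 2 / 2 / 2) * ‖v‖ ^ 2) := by
  have hl2 : (0 : ℝ) < l ^ 2 := by positivity
  have hb : 0 < ((1 / l ^ 2 : ℝ) : ℂ).re := by
    rw [Complex.ofReal_re]
    positivity
  have h := GaussianFourier.integral_cexp_neg_mul_sq_norm_add hb (-I) v
  have h1 : ∀ x : E n, ((W l x : ℝ) : ℂ) * ph x v =
      cexp (-((1 / l ^ 2 : ℝ) : ℂ) * (‖x‖ : ℂ) ^ 2 + -I * (⟪v, x⟫ : ℝ)) := by
    intro x
    unfold W ph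
    rw [Complex.ofReal_exp, ← Complex.exp_add, real_inner_comm]
    congr 1
    push_cast
    ring
  rw [integral_congr_ae (Filter.Eventually.of_forall h1)]
  rw [h, norm_mul]
  congr 1
  · rw [show ((Real.pi : ℂ) / ((1 / l ^ 2 : ℝ) : ℂ)) = ((Real.pi * l ^ 2 : ℝ) : ℂ) by
      push_cast
      field_simp]
    rw [Complex.norm_cpow_eq_rpow_re_of_pos (by positivity)]
    congr 1
    rw [finrank_euclideanSpace, Fintype.card_fin]
    rw [show ((n : ℂ) / 2) = (((n : ℝ) / 2 : ℝ) : ℂ) by push_cast; ring, Complex.ofReal_re]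
  · rw [Complex.norm_exp]
    congr 1
    have : (-I) ^ 2 * (‖v‖ : ℂ) ^ 2 / (4 * ((1 / l ^ 2 : ℝ) : ℂ)) =
        ((-(l ^ 2 / 2 / 2) * ‖v‖ ^ 2 : ℝ) : ℂ) := by
      push_cast
      have hlc : (l : ℂ) ≠ 0 := by exact_mod_cast hl.ne'
      rw [neg_sq, Complex.I_sq]
      field_simp
      ring
    rw [this, Complex.ofReal_re]

theorem T_eq {n : ℕ} (g : E n → ℂ) (x : E n) : T g x = ∫ w, ph x w * g w ∂(sg n) := rfl

theorem measurable_T {n : ℕ} [SFinite (sg n)] (g : E n → ℂ) (hg : Measurable g) :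
    StronglyMeasurable (T g) := by
  have h : StronglyMeasurable (fun p : E n × E n => ph p.1 p.2 * g p.2) :=
    (continuous_ph.measurable.mul (hg.comp measurable_snd)).stronglyMeasurable
  exact h.integral_prod_right

theorem norm_T_le {n : ℕ} [IsFiniteMeasure (sg n)] (g : E n → ℂ) (M : ℝ)
    (hM : ∀ x, ‖g x‖ ≤ M) (x : E n) : ‖T g x‖ ≤ M * (sg n).real univ := by
  rw [T_eq]
  refine norm_integral_le_of_norm_le_const (Filter.Eventually.of_forall fun w => ?_)
  rw [norm_mul, norm_ph, one_mul]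
  exact hM w

/-- the main identity, as an inequality, for the weight centred at the origin -/
theorem main_zero {n : ℕ} [IsFiniteMeasure (sg n)] (g : E n → ℂ) (hg : Measurable g)
    (M : ℝ) (hM : ∀ x, ‖g x‖ ≤ M) {l : ℝ} (hl : 0 < l) :
    ∫ x, W l x * ‖T g x‖ ^ 2 ≤ (Real.pi * l ^ 2) ^ ((n : ℝ) / 2) *
      ∫ w, ‖g w‖ ^ 2 * D (l ^ 2 / 2) w ∂(sg n) := by
  have hM0 : 0 ≤ M := (norm_nonneg _).trans (hM 0)
  set σ := sg n with hσ
  set P : ℝ := (Real.pi * l ^ 2) ^ ((n : ℝ) / 2) with hP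
  have hP0 : 0 ≤ P := by positivity
  -- the kernel
  let F : E n → E n × E n → ℂ := fun x p =>
    ((W l x : ℝ) : ℂ) * ((ph x p.1 * g p.1) * (starRingEnd ℂ) (ph x p.2 * g p.2))
  have hFm : Measurable (Function.uncurry F) := by
    have h1 : Measurable fun q : E n × (E n × E n) => ((W l q.1 : ℝ) : ℂ) :=
      Complex.measurable_ofReal.comp ((continuous_W l).measurable.comp measurable_fst)
    have h2 : Measurable fun q : E n × (E n × E n) => ph q.1 q.2.1 * g q.2.1 :=
      (continuous_ph.measurable.comp (measurable_fst.prodMk (measurable_fst.comp measurable_snd))).mul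
        (hg.comp (measurable_fst.comp measurable_snd))
    have h3 : Measurable fun q : E n × (E n × E n) => ph q.1 q.2.2 * g q.2.2 :=
      (continuous_ph.measurable.comp (measurable_fst.prodMk (measurable_snd.comp measurable_snd))).mul
        (hg.comp (measurable_snd.comp measurable_snd))
    exact h1.mul (h2.mul (Complex.continuous_conj.measurable.comp h3))
  have hFb : ∀ x p, ‖F x p‖ ≤ W l x * M ^ 2 := by
    intro x p
    simp only [F, norm_mul, norm_ph, one_mul, RCLike.norm_conj, Complex.norm_real, Real.norm_eq_abs,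
      abs_of_pos (W_pos l x)]
    apply mul_le_mul_of_nonneg_left _ (W_pos l x).le
    rw [sq]
    exact mul_le_mul (hM _) (hM _) (norm_nonneg _) hM0
  have hFi : Integrable (Function.uncurry F) (volume.prod (σ.prod σ)) := by
    have h1 : Integrable (fun q : E n × (E n × E n) => W l q.1 * (fun _ => M ^ 2) q.2)
        (volume.prod (σ.prod σ)) :=
      (integrable_W hl).mul_prod (integrable_const (M ^ 2))
    exact h1.mono' hFm.aestronglyMeasurable (Filter.Eventually.of_forall fun q => hFb q.1 q.2)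
  have h1 : ((∫ x, W l x * ‖T g x‖ ^ 2 : ℝ) : ℂ) = ∫ x, ∫ p, F x p ∂(σ.prod σ) := by
    rw [← integral_complex_ofReal]
    apply integral_congr_ae
    refine Filter.Eventually.of_forall fun x => ?_
    simp only [F]
    rw [integral_const_mul]
    have h2 : ∫ p : E n × E n, (ph x p.1 * g p.1) * (starRingEnd ℂ) (ph x p.2 * g p.2) ∂(σ.prod σ)
        = T g x * (starRingEnd ℂ) (T g x) := by
      rw [integral_prod_mul (fun w => ph x w * g w) (fun w => (starRingEnd ℂ) (ph x w * g w)),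
        integral_conj, T_eq]
    rw [h2, Complex.mul_conj, Complex.normSq_eq_norm_sq]
    push_cast
    rfl
  have h2 : ∫ x, ∫ p, F x p ∂(σ.prod σ) = ∫ p, (∫ x, F x p) ∂(σ.prod σ) :=
    integral_integral_swap hFi
  have h3 : ∀ p : E n × E n, ‖∫ x, F x p‖ =
      ‖g p.1‖ * ‖g p.2‖ * (P * Real.exp (-(l ^ 2 / 2 / 2) * ‖p.1 - p.2‖ ^ 2)) := by
    intro p
    have h4 : ∀ x, F x p = (((W l x : ℝ) : ℂ) * ph x (p.1 - p.2)) *
        (g p.1 * (starRingEnd ℂ) (g p.2)) := by
      intro x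
      simp only [F]
      rw [← ph_mul_conj, map_mul]
      ring
    rw [integral_congr_ae (Filter.Eventually.of_forall h4), integral_mul_const, norm_mul,
      norm_K hl, norm_mul, RCLike.norm_conj]
    ring
  -- integrability on the product of the spheres
  have hkm : Measurable fun p : E n × E n => Real.exp (-(l ^ 2 / 2 / 2) * ‖p.1 - p.2‖ ^ 2) := by
    fun_prop
  have hk1 : ∀ p : E n × E n, Real.exp (-(l ^ 2 / 2 / 2) * ‖p.1 - p.2‖ ^ 2) ≤ 1 := by
    intro p
    rw [Real.exp_le_one_iff]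
    have : 0 ≤ (l ^ 2 / 2 / 2) * ‖p.1 - p.2‖ ^ 2 := by positivity
    linarith
  have hint1 : Integrable (fun p : E n × E n => ‖g p.1‖ ^ 2 *
      Real.exp (-(l ^ 2 / 2 / 2) * ‖p.1 - p.2‖ ^ 2)) (σ.prod σ) := by
    refine Integrable.mono' (integrable_const (M ^ 2)) ?_ (Filter.Eventually.of_forall fun p => ?_)
    · exact (((hg.comp measurable_fst).norm.pow_const 2).mul hkm).aestronglyMeasurable
    · rw [norm_mul, Real.norm_eq_abs, Real.norm_eq_abs, abs_of_nonneg (by positivity),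
        abs_of_pos (Real.exp_pos _)]
      calc ‖g p.1‖ ^ 2 * Real.exp (-(l ^ 2 / 2 / 2) * ‖p.1 - p.2‖ ^ 2) ≤ M ^ 2 * 1 :=
            mul_le_mul (pow_le_pow_left₀ (norm_nonneg _) (hM _) 2) (hk1 p) (Real.exp_pos _).le
              (by positivity)
        _ = M ^ 2 := mul_one _
  have hint2 : Integrable (fun p : E n × E n => ‖g p.2‖ ^ 2 *
      Real.exp (-(l ^ 2 / 2 / 2) * ‖p.1 - p.2‖ ^ 2)) (σ.prod σ) := by
    have := hint1.swap
    refine this.congr (Filter.Eventually.of_forall fun p => ?_)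
    simp only [Function.comp, Prod.fst_swap, Prod.snd_swap]
    rw [norm_sub_rev]
  have hI : ∫ p : E n × E n, ‖g p.1‖ ^ 2 *
      Real.exp (-(l ^ 2 / 2 / 2) * ‖p.1 - p.2‖ ^ 2) ∂(σ.prod σ) =
      ∫ w, ‖g w‖ ^ 2 * D (l ^ 2 / 2) w ∂σ := by
    rw [integral_prod _ hint1]
    apply integral_congr_ae
    refine Filter.Eventually.of_forall fun w => ?_
    simp only [D]
    rw [integral_const_mul]
  have hI2 : ∫ p : E n × E n, ‖g p.2‖ ^ 2 *
      Real.exp (-(l ^ 2 / 2 / 2) * ‖p.1 - p.2‖ ^ 2) ∂(σ.prod σ) =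
      ∫ w, ‖g w‖ ^ 2 * D (l ^ 2 / 2) w ∂σ := by
    rw [← hI, ← integral_prod_swap]
    apply integral_congr_ae
    refine Filter.Eventually.of_forall fun p => ?_
    simp only [Prod.fst_swap, Prod.snd_swap]
    rw [norm_sub_rev]
  have h5 : ∫ x, W l x * ‖T g x‖ ^ 2 ≤ ‖((∫ x, W l x * ‖T g x‖ ^ 2 : ℝ) : ℂ)‖ := by
    rw [Complex.norm_real]
    exact le_abs_self _
  calc ∫ x, W l x * ‖T g x‖ ^ 2 ≤ ‖((∫ x, W l x * ‖T g x‖ ^ 2 : ℝ) : ℂ)‖ := h5
    _ = ‖∫ p, (∫ x, F x p) ∂(σ.prod σ)‖ := by rw [h1, h2]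
    _ ≤ ∫ p, ‖∫ x, F x p‖ ∂(σ.prod σ) := norm_integral_le_integral_norm _
    _ ≤ ∫ p : E n × E n, ((P / 2) * (‖g p.1‖ ^ 2 *
          Real.exp (-(l ^ 2 / 2 / 2) * ‖p.1 - p.2‖ ^ 2)) +
          (P / 2) * (‖g p.2‖ ^ 2 *
          Real.exp (-(l ^ 2 / 2 / 2) * ‖p.1 - p.2‖ ^ 2))) ∂(σ.prod σ) := by
        apply integral_mono_of_nonneg
        · exact Filter.Eventually.of_forall fun p => norm_nonneg _
        · exact (hint1.const_mul _).add (hint2.const_mul _)
        · refine Filter.Eventually.of_forall fun p => ?_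
          simp only
          rw [h3 p]
          have h6 : 0 ≤ P * Real.exp (-(l ^ 2 / 2 / 2) * ‖p.1 - p.2‖ ^ 2) := by positivity
          nlinarith [mul_nonneg h6 (sq_nonneg (‖g p.1‖ - ‖g p.2‖))]
    _ = P * ∫ w, ‖g w‖ ^ 2 * D (l ^ 2 / 2) w ∂σ := by
        rw [integral_add (hint1.const_mul _) (hint2.const_mul _), integral_const_mul,
          integral_const_mul, hI, hI2]
        ring

end L2

open L2

theorem L2_bound (n : ℕ) (hn : 2 ≤ n) : ∃ C : ℝ, 0 < C ∧ ∀ g : E n → ℂ, Measurable g →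
    (∃ M : ℝ, ∀ x, ‖g x‖ ≤ M) → ∀ l : ℝ, 0 < l → ∀ u : E n,
    ∫ x, Real.exp (-‖x - u‖ ^ 2 / l ^ 2) * ‖T g x‖ ^ 2 ≤ C * l * ∫ w, ‖g w‖ ^ 2 ∂(sg n) := by
  have hfin : IsFiniteMeasure (sg n) := sg_finite n
  obtain ⟨C, hC0, hC⟩ := D_upper n hn
  refine ⟨Real.pi ^ ((n : ℝ) / 2) * (C * 2 ^ (((n : ℝ) - 1) / 2)), by positivity, ?_⟩
  intro g hg ⟨M, hM⟩ l hl u
  have hM0 : 0 ≤ M := (norm_nonneg _).trans (hM 0)
  -- translate to the origin
  let g' : E n → ℂ := fun w => ph u w * g w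
  have hph : Measurable fun w : E n => ph u w :=
    continuous_ph.measurable.comp (measurable_const.prodMk measurable_id)
  have hg' : Measurable g' := hph.mul hg
  have hn' : ∀ w, ‖g' w‖ = ‖g w‖ := fun w => by simp only [g', norm_mul, norm_ph, one_mul]
  have hT : ∀ x, T g (x + u) = T g' x := by
    intro x
    rw [T_eq, T_eq]
    apply integral_congr_ae
    refine Filter.Eventually.of_forall fun w => ?_
    simp only [g']
    rw [ph_add]
    ring
  have h1 : ∫ x, Real.exp (-‖x - u‖ ^ 2 / l ^ 2) * ‖T g x‖ ^ 2 = ∫ x, W l x * ‖T g' x‖ ^ 2 := by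
    rw [← integral_add_right_eq_self (fun x => Real.exp (-‖x - u‖ ^ 2 / l ^ 2) * ‖T g x‖ ^ 2) u]
    apply integral_congr_ae
    refine Filter.Eventually.of_forall fun x => ?_
    simp only [add_sub_cancel_right, hT, W]
  rw [h1]
  refine (main_zero g' hg' M (fun x => by rw [hn']; exact hM x) hl).trans ?_
  simp only [hn']
  have hl2 : (0 : ℝ) < l ^ 2 := by positivity
  have h2 : ∫ w, ‖g w‖ ^ 2 * D (l ^ 2 / 2) w ∂(sg n) ≤
      ∫ w, (C * (l ^ 2 / 2) ^ (-((n : ℝ) - 1) / 2)) * ‖g w‖ ^ 2 ∂(sg n) := by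
    apply integral_mono_of_nonneg
    · refine Filter.Eventually.of_forall fun w => ?_
      apply mul_nonneg (by positivity)
      exact integral_nonneg fun _ => (Real.exp_pos _).le
    · apply Integrable.const_mul
      refine Integrable.mono' (integrable_const (M ^ 2)) (hg.norm.pow_const 2).aestronglyMeasurable
        (Filter.Eventually.of_forall fun w => ?_)
      rw [Real.norm_eq_abs, abs_of_nonneg (by positivity)]
      exact pow_le_pow_left₀ (norm_nonneg _) (hM _) 2
    · filter_upwards [sg_ae n] with w hw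
      rw [mul_comm]
      exact mul_le_mul_of_nonneg_right (hC (l ^ 2 / 2) (by positivity) w hw) (by positivity)
  rw [integral_const_mul] at h2
  have hP0 : (0 : ℝ) ≤ (Real.pi * l ^ 2) ^ ((n : ℝ) / 2) := by positivity
  refine (mul_le_mul_of_nonneg_left h2 hP0).trans (le_of_eq ?_)
  have h3 : (Real.pi * l ^ 2) ^ ((n : ℝ) / 2) = Real.pi ^ ((n : ℝ) / 2) * l ^ (n : ℝ) := by
    rw [Real.mul_rpow Real.pi_pos.le hl2.le]
    congr 1
    rw [← Real.rpow_natCast l 2, ← Real.rpow_mul hl.le]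
    congr 1
    push_cast
    ring
  have h4 : (l ^ 2 / 2) ^ (-((n : ℝ) - 1) / 2) = l ^ (-((n : ℝ) - 1)) * 2 ^ (((n : ℝ) - 1) / 2) := by
    rw [Real.div_rpow hl2.le (by norm_num), ← Real.rpow_natCast l 2, ← Real.rpow_mul hl.le,
      div_eq_mul_inv, ← Real.rpow_neg (by norm_num)]
    congr 2
    · push_cast
      ring
    · ring
  have h5 : l ^ (n : ℝ) * l ^ (-((n : ℝ) - 1)) = l := by
    rw [← Real.rpow_add hl]
    have : (n : ℝ) + -((n : ℝ) - 1) = 1 := by ring
    rw [this, Real.rpow_one]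
  rw [h3, h4]
  calc Real.pi ^ ((n : ℝ) / 2) * l ^ (n : ℝ) * (C * (l ^ (-((n : ℝ) - 1)) *
        2 ^ (((n : ℝ) - 1) / 2)) * ∫ w, ‖g w‖ ^ 2 ∂(sg n))
      = Real.pi ^ ((n : ℝ) / 2) * (C * 2 ^ (((n : ℝ) - 1) / 2)) *
        (l ^ (n : ℝ) * l ^ (-((n : ℝ) - 1))) * ∫ w, ‖g w‖ ^ 2 ∂(sg n) := by ring
    _ = _ := by rw [h5]

theorem L2_dual (n : ℕ) (hn : 2 ≤ n) : ∃ C : ℝ, 0 < C ∧ ∀ f : E n → ℂ, Measurable f →
    (∃ M : ℝ, ∀ x, ‖f x‖ ≤ M) → Integrable f → ∀ l : ℝ, 0 < l → ∀ u : E n,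
    ∫ w, ‖∫ x, Complex.exp (-((⟪x, w⟫ : ℝ) : ℂ) * I) *
        (((Real.exp (-‖x - u‖ ^ 2 / l ^ 2) : ℝ) : ℂ) * f x)‖ ^ 2 ∂(sg n) ≤
      C * l * ∫ x, Real.exp (-‖x - u‖ ^ 2 / l ^ 2) * ‖f x‖ ^ 2 := by
  have hfin : IsFiniteMeasure (sg n) := sg_finite n
  obtain ⟨C, hC0, hC⟩ := L2_bound n hn
  refine ⟨C, hC0, ?_⟩
  intro f hf ⟨M, hM⟩ hfi l hl u
  have hM0 : 0 ≤ M := (norm_nonneg _).trans (hM 0)
  set G : E n → ℝ := fun x => Real.exp (-‖x - u‖ ^ 2 / l ^ 2) with hG
  have hGc : Continuous G := by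
    rw [hG]
    fun_prop
  have hG0 : ∀ x, 0 < G x := fun x => Real.exp_pos _
  have hG1 : ∀ x, G x ≤ 1 := by
    intro x
    rw [hG]
    simp only
    rw [Real.exp_le_one_iff]
    have : 0 ≤ ‖x - u‖ ^ 2 / l ^ 2 := by positivity
    linarith [neg_div (l ^ 2) (‖x - u‖ ^ 2)]
  have hGi : Integrable G := by
    have h1 := (integrable_W (n := n) hl).comp_sub_right u
    refine h1.congr (Filter.Eventually.of_forall fun x => ?_)
    simp only [hG, W]
  set k : E n → ℂ := fun w => ∫ x, ph x w * (((G x : ℝ) : ℂ) * f x) with hk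
  have hGf : Integrable (fun x => ((G x : ℝ) : ℂ) * f x) := by
    refine Integrable.mono' hfi.norm ?_ (Filter.Eventually.of_forall fun x => ?_)
    · exact ((Complex.measurable_ofReal.comp hGc.measurable).mul hf).aestronglyMeasurable
    · rw [norm_mul, Complex.norm_real, Real.norm_eq_abs, abs_of_pos (hG0 x)]
      exact mul_le_of_le_one_left (norm_nonneg _) (hG1 x)
  have hkm : Measurable k := by
    have h : StronglyMeasurable (fun p : E n × E n => ph p.2 p.1 * (((G p.2 : ℝ) : ℂ) * f p.2)) := by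
      apply Measurable.stronglyMeasurable
      refine (continuous_ph.measurable.comp (measurable_snd.prodMk measurable_fst)).mul ?_
      exact ((Complex.measurable_ofReal.comp (hGc.measurable.comp measurable_snd)).mul
        (hf.comp measurable_snd))
    exact h.integral_prod_right.measurable
  set B : ℝ := ∫ x, ‖((G x : ℝ) : ℂ) * f x‖ with hB
  have hkb : ∀ w, ‖k w‖ ≤ B := by
    intro w
    refine (norm_integral_le_integral_norm _).trans (le_of_eq ?_)
    apply integral_congr_ae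
    refine Filter.Eventually.of_forall fun x => ?_
    simp only [norm_mul, norm_ph, one_mul]
  have hB0 : 0 ≤ B := integral_nonneg fun _ => norm_nonneg _
  let kc : E n → ℂ := fun w => (starRingEnd ℂ) (k w)
  have hkcm : Measurable kc := Complex.continuous_conj.measurable.comp hkm
  have hkcb : ∀ w, ‖kc w‖ ≤ B := fun w => by
    simp only [kc, RCLike.norm_conj]
    exact hkb w
  have hL := hC kc hkcm ⟨B, hkcb⟩ l hl u
  have hnk : ∀ w, ‖kc w‖ = ‖k w‖ := fun w => by simp only [kc, RCLike.norm_conj]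
  simp only [hnk] at hL
  set K : ℝ := ∫ w, ‖k w‖ ^ 2 ∂(sg n) with hK
  -- the duality identity
  have hid : ((K : ℝ) : ℂ) = ∫ x, (((G x : ℝ) : ℂ) * f x) * T kc x := by
    have h1 : ((K : ℝ) : ℂ) = ∫ w, (∫ x, kc w * (ph x w * (((G x : ℝ) : ℂ) * f x))) ∂(sg n) := by
      rw [hK, ← integral_complex_ofReal]
      apply integral_congr_ae
      refine Filter.Eventually.of_forall fun w => ?_
      simp only
      rw [integral_const_mul]
      change _ = kc w * k w
      simp only [kc]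
      rw [mul_comm, Complex.mul_conj, Complex.normSq_eq_norm_sq]
    rw [h1, integral_integral_swap]
    · apply integral_congr_ae
      refine Filter.Eventually.of_forall fun x => ?_
      simp only
      rw [T_eq, ← integral_const_mul]
      apply integral_congr_ae
      refine Filter.Eventually.of_forall fun w => ?_
      simp only
      ring
    · have h2 : Integrable (fun p : E n × E n => (fun _ => B) p.1 *
          ‖((G p.2 : ℝ) : ℂ) * f p.2‖) ((sg n).prod volume) :=
        (integrable_const B).mul_prod hGf.norm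
      refine h2.mono' ?_ (Filter.Eventually.of_forall fun p => ?_)
      · apply Measurable.aestronglyMeasurable
        refine (hkcm.comp measurable_fst).mul ?_
        refine (continuous_ph.measurable.comp (measurable_snd.prodMk measurable_fst)).mul ?_
        exact ((Complex.measurable_ofReal.comp (hGc.measurable.comp measurable_snd)).mul
          (hf.comp measurable_snd))
      · simp only [Function.uncurry]
        rw [norm_mul, norm_mul, norm_ph, one_mul]
        exact mul_le_mul_of_nonneg_right (hkcb _) (norm_nonneg _)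
  -- integrability
  have hTm : Measurable (T kc) := (measurable_T kc hkcm).measurable
  have hTb : ∀ x, ‖T kc x‖ ≤ B * (sg n).real univ := norm_T_le kc B hkcb
  have hi1 : Integrable (fun x => G x * ‖f x‖ ^ 2) := by
    refine Integrable.mono' (hGi.mul_const (M ^ 2)) ?_ (Filter.Eventually.of_forall fun x => ?_)
    · exact (hGc.measurable.mul (hf.norm.pow_const 2)).aestronglyMeasurable
    · rw [norm_mul, Real.norm_eq_abs, Real.norm_eq_abs, abs_of_pos (hG0 x),
        abs_of_nonneg (by positivity)]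
      exact mul_le_mul_of_nonneg_left (pow_le_pow_left₀ (norm_nonneg _) (hM _) 2) (hG0 x).le
  have hi2 : Integrable (fun x => G x * ‖T kc x‖ ^ 2) := by
    refine Integrable.mono' (hGi.mul_const ((B * (sg n).real univ) ^ 2)) ?_
      (Filter.Eventually.of_forall fun x => ?_)
    · exact (hGc.measurable.mul (hTm.norm.pow_const 2)).aestronglyMeasurable
    · rw [norm_mul, Real.norm_eq_abs, Real.norm_eq_abs, abs_of_pos (hG0 x),
        abs_of_nonneg (by positivity)]
      exact mul_le_mul_of_nonneg_left (pow_le_pow_left₀ (norm_nonneg _) (hTb _) 2) (hG0 x).le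
  set A₀ : ℝ := ∫ x, G x * ‖f x‖ ^ 2 with hA₀
  set t : ℝ := C * l with ht
  have ht0 : 0 < t := by positivity
  have h3 : K ≤ ∫ x, ((t / 2) * (G x * ‖f x‖ ^ 2) + (1 / (2 * t)) * (G x * ‖T kc x‖ ^ 2)) := by
    calc K ≤ ‖((K : ℝ) : ℂ)‖ := by
          rw [Complex.norm_real]
          exact le_abs_self _
      _ ≤ ∫ x, ‖(((G x : ℝ) : ℂ) * f x) * T kc x‖ := by
          rw [hid]
          exact norm_integral_le_integral_norm _
      _ ≤ _ := by
          apply integral_mono_of_nonneg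
          · exact Filter.Eventually.of_forall fun x => norm_nonneg _
          · exact (hi1.const_mul _).add (hi2.const_mul _)
          · refine Filter.Eventually.of_forall fun x => ?_
            simp only
            rw [norm_mul, norm_mul, Complex.norm_real, Real.norm_eq_abs, abs_of_pos (hG0 x)]
            have h4 : (t / 2) * (G x * ‖f x‖ ^ 2) + (1 / (2 * t)) * (G x * ‖T kc x‖ ^ 2) -
                G x * ‖f x‖ * ‖T kc x‖ =
                G x * (1 / (2 * t)) * (t * ‖f x‖ - ‖T kc x‖) ^ 2 := by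
              field_simp
              ring
            have h5 : 0 ≤ G x * (1 / (2 * t)) * (t * ‖f x‖ - ‖T kc x‖) ^ 2 := by
              have := (hG0 x).le
              positivity
            linarith
  rw [integral_add (hi1.const_mul _) (hi2.const_mul _), integral_const_mul,
    integral_const_mul] at h3
  have h6 : 1 / (2 * t) * ∫ x, G x * ‖T kc x‖ ^ 2 ≤ K / 2 := by
    calc 1 / (2 * t) * ∫ x, G x * ‖T kc x‖ ^ 2 ≤ 1 / (2 * t) * (t * K) :=
          mul_le_mul_of_nonneg_left hL (by positivity)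
      _ = K / 2 := by field_simp
  change K ≤ t * A₀
  linarith

end Pool.Agent.H789R2.FR
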