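import Mathlib
import Pool.Agent.H97.L.S8.H789R2.FR.Smooth
import Pool.Agent.H97.L.S8.H789R2.FR.L2
set_option autoImplicit false

/-! Task W: the level-set form of the Stein-Tomas theorem. -/

namespace Pool.Agent.H789R2.FR

open MeasureTheory Measure Set Metric Complex
open scoped ENNReal Pointwise RealInnerProductSpace ComplexConjugate

namespace Weak

variable {n : ℕ}

/-- The exponential. -/
noncomputable def ee (x w : E n) : ℂ := Complex.exp (-((⟪x, w⟫ : ℝ) : ℂ) * I)

theorem norm_ee (x w : E n) : ‖ee x w‖ = 1 := by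
  unfold ee
  have : -((⟪x, w⟫ : ℝ) : ℂ) * I = ((-⟪x, w⟫ : ℝ) : ℂ) * I := by push_cast; ring
  rw [this, Complex.norm_exp_ofReal_mul_I]

theorem cont_ee : Continuous fun p : E n × E n => ee p.1 p.2 := by
  unfold ee
  fun_prop

theorem meas_ee : Measurable fun p : E n × E n => ee p.1 p.2 := cont_ee.measurable

theorem meas_ee' {α : Type*} [MeasurableSpace α] {f g : α → E n} (hf : Measurable f)
    (hg : Measurable g) : Measurable fun a => ee (f a) (g a) := by
  unfold ee
  have h : Measurable fun a => (⟪f a, g a⟫ : ℝ) := hf.inner hg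
  fun_prop

theorem T_eq (g : E n → ℂ) (x : E n) : T g x = ∫ w, ee x w * g w ∂(sg n) := rfl

theorem meas_ee_left (w : E n) : Measurable fun x : E n => ee x w := by
  have : Continuous fun x : E n => ee x w := by
    unfold ee
    fun_prop
  exact this.measurable

theorem meas_ee_right (x : E n) : Measurable fun w : E n => ee x w := by
  have : Continuous fun w : E n => ee x w := by
    unfold ee
    fun_prop
  exact this.measurable

theorem ee_mul_conj (x y w : E n) : ee x w * conj (ee y w) = ee (x - y) w := by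
  unfold ee
  rw [← Complex.exp_conj, ← Complex.exp_add]
  congr 1
  simp only [map_mul, map_neg, Complex.conj_ofReal, Complex.conj_I, inner_sub_left]
  push_cast
  ring

attribute [irreducible] ee

/-- Bounded measurable functions are integrable for finite measures. -/
theorem integrable_bdd {α : Type*} [MeasurableSpace α] {μ : Measure α} [IsFiniteMeasure μ]
    {f : α → ℂ} (hf : Measurable f) {C : ℝ} (hC : ∀ x, ‖f x‖ ≤ C) : Integrable f μ :=
  Integrable.of_bound hf.aestronglyMeasurable C (Filter.Eventually.of_forall hC)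

theorem integrable_bddR {α : Type*} [MeasurableSpace α] {μ : Measure α} [IsFiniteMeasure μ]
    {f : α → ℝ} (hf : Measurable f) {C : ℝ} (hC : ∀ x, ‖f x‖ ≤ C) : Integrable f μ :=
  Integrable.of_bound hf.aestronglyMeasurable C (Filter.Eventually.of_forall hC)

/-- The Fourier transform of a measure with a density. -/
noncomputable def kk (μ : Measure (E n)) (h : E n → ℂ) (w : E n) : ℂ :=
  ∫ x, ee x w * h x ∂μ

section

variable {μ ν : Measure (E n)} [IsFiniteMeasure μ] [IsFiniteMeasure ν] {h : E n → ℂ}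

theorem meas_kk (hh : Measurable h) : Measurable (kk μ h) := by
  unfold kk
  have h1 : StronglyMeasurable fun p : E n × E n => ee p.2 p.1 * h p.2 := by
    apply Measurable.stronglyMeasurable
    exact (meas_ee' measurable_snd measurable_fst).mul (hh.comp measurable_snd)
  exact h1.integral_prod_right'.measurable

theorem norm_kk_le (hb : ∀ x, ‖h x‖ ≤ 1) (w : E n) : ‖kk μ h w‖ ≤ μ.real univ := by
  unfold kk
  have := norm_integral_le_of_norm_le_const (μ := μ) (f := fun x => ee x w * h x) (C := 1)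
    (Filter.Eventually.of_forall fun x => by rw [norm_mul, norm_ee, one_mul]; exact hb x)
  simpa using this

/-- The product formula. -/
theorem kk_mul (hh : Measurable h) (hb : ∀ x, ‖h x‖ ≤ 1) [IsFiniteMeasure (sg n)] :
    ∫ w, kk μ h w * conj (kk ν h w) ∂(sg n) =
      ∫ z : E n × E n, (h z.1 * conj (h z.2)) * T (fun _ => (1 : ℂ)) (z.1 - z.2)
        ∂(μ.prod ν) := by
  have h1 : ∀ w, kk μ h w * conj (kk ν h w) =
      ∫ z : E n × E n, (ee z.1 w * h z.1) * conj (ee z.2 w * h z.2) ∂(μ.prod ν) := by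
    intro w
    rw [integral_prod_mul (fun x => ee x w * h x) (fun y => conj (ee y w * h y))]
    unfold kk
    rw [integral_conj]
  simp_rw [h1]
  rw [integral_integral_swap]
  · apply integral_congr_ae
    refine Filter.Eventually.of_forall fun z => ?_
    simp only
    have : ∀ w, ee z.1 w * h z.1 * conj (ee z.2 w * h z.2) =
        (h z.1 * conj (h z.2)) * (ee (z.1 - z.2) w * 1) := by
      intro w
      rw [map_mul, ← ee_mul_conj]
      ring
    simp_rw [this]
    rw [integral_const_mul, T_eq]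
  · refine integrable_bdd (C := 1) ?_ ?_
    · simp only [Function.uncurry_def]
      apply Measurable.mul
      · exact (meas_ee' (measurable_fst.comp measurable_snd) measurable_fst).mul
          (hh.comp (measurable_fst.comp measurable_snd))
      · apply Complex.continuous_conj.measurable.comp
        exact (meas_ee' (measurable_snd.comp measurable_snd) measurable_fst).mul
          (hh.comp (measurable_snd.comp measurable_snd))
    · rintro ⟨w, x, y⟩
      simp only [Function.uncurry_apply_pair]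
      rw [norm_mul, norm_mul, RCLike.norm_conj, norm_mul, norm_ee, norm_ee, one_mul, one_mul]
      exact mul_le_one₀ (hb x) (norm_nonneg _) (hb y)

end

/-- Cauchy-Schwarz for bounded functions. -/
theorem cs {α : Type*} [MeasurableSpace α] {μ : Measure α} [IsFiniteMeasure μ] {a b : α → ℝ}
    (ha : Measurable a) (hb : Measurable b) {A B : ℝ} (hA : ∀ x, ‖a x‖ ≤ A)
    (hB : ∀ x, ‖b x‖ ≤ B) :
    (∫ x, a x * b x ∂μ) ^ 2 ≤ (∫ x, a x ^ 2 ∂μ) * ∫ x, b x ^ 2 ∂μ := by
  have iaa : Integrable (fun x => a x ^ 2) μ := by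
    refine integrable_bddR (C := A ^ 2) (ha.pow_const 2) fun x => ?_
    rw [norm_pow]
    exact pow_le_pow_left₀ (norm_nonneg _) (hA x) 2
  have ibb : Integrable (fun x => b x ^ 2) μ := by
    refine integrable_bddR (C := B ^ 2) (hb.pow_const 2) fun x => ?_
    rw [norm_pow]
    exact pow_le_pow_left₀ (norm_nonneg _) (hB x) 2
  have iab : Integrable (fun x => a x * b x) μ := by
    refine integrable_bddR (C := A * B) (ha.mul hb) fun x => ?_
    rw [norm_mul]
    exact mul_le_mul (hA x) (hB x) (norm_nonneg _) ((norm_nonneg _).trans (hA x))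
  have key : ∀ t : ℝ, 0 ≤ (∫ x, a x ^ 2 ∂μ) * (t * t) + (2 * ∫ x, a x * b x ∂μ) * t +
      ∫ x, b x ^ 2 ∂μ := by
    intro t
    have h1 : 0 ≤ ∫ x, (a x * t + b x) ^ 2 ∂μ := integral_nonneg fun x => sq_nonneg _
    have h2 : ∫ x, (a x * t + b x) ^ 2 ∂μ = (∫ x, a x ^ 2 ∂μ) * (t * t) +
        (2 * ∫ x, a x * b x ∂μ) * t + ∫ x, b x ^ 2 ∂μ := by
      have : ∀ x, (a x * t + b x) ^ 2 = a x ^ 2 * (t * t) + a x * b x * (2 * t) + b x ^ 2 := by
        intro x; ring
      simp_rw [this]
      rw [integral_add, integral_add, integral_mul_const, integral_mul_const]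
      · ring
      · exact iaa.mul_const _
      · exact iab.mul_const _
      · exact (iaa.mul_const _).add (iab.mul_const _)
      · exact ibb
    linarith
  have := discrim_le_zero key
  unfold discrim at this
  nlinarith

/-- Local part. -/
theorem near_bound (n : ℕ) (hn : 2 ≤ n) : ∃ C : ℝ, 0 < C ∧ ∀ l : ℝ, 0 < l →
    ∀ S : Set (E n), MeasurableSet S → volume S ≠ ⊤ →
    (∀ x ∈ S, ∀ y ∈ S, ‖x - y‖ ^ 2 ≤ n * l ^ 2) → ∀ h : E n → ℂ, Measurable h →
    (∀ x, ‖h x‖ ≤ 1) →
    ∫ w, ‖kk (volume.restrict S) h w‖ ^ 2 ∂(sg n) ≤ C * l * volume.real S := by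
  obtain ⟨C, hC, hdual⟩ := L2_dual n hn
  refine ⟨C * Real.exp n, by positivity, fun l hl S hS hfin hd h hh hb => ?_⟩
  rcases S.eq_empty_or_nonempty with rfl | ⟨x₀, hx₀⟩
  · simp [kk]
  have hfin' : IsFiniteMeasure (volume.restrict S) := ⟨by simpa using hfin.lt_top⟩
  set f : E n → ℂ := S.indicator (fun x => ((Real.exp (‖x - x₀‖ ^ 2 / l ^ 2) : ℝ) : ℂ) * h x)
    with hf
  have hfm : Measurable f := by
    apply Measurable.indicator _ hS
    apply Measurable.mul _ hh
    have : Continuous fun x : E n => ((Real.exp (‖x - x₀‖ ^ 2 / l ^ 2) : ℝ) : ℂ) := by fun_prop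
    exact this.measurable
  have hexp : ∀ x ∈ S, Real.exp (‖x - x₀‖ ^ 2 / l ^ 2) ≤ Real.exp n := by
    intro x hx
    apply Real.exp_le_exp.2
    rw [div_le_iff₀ (by positivity)]
    exact hd x hx x₀ hx₀
  have hfb : ∀ x, ‖f x‖ ≤ Real.exp n := by
    intro x
    by_cases hx : x ∈ S
    · rw [hf, Set.indicator_of_mem hx, norm_mul, Complex.norm_real, Real.norm_eq_abs,
        abs_of_pos (Real.exp_pos _)]
      calc _ ≤ Real.exp n * 1 := mul_le_mul (hexp x hx) (hb x) (norm_nonneg _) (Real.exp_pos _).le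
        _ = _ := mul_one _
    · rw [hf, Set.indicator_of_notMem hx, norm_zero]
      exact (Real.exp_pos _).le
  have hfi : Integrable f := by
    rw [hf, integrable_indicator_iff hS]
    refine Integrable.of_bound (C := Real.exp n) ?_ ?_
    · apply Measurable.aestronglyMeasurable
      apply Measurable.mul _ hh
      have : Continuous fun x : E n => ((Real.exp (‖x - x₀‖ ^ 2 / l ^ 2) : ℝ) : ℂ) := by fun_prop
      exact this.measurable
    · refine (ae_restrict_iff' hS).2 (Filter.Eventually.of_forall fun x hx => ?_)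
      have := hfb x
      rwa [hf, Set.indicator_of_mem hx] at this
  have h1 := hdual f hfm ⟨_, hfb⟩ hfi l hl x₀
  have h2 : ∀ w, ∫ x, Complex.exp (-((⟪x, w⟫ : ℝ) : ℂ) * I) *
      (((Real.exp (-‖x - x₀‖ ^ 2 / l ^ 2) : ℝ) : ℂ) * f x) = kk (volume.restrict S) h w := by
    intro w
    unfold kk
    rw [← integral_indicator hS]
    apply integral_congr_ae
    refine Filter.Eventually.of_forall fun x => ?_
    by_cases hx : x ∈ S
    · simp only [hf, Set.indicator_of_mem hx]
      have e1 : ((Real.exp (-‖x - x₀‖ ^ 2 / l ^ 2) : ℝ) : ℂ) *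
          ((Real.exp (‖x - x₀‖ ^ 2 / l ^ 2) : ℝ) : ℂ) = 1 := by
        rw [← Complex.ofReal_mul, ← Real.exp_add]
        have : -‖x - x₀‖ ^ 2 / l ^ 2 + ‖x - x₀‖ ^ 2 / l ^ 2 = 0 := by ring
        rw [this]; simp
      rw [← mul_assoc (((Real.exp (-‖x - x₀‖ ^ 2 / l ^ 2) : ℝ) : ℂ)), e1, one_mul]
      unfold ee
      rfl
    · simp only [hf, Set.indicator_of_notMem hx, mul_zero]
  simp_rw [h2] at h1
  refine h1.trans ?_
  have h3 : ∫ x, Real.exp (-‖x - x₀‖ ^ 2 / l ^ 2) * ‖f x‖ ^ 2 ≤ Real.exp n * volume.real S := by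
    have e2 : ∀ x, Real.exp (-‖x - x₀‖ ^ 2 / l ^ 2) * ‖f x‖ ^ 2 ≤
        S.indicator (fun _ => Real.exp n) x := by
      intro x
      by_cases hx : x ∈ S
      · rw [Set.indicator_of_mem hx, hf, Set.indicator_of_mem hx, norm_mul, Complex.norm_real,
          Real.norm_eq_abs, abs_of_pos (Real.exp_pos _), mul_pow]
        have e3 : Real.exp (-‖x - x₀‖ ^ 2 / l ^ 2) * Real.exp (‖x - x₀‖ ^ 2 / l ^ 2) = 1 := by
          rw [← Real.exp_add]
          have : -‖x - x₀‖ ^ 2 / l ^ 2 + ‖x - x₀‖ ^ 2 / l ^ 2 = 0 := by ring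
          rw [this]; simp
        have e4 : ‖h x‖ ^ 2 ≤ 1 := pow_le_one₀ (norm_nonneg _) (hb x)
        calc Real.exp (-‖x - x₀‖ ^ 2 / l ^ 2) *
              (Real.exp (‖x - x₀‖ ^ 2 / l ^ 2) ^ 2 * ‖h x‖ ^ 2)
            = (Real.exp (-‖x - x₀‖ ^ 2 / l ^ 2) * Real.exp (‖x - x₀‖ ^ 2 / l ^ 2)) *
              (Real.exp (‖x - x₀‖ ^ 2 / l ^ 2) * ‖h x‖ ^ 2) := by ring
          _ = Real.exp (‖x - x₀‖ ^ 2 / l ^ 2) * ‖h x‖ ^ 2 := by rw [e3, one_mul]
          _ ≤ Real.exp n * 1 :=
            mul_le_mul (hexp x hx) e4 (by positivity) (Real.exp_pos _).le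
          _ = _ := mul_one _
      · rw [Set.indicator_of_notMem hx, hf, Set.indicator_of_notMem hx]
        simp
    have hint : Integrable (S.indicator (fun _ : E n => Real.exp n)) := by
      rw [integrable_indicator_iff hS]
      exact integrable_const _
    calc ∫ x, Real.exp (-‖x - x₀‖ ^ 2 / l ^ 2) * ‖f x‖ ^ 2
        ≤ ∫ x, S.indicator (fun _ : E n => Real.exp n) x := by
          apply integral_mono_of_nonneg
          · exact Filter.Eventually.of_forall fun x => by positivity
          · exact hint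
          · exact Filter.Eventually.of_forall e2
      _ = Real.exp n * volume.real S := by
          rw [integral_indicator hS, setIntegral_const, smul_eq_mul, mul_comm]
  calc C * l * ∫ x, Real.exp (-‖x - x₀‖ ^ 2 / l ^ 2) * ‖f x‖ ^ 2
      ≤ C * l * (Real.exp n * volume.real S) := by gcongr
    _ = _ := by ring

/-- Distant parts. -/
theorem far_bound (n : ℕ) (hn : 2 ≤ n) : ∃ C : ℝ, 0 < C ∧ ∀ l : ℝ, 0 < l →
    ∀ S S' : Set (E n), MeasurableSet S → MeasurableSet S' → volume S ≠ ⊤ → volume S' ≠ ⊤ →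
    (∀ x ∈ S, ∀ y ∈ S', l ≤ ‖x - y‖) → ∀ h : E n → ℂ, Measurable h → (∀ x, ‖h x‖ ≤ 1) →
    ‖∫ w, kk (volume.restrict S) h w * conj (kk (volume.restrict S') h w) ∂(sg n)‖ ≤
      C * l ^ (-((n : ℝ) - 1) / 2) * (volume.real S * volume.real S') := by
  obtain ⟨C, hC, hdec⟩ := decay n hn
  have hsg := sg_finite n
  refine ⟨C, hC, fun l hl S S' hS hS' hfin hfin' hd h hh hb => ?_⟩
  have i1 : IsFiniteMeasure (volume.restrict S) := ⟨by simpa using hfin.lt_top⟩
  have i2 : IsFiniteMeasure (volume.restrict S') := ⟨by simpa using hfin'.lt_top⟩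
  rw [kk_mul hh hb]
  have key : ∀ᵐ z : E n × E n ∂((volume.restrict S).prod (volume.restrict S')),
      ‖(h z.1 * conj (h z.2)) * T (fun _ => (1 : ℂ)) (z.1 - z.2)‖ ≤
        C * l ^ (-((n : ℝ) - 1) / 2) := by
    rw [Measure.prod_restrict]
    refine (ae_restrict_iff' (hS.prod hS')).2 (Filter.Eventually.of_forall ?_)
    rintro ⟨x, y⟩ ⟨hx, hy⟩
    simp only at hx hy ⊢
    have h1 := hd x hx y hy
    have h2 : x - y ≠ 0 := by
      intro h0
      rw [h0, norm_zero] at h1
      linarith
    have h3 := hdec (x - y) h2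
    have h4 : ‖x - y‖ ^ (-((n : ℝ) - 1) / 2) ≤ l ^ (-((n : ℝ) - 1) / 2) := by
      apply Real.rpow_le_rpow_of_nonpos hl h1
      have : (2 : ℝ) ≤ n := by exact_mod_cast hn
      linarith
    rw [norm_mul, norm_mul, RCLike.norm_conj]
    calc ‖h x‖ * ‖h y‖ * ‖T (fun _ => (1 : ℂ)) (x - y)‖
        ≤ 1 * (C * ‖x - y‖ ^ (-((n : ℝ) - 1) / 2)) := by
          apply mul_le_mul _ h3 (norm_nonneg _) zero_le_one
          exact mul_le_one₀ (hb x) (norm_nonneg _) (hb y)
      _ ≤ C * l ^ (-((n : ℝ) - 1) / 2) := by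
          rw [one_mul]
          exact mul_le_mul_of_nonneg_left h4 hC.le
  have h5 := norm_integral_le_of_norm_le_const key
  refine h5.trans (le_of_eq ?_)
  congr 1
  rw [measureReal_def, ← Set.univ_prod_univ, Measure.prod_prod, ENNReal.toReal_mul]
  simp [measureReal_def]

/-- The cell of side `l` containing `x`. -/
noncomputable def cell (l : ℝ) (x : E n) : Fin n → ℤ := fun i => ⌊x i / l⌋

theorem meas_cell (l : ℝ) : Measurable (cell l : E n → Fin n → ℤ) := by
  rw [measurable_pi_iff]
  intro i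
  have h1 : Continuous fun x : E n => x i / l := by fun_prop
  exact Int.measurable_floor.comp h1.measurable

/-- Neighbouring cells. -/
def Near (q q' : Fin n → ℤ) : Prop := ∀ i, |q i - q' i| ≤ 1

theorem near_symm {q q' : Fin n → ℤ} (h : Near q q') : Near q' q := by
  intro i
  rw [abs_sub_comm]
  exact h i

open Classical in
theorem card_near (q : Fin n → ℤ) (I : Finset (Fin n → ℤ)) :
    (I.filter (fun q' => Near q q')).card ≤ 3 ^ n := by
  have h1 : I.filter (fun q' => Near q q') ⊆
      Fintype.piFinset (fun i => Finset.Icc (q i - 1) (q i + 1)) := by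
    intro q' hq'
    rw [Finset.mem_filter] at hq'
    rw [Fintype.mem_piFinset]
    intro i
    have := hq'.2 i
    rw [abs_le] at this
    rw [Finset.mem_Icc]
    constructor <;> linarith [this.1, this.2]
  refine (Finset.card_le_card h1).trans ?_
  rw [Fintype.card_piFinset]
  have : ∀ i, (Finset.Icc (q i - 1) (q i + 1)).card = 3 := by
    intro i
    rw [Int.card_Icc]
    omega
  simp [this]

theorem same_cell {l : ℝ} (hl : 0 < l) {x y : E n} (h : cell l x = cell l y) :
    ‖x - y‖ ^ 2 ≤ n * l ^ 2 := by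
  rw [EuclideanSpace.norm_sq_eq]
  calc ∑ i, ‖(x - y) i‖ ^ 2 ≤ ∑ _i : Fin n, l ^ 2 := by
        apply Finset.sum_le_sum
        intro i _
        have h1 : ⌊x i / l⌋ = ⌊y i / l⌋ := congrFun h i
        have h2 := Int.floor_le (x i / l)
        have h3 := Int.lt_floor_add_one (x i / l)
        have h4 := Int.floor_le (y i / l)
        have h5 := Int.lt_floor_add_one (y i / l)
        rw [h1] at h2 h3
        have h6 : |x i / l - y i / l| ≤ 1 := by
          rw [abs_le]; constructor <;> linarith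
        have h7 : |x i - y i| ≤ l := by
          have : x i - y i = (x i / l - y i / l) * l := by field_simp
          rw [this, abs_mul, abs_of_pos hl]
          nlinarith
        have h8 : ‖(x - y) i‖ = |x i - y i| := by
          rw [Real.norm_eq_abs]; rfl
        rw [h8]
        exact pow_le_pow_left₀ (abs_nonneg _) h7 2
    _ = n * l ^ 2 := by simp

theorem far_cell {l : ℝ} (hl : 0 < l) {x y : E n} (h : ¬ Near (cell l x) (cell l y)) :
    l ≤ ‖x - y‖ := by
  unfold Near at h
  push Not at h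
  obtain ⟨i, hi⟩ := h
  have h2 := Int.floor_le (x i / l)
  have h3 := Int.lt_floor_add_one (x i / l)
  have h4 := Int.floor_le (y i / l)
  have h5 := Int.lt_floor_add_one (y i / l)
  have h6 : (1 : ℤ) < |⌊x i / l⌋ - ⌊y i / l⌋| := hi
  have h7 : 1 ≤ |x i / l - y i / l| := by
    rcases lt_abs.1 h6 with h | h
    · have h' : (2 : ℤ) ≤ ⌊x i / l⌋ - ⌊y i / l⌋ := by omega
      have h'' : (2 : ℝ) ≤ ⌊x i / l⌋ - ⌊y i / l⌋ := by exact_mod_cast h'
      rw [le_abs]; left; linarith
    · have h' : (2 : ℤ) ≤ -(⌊x i / l⌋ - ⌊y i / l⌋) := by omega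
      have h'' : (2 : ℝ) ≤ -((⌊x i / l⌋ : ℝ) - ⌊y i / l⌋) := by exact_mod_cast h'
      rw [le_abs]; right; linarith
  have h8 : l ≤ |x i - y i| := by
    have : x i - y i = (x i / l - y i / l) * l := by field_simp
    rw [this, abs_mul, abs_of_pos hl]
    nlinarith
  refine h8.trans ?_
  have h9 := EuclideanSpace.norm_eq (x - y)
  have h10 : |x i - y i| ^ 2 ≤ ‖x - y‖ ^ 2 := by
    rw [EuclideanSpace.norm_sq_eq]
    have : |x i - y i| ^ 2 = ‖(x - y) i‖ ^ 2 := by
      rw [Real.norm_eq_abs]; rfl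
    rw [this]
    exact Finset.single_le_sum (f := fun j => ‖(x - y) j‖ ^ 2) (fun j _ => by positivity)
      (Finset.mem_univ i)
  exact (pow_le_pow_iff_left₀ (abs_nonneg _) (norm_nonneg _) (by norm_num)).1 h10

theorem pair_bound {μ ν : Measure (E n)} [IsFiniteMeasure μ] [IsFiniteMeasure ν]
    [IsFiniteMeasure (sg n)] {h : E n → ℂ} (hh : Measurable h) (hb : ∀ x, ‖h x‖ ≤ 1) :
    ‖∫ w, kk μ h w * conj (kk ν h w) ∂(sg n)‖ ≤
      ((∫ w, ‖kk μ h w‖ ^ 2 ∂(sg n)) + ∫ w, ‖kk ν h w‖ ^ 2 ∂(sg n)) / 2 := by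
  have i1 : ∀ (μ : Measure (E n)) [IsFiniteMeasure μ],
      Integrable (fun w => ‖kk μ h w‖ ^ 2) (sg n) := by
    intro μ _
    refine integrable_bddR (C := (μ.real univ) ^ 2) ((meas_kk hh).norm.pow_const 2) fun x => ?_
    rw [norm_pow, norm_norm]
    exact pow_le_pow_left₀ (norm_nonneg _) (norm_kk_le hb x) 2
  rw [← integral_add (i1 μ) (i1 ν), ← integral_div]
  apply norm_integral_le_of_norm_le
  · exact ((i1 μ).add (i1 ν)).div_const 2
  · refine Filter.Eventually.of_forall fun w => ?_
    rw [norm_mul, RCLike.norm_conj]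
    nlinarith [sq_nonneg (‖kk μ h w‖ - ‖kk ν h w‖)]

theorem energy_bound (n : ℕ) (hn : 2 ≤ n) : ∃ C : ℝ, 0 < C ∧ ∀ l : ℝ, 0 < l →
    ∀ S : Set (E n), MeasurableSet S → Bornology.IsBounded S → ∀ h : E n → ℂ, Measurable h →
    (∀ x, ‖h x‖ ≤ 1) →
    ∫ w, ‖kk (volume.restrict S) h w‖ ^ 2 ∂(sg n) ≤
      C * (l * volume.real S + l ^ (-((n : ℝ) - 1) / 2) * volume.real S ^ 2) := by
  classical
  obtain ⟨C₁, hC₁, hnear⟩ := near_bound n hn
  obtain ⟨C₂, hC₂, hfar⟩ := far_bound n hn
  have hsg := sg_finite n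
  refine ⟨3 ^ n * C₁ + C₂, by positivity, fun l hl S hS hSb h hh hb => ?_⟩
  obtain ⟨R, hR⟩ := hSb.subset_closedBall (0 : E n)
  set I : Finset (Fin n → ℤ) := Fintype.piFinset (fun _ => Finset.Icc ⌊-R / l⌋ ⌊R / l⌋) with hI
  set Sq : (Fin n → ℤ) → Set (E n) := fun q => S ∩ cell l ⁻¹' {q} with hSq
  have hSqm : ∀ q, MeasurableSet (Sq q) := fun q =>
    hS.inter (meas_cell l (measurableSet_singleton q))
  have hvS : volume S ≠ ⊤ := (hSb.measure_lt_top).ne
  have hSqf : ∀ q, volume (Sq q) ≠ ⊤ := fun q =>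
    ((measure_mono Set.inter_subset_left).trans_lt hvS.lt_top).ne
  have hcov : S = ⋃ q ∈ I, Sq q := by
    ext x
    simp only [Set.mem_iUnion, exists_prop, hSq, Set.mem_inter_iff, Set.mem_preimage,
      Set.mem_singleton_iff]
    constructor
    · intro hx
      refine ⟨cell l x, ?_, hx, rfl⟩
      rw [hI, Fintype.mem_piFinset]
      intro i
      have h1 : ‖x‖ ≤ R := by simpa using hR hx
      have h2 : |x i| ≤ R := by
        have := EuclideanSpace.norm_sq_eq x
        have h3 : |x i| ^ 2 ≤ ‖x‖ ^ 2 := by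
          rw [this]
          exact Finset.single_le_sum (f := fun j => ‖x j‖ ^ 2) (fun j _ => by positivity)
            (Finset.mem_univ i)
        exact ((pow_le_pow_iff_left₀ (abs_nonneg _) (norm_nonneg _) (by norm_num)).1 h3).trans h1
      rw [abs_le] at h2
      rw [Finset.mem_Icc]
      constructor
      · apply Int.floor_le_floor
        exact div_le_div_of_nonneg_right h2.1 hl.le
      · apply Int.floor_le_floor
        exact div_le_div_of_nonneg_right h2.2 hl.le
    · rintro ⟨q, _, hx, _⟩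
      exact hx
  have hdisj : Set.Pairwise (↑I) (Function.onFun Disjoint Sq) := by
    intro q _ q' _ hne
    rw [Function.onFun, Set.disjoint_left]
    rintro x ⟨_, hx⟩ ⟨_, hx'⟩
    apply hne
    rw [Set.mem_preimage, Set.mem_singleton_iff] at hx hx'
    rw [← hx, hx']
  have ifin : ∀ q, IsFiniteMeasure (volume.restrict (Sq q)) := fun q =>
    ⟨by simpa using (hSqf q).lt_top⟩
  have ifinS : IsFiniteMeasure (volume.restrict S) := ⟨by simpa using hvS.lt_top⟩
  have hkk : ∀ w, kk (volume.restrict S) h w = ∑ q ∈ I, kk (volume.restrict (Sq q)) h w := by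
    intro w
    unfold kk
    conv_lhs => rw [hcov]
    apply integral_biUnion_finset
    · exact fun q _ => hSqm q
    · exact hdisj
    · intro q _
      refine integrable_bdd (C := 1) ((meas_ee_left w).mul hh) fun x => ?_
      rw [norm_mul, norm_ee, one_mul]
      exact hb x
  have hV : volume.real S = ∑ q ∈ I, volume.real (Sq q) := by
    have h1 : ∫ _x in S, (1 : ℝ) = ∑ q ∈ I, ∫ _x in Sq q, (1 : ℝ) := by
      conv_lhs => rw [hcov]
      apply integral_biUnion_finset
      · exact fun q _ => hSqm q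
      · exact hdisj
      · intro q _
        exact integrable_const _
    simpa using h1
  -- the energy as a double sum
  have hint : ∀ q q', Integrable (fun w => kk (volume.restrict (Sq q)) h w *
      conj (kk (volume.restrict (Sq q')) h w)) (sg n) := by
    intro q q'
    refine integrable_bdd (C := volume.real (Sq q) * volume.real (Sq q'))
      ((meas_kk hh).mul (Complex.continuous_conj.measurable.comp (meas_kk hh))) fun w => ?_
    rw [norm_mul, RCLike.norm_conj]
    have a1 := norm_kk_le (μ := volume.restrict (Sq q)) hb w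
    have a2 := norm_kk_le (μ := volume.restrict (Sq q')) hb w
    simp only [measureReal_restrict_apply_univ] at a1 a2
    exact mul_le_mul a1 a2 (norm_nonneg _) (by positivity)
  have hE : ∫ w, ‖kk (volume.restrict S) h w‖ ^ 2 ∂(sg n) =
      ∑ q ∈ I, ∑ q' ∈ I, (∫ w, kk (volume.restrict (Sq q)) h w *
        conj (kk (volume.restrict (Sq q')) h w) ∂(sg n)).re := by
    have h1 : ((∫ w, ‖kk (volume.restrict S) h w‖ ^ 2 ∂(sg n) : ℝ) : ℂ) =
        ∑ q ∈ I, ∑ q' ∈ I, ∫ w, kk (volume.restrict (Sq q)) h w *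
        conj (kk (volume.restrict (Sq q')) h w) ∂(sg n) := by
      rw [← integral_complex_ofReal]
      have h2 : ∀ w, ((‖kk (volume.restrict S) h w‖ ^ 2 : ℝ) : ℂ) =
          ∑ q ∈ I, ∑ q' ∈ I, kk (volume.restrict (Sq q)) h w *
        conj (kk (volume.restrict (Sq q')) h w) := by
        intro w
        push_cast
        rw [← Complex.mul_conj', hkk w, _root_.map_sum, Finset.sum_mul_sum]
      simp_rw [h2]
      rw [integral_finsetSum]
      · apply Finset.sum_congr rfl
        intro q _
        rw [integral_finsetSum]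
        exact fun q' _ => hint q q'
      · intro q _
        exact integrable_finsetSum _ fun q' _ => hint q q'
    have h3 := congrArg Complex.re h1
    rw [Complex.ofReal_re, Complex.re_sum] at h3
    rw [h3]
    apply Finset.sum_congr rfl
    intro q _
    rw [Complex.re_sum]
  set A : (Fin n → ℤ) → ℝ := fun q => ∫ w, ‖kk (volume.restrict (Sq q)) h w‖ ^ 2 ∂(sg n) with hA
  have hA0 : ∀ q, 0 ≤ A q := fun q => integral_nonneg fun w => by positivity
  have hAle : ∀ q, A q ≤ C₁ * l * volume.real (Sq q) := by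
    intro q
    apply hnear l hl (Sq q) (hSqm q) (hSqf q) _ h hh hb
    rintro x ⟨_, hx⟩ y ⟨_, hy⟩
    rw [Set.mem_preimage, Set.mem_singleton_iff] at hx hy
    exact same_cell hl (hx.trans hy.symm)
  have hterm : ∀ q q', (∫ w, kk (volume.restrict (Sq q)) h w *
        conj (kk (volume.restrict (Sq q')) h w) ∂(sg n)).re ≤
      ((if Near q q' then A q / 2 else 0) + (if Near q' q then A q' / 2 else 0)) +
        C₂ * l ^ (-((n : ℝ) - 1) / 2) * (volume.real (Sq q) * volume.real (Sq q')) := by
    intro q q'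
    refine (Complex.re_le_norm _).trans ?_
    have hpos : 0 ≤ C₂ * l ^ (-((n : ℝ) - 1) / 2) * (volume.real (Sq q) * volume.real (Sq q')) := by
      positivity
    by_cases hN : Near q q'
    · rw [if_pos hN, if_pos (near_symm hN)]
      have := pair_bound (μ := volume.restrict (Sq q)) (ν := volume.restrict (Sq q')) hh hb
      simp only [hA]
      linarith
    · rw [if_neg hN, if_neg (fun h => hN (near_symm h))]
      have := hfar l hl (Sq q) (Sq q') (hSqm q) (hSqm q') (hSqf q) (hSqf q') (by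
        rintro x ⟨_, hx⟩ y ⟨_, hy⟩
        rw [Set.mem_preimage, Set.mem_singleton_iff] at hx hy
        apply far_cell hl
        rw [hx, hy]
        exact hN) h hh hb
      linarith
  have hrow : ∀ q, ∑ q' ∈ I, (if Near q q' then A q / 2 else 0) ≤ 3 ^ n * (A q / 2) := by
    intro q
    rw [← Finset.sum_filter, Finset.sum_const, nsmul_eq_mul]
    have h1 : ((I.filter (fun q' => Near q q')).card : ℝ) ≤ 3 ^ n := by
      exact_mod_cast card_near q I
    have := hA0 q
    exact mul_le_mul_of_nonneg_right h1 (by linarith)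
  rw [hE]
  calc ∑ q ∈ I, ∑ q' ∈ I, (∫ w, kk (volume.restrict (Sq q)) h w *
        conj (kk (volume.restrict (Sq q')) h w) ∂(sg n)).re
      ≤ ∑ q ∈ I, ∑ q' ∈ I, (((if Near q q' then A q / 2 else 0) +
          (if Near q' q then A q' / 2 else 0)) +
        C₂ * l ^ (-((n : ℝ) - 1) / 2) * (volume.real (Sq q) * volume.real (Sq q'))) :=
        Finset.sum_le_sum fun q _ => Finset.sum_le_sum fun q' _ => hterm q q'
    _ = ∑ q ∈ I, ∑ q' ∈ I, (if Near q q' then A q / 2 else 0) +
        ∑ q ∈ I, ∑ q' ∈ I, (if Near q' q then A q' / 2 else 0) +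
        C₂ * l ^ (-((n : ℝ) - 1) / 2) * (volume.real S * volume.real S) := by
        simp only [Finset.sum_add_distrib]
        congr 1
        rw [hV, Finset.sum_mul_sum, Finset.mul_sum]
        apply Finset.sum_congr rfl
        intro q _
        rw [Finset.mul_sum]
    _ = 2 * ∑ q ∈ I, ∑ q' ∈ I, (if Near q q' then A q / 2 else 0) +
        C₂ * l ^ (-((n : ℝ) - 1) / 2) * (volume.real S * volume.real S) := by
        rw [Finset.sum_comm (f := fun q q' => (if Near q' q then A q' / 2 else 0))]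
        ring
    _ ≤ 2 * ∑ q ∈ I, 3 ^ n * (A q / 2) +
        C₂ * l ^ (-((n : ℝ) - 1) / 2) * (volume.real S * volume.real S) := by
        have := Finset.sum_le_sum (s := I) fun q _ => hrow q
        linarith
    _ = 3 ^ n * ∑ q ∈ I, A q +
        C₂ * l ^ (-((n : ℝ) - 1) / 2) * (volume.real S * volume.real S) := by
        rw [← Finset.mul_sum, ← Finset.sum_div]
        ring
    _ ≤ 3 ^ n * ∑ q ∈ I, C₁ * l * volume.real (Sq q) +
        C₂ * l ^ (-((n : ℝ) - 1) / 2) * (volume.real S * volume.real S) := by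
        have := Finset.sum_le_sum (s := I) fun q _ => hAle q
        have h3 : (0 : ℝ) < 3 ^ n := by positivity
        nlinarith
    _ = 3 ^ n * C₁ * (l * volume.real S) +
        C₂ * (l ^ (-((n : ℝ) - 1) / 2) * volume.real S ^ 2) := by
        rw [← Finset.mul_sum, ← hV]
        ring
    _ ≤ _ := by
        have p1 : 0 ≤ l * volume.real S := by positivity
        have p2 : 0 ≤ l ^ (-((n : ℝ) - 1) / 2) * volume.real S ^ 2 := by positivity
        have p3 : (0 : ℝ) < 3 ^ n := by positivity
        nlinarith [mul_nonneg (mul_nonneg p3.le hC₁.le) p2, mul_nonneg hC₂.le p1]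

/-- The final optimisation. -/
theorem optim {a C V H t : ℝ} (ha : 0 < a) (hC : 0 < C) (hV : 0 ≤ V) (hH : 0 ≤ H) (ht : 0 < t)
    (h : ∀ l : ℝ, 0 < l → (t * V) ^ 2 ≤ H * (C * (l * V + l ^ (-a) * V ^ 2))) :
    V ≤ (2 * C * (2 * C) ^ (1 / a)) * (H / t ^ 2) ^ (1 + 1 / a) := by
  rcases hV.eq_or_lt with hV0 | hV0
  · rw [← hV0]; positivity
  rcases hH.eq_or_lt with hH0 | hH0
  · have := h 1 one_pos
    rw [← hH0, zero_mul] at this
    have h2 : 0 < (t * V) ^ 2 := by positivity
    linarith
  set r : ℝ := 2 * C * (H / t ^ 2) with hr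
  have hr0 : 0 < r := by positivity
  set l : ℝ := r ^ (1 / a) with hl
  have hl0 : 0 < l := Real.rpow_pos_of_pos hr0 _
  have hla : l ^ (-a) = r⁻¹ := by
    rw [hl, ← Real.rpow_mul hr0.le]
    have : 1 / a * -a = -1 := by field_simp
    rw [this, Real.rpow_neg_one]
  have h1 := h l hl0
  rw [hla] at h1
  have h2 : H * (C * (l * V + r⁻¹ * V ^ 2)) = H * C * l * V + (t * V) ^ 2 / 2 := by
    rw [hr]
    field_simp
  rw [h2] at h1
  have h3 : t ^ 2 * V ≤ 2 * H * C * l := by
    have h4 : (t ^ 2 * V) * V ≤ (2 * H * C * l) * V := by nlinarith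
    exact le_of_mul_le_mul_right h4 hV0
  have h5 : V ≤ 2 * C * (H / t ^ 2) * l := by
    have : 2 * C * (H / t ^ 2) * l = (2 * H * C * l) / t ^ 2 := by field_simp
    rw [this, le_div_iff₀ (by positivity)]
    linarith
  refine h5.trans (le_of_eq ?_)
  rw [hl, hr, Real.mul_rpow (by positivity) (by positivity),
    Real.rpow_add (by positivity : (0 : ℝ) < H / t ^ 2), Real.rpow_one]
  ring

end Weak

open Weak in
theorem weak (n : ℕ) (hn : 2 ≤ n) : ∃ C : ℝ, 0 < C ∧ ∀ g : E n → ℂ, Measurable g →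
    (∃ M : ℝ, ∀ x, ‖g x‖ ≤ M) → ∀ t : ℝ, 0 < t → ∀ S : Set (E n), MeasurableSet S →
    Bornology.IsBounded S → (∀ x ∈ S, t ≤ ‖T g x‖) →
    volume.real S ≤ C * ((∫ w, ‖g w‖ ^ 2 ∂(sg n)) / t ^ 2) ^ (((n : ℝ) + 1) / ((n : ℝ) - 1)) := by
  obtain ⟨C, hC, hE⟩ := energy_bound n hn
  have hsg := sg_finite n
  have hn' : (2 : ℝ) ≤ n := by exact_mod_cast hn
  set a : ℝ := ((n : ℝ) - 1) / 2 with ha
  have ha0 : 0 < a := by rw [ha]; linarith
  refine ⟨2 * C * (2 * C) ^ (1 / a), by positivity, ?_⟩
  rintro g hg ⟨M, hM⟩ t ht S hS hSb hSt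
  have hexp : ((n : ℝ) + 1) / ((n : ℝ) - 1) = 1 + 1 / a := by
    have : (n : ℝ) - 1 ≠ 0 := by linarith
    rw [ha]
    field_simp
    ring
  rw [hexp]
  apply optim ha0 hC measureReal_nonneg (integral_nonneg fun w => by positivity) ht
  intro l hl
  -- the test function
  have hTm : Measurable (T g) := by
    have h1 : StronglyMeasurable fun p : E n × E n => ee p.1 p.2 * g p.2 := by
      apply Measurable.stronglyMeasurable
      exact (meas_ee' measurable_fst measurable_snd).mul (hg.comp measurable_snd)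
    have h2 : StronglyMeasurable fun x => ∫ w, ee x w * g w ∂(sg n) := h1.integral_prod_right'
    have h3 : T g = fun x => ∫ w, ee x w * g w ∂(sg n) := funext fun x => T_eq g x
    rw [h3]
    exact h2.measurable
  have hTb : ∀ x, ‖T g x‖ ≤ M * (sg n).real univ := by
    intro x
    rw [T_eq]
    apply norm_integral_le_of_norm_le_const
    refine Filter.Eventually.of_forall fun w => ?_
    rw [norm_mul, norm_ee, one_mul]
    exact hM w
  set h : E n → ℂ := fun x => conj (T g x) / (‖T g x‖ : ℂ) with hh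
  have hhm : Measurable h := by
    apply Measurable.div
    · exact Complex.continuous_conj.measurable.comp hTm
    · exact Complex.measurable_ofReal.comp hTm.norm
  have hhb : ∀ x, ‖h x‖ ≤ 1 := by
    intro x
    rw [hh]
    simp only [norm_div, RCLike.norm_conj, Complex.norm_real, norm_norm]
    exact div_self_le_one _
  have hhT : ∀ x, h x * T g x = (‖T g x‖ : ℂ) := by
    intro x
    rw [hh]
    simp only
    rw [div_mul_eq_mul_div, mul_comm (conj (T g x)), Complex.mul_conj']
    by_cases h0 : (‖T g x‖ : ℂ) = 0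
    · rw [h0]; simp
    · field_simp
  have hvS : volume S ≠ ⊤ := (hSb.measure_lt_top).ne
  have ifinS : IsFiniteMeasure (volume.restrict S) := ⟨by simpa using hvS.lt_top⟩
  have s1 : t * volume.real S ≤ ∫ x in S, ‖T g x‖ := by
    have h1 : ∫ _x in S, t ≤ ∫ x in S, ‖T g x‖ := by
      apply setIntegral_mono_on _ _ hS hSt
      · exact integrable_const _
      · exact integrable_bddR (C := M * (sg n).real univ) hTm.norm fun x => by
          rw [norm_norm]; exact hTb x
    rwa [setIntegral_const, smul_eq_mul, mul_comm] at h1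
  have s2 : ((∫ x in S, ‖T g x‖ : ℝ) : ℂ) = ∫ w, g w * kk (volume.restrict S) h w ∂(sg n) := by
    rw [← integral_complex_ofReal]
    have h1 : ∀ x, ((‖T g x‖ : ℝ) : ℂ) = ∫ w, h x * (ee x w * g w) ∂(sg n) := by
      intro x
      rw [integral_const_mul, ← T_eq, hhT]
    simp_rw [h1]
    rw [integral_integral_swap]
    · apply integral_congr_ae
      refine Filter.Eventually.of_forall fun w => ?_
      unfold kk
      simp only
      rw [← integral_const_mul]
      apply integral_congr_ae
      refine Filter.Eventually.of_forall fun x => ?_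
      simp only
      ring
    · refine integrable_bdd (C := M) ?_ ?_
      · simp only [Function.uncurry_def]
        exact (hhm.comp measurable_fst).mul ((meas_ee' measurable_fst measurable_snd).mul
          (hg.comp measurable_snd))
      · rintro ⟨x, w⟩
        simp only [Function.uncurry_apply_pair]
        rw [norm_mul, norm_mul, norm_ee, one_mul]
        calc ‖h x‖ * ‖g w‖ ≤ 1 * M :=
              mul_le_mul (hhb x) (hM w) (norm_nonneg _) zero_le_one
          _ = M := one_mul _
  have s3 : ∫ x in S, ‖T g x‖ ≤ ∫ w, ‖g w‖ * ‖kk (volume.restrict S) h w‖ ∂(sg n) := by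
    have h1 : ‖((∫ x in S, ‖T g x‖ : ℝ) : ℂ)‖ = ∫ x in S, ‖T g x‖ := by
      rw [Complex.norm_real, Real.norm_eq_abs, abs_of_nonneg]
      exact integral_nonneg fun x => norm_nonneg _
    rw [← h1, s2]
    refine (norm_integral_le_integral_norm _).trans (le_of_eq ?_)
    simp_rw [norm_mul]
  have s4 : (t * volume.real S) ^ 2 ≤ (∫ w, ‖g w‖ * ‖kk (volume.restrict S) h w‖ ∂(sg n)) ^ 2 :=
    pow_le_pow_left₀ (by positivity) (s1.trans s3) 2
  have s5 := cs (μ := sg n) (a := fun w => ‖g w‖) (b := fun w => ‖kk (volume.restrict S) h w‖)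
    hg.norm (meas_kk hhm).norm (A := M) (B := volume.real S)
    (fun x => by rw [norm_norm]; exact hM x)
    (fun w => by
      rw [norm_norm]
      have := norm_kk_le (μ := volume.restrict S) hhb w
      simpa using this)
  refine (s4.trans s5).trans ?_
  have s6 := hE l hl S hS hSb h hhm hhb
  have e1 : -((n : ℝ) - 1) / 2 = -a := by rw [ha]; ring
  rw [e1] at s6
  exact mul_le_mul_of_nonneg_left s6 (integral_nonneg fun w => by positivity)

end Pool.Agent.H789R2.FR
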