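import Mathlib
import Pool.Agent.H97.L.S8.H789R2.FR.Smooth
import Pool.Agent.H97.L.S8.H789R2.FR.Lp
import Pool.Agent.H97.L.S8.H789R2.FR.Rem
set_option autoImplicit false

/-! Assembly: extension of bounded `H^s` densities is in `L^p`. -/

namespace Pool.Agent.H789R2.FR

open MeasureTheory Measure Set Metric Complex Filter Topology
open scoped ENNReal Pointwise RealInnerProductSpace

section basics
variable {n : ℕ}

lemma kern_cont (x : E n) :
    Continuous (fun w : E n => Complex.exp (-((⟪x, w⟫ : ℝ) : ℂ) * I)) := by fun_prop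

lemma kern_norm (x w : E n) : ‖Complex.exp (-((⟪x, w⟫ : ℝ) : ℂ) * I)‖ = 1 := by
  have : -((⟪x, w⟫ : ℝ) : ℂ) * I = ((-⟪x, w⟫ : ℝ) : ℂ) * I := by push_cast; ring
  rw [this, Complex.norm_exp_ofReal_mul_I]

lemma T_integrable {g : E n → ℂ} (hg : Measurable g) {M : ℝ} (hM : ∀ x, ‖g x‖ ≤ M) (x : E n) :
    Integrable (fun w => Complex.exp (-((⟪x, w⟫ : ℝ) : ℂ) * I) * g w) (sg n) := by
  haveI := sg_finite n
  refine Integrable.of_bound ((kern_cont x).measurable.mul hg).aestronglyMeasurable M ?_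
  filter_upwards with w
  rw [norm_mul, kern_norm, one_mul]
  exact hM w

lemma T_bound {g : E n → ℂ} {M : ℝ} (hM : ∀ x, ‖g x‖ ≤ M) (x : E n) :
    ‖T g x‖ ≤ M * (sg n).real univ := by
  haveI := sg_finite n
  refine norm_integral_le_of_norm_le_const ?_
  filter_upwards with w
  rw [norm_mul, kern_norm, one_mul]
  exact hM w

lemma T_add {g h : E n → ℂ} (hg : Measurable g) (hh : Measurable h) {M M' : ℝ}
    (hM : ∀ x, ‖g x‖ ≤ M) (hM' : ∀ x, ‖h x‖ ≤ M') (x : E n) :
    T g x = T h x + T (fun y => g y - h y) x := by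
  have h1 := T_integrable hh hM' x
  have h2 : Integrable (fun w => Complex.exp (-((⟪x, w⟫ : ℝ) : ℂ) * I) * (g w - h w)) (sg n) := by
    have := (T_integrable hg hM x).sub h1
    refine this.congr ?_
    filter_upwards with w
    simp only [Pi.sub_apply]
    ring
  rw [T, T, T, ← integral_add h1 h2]
  congr 1
  ext w
  ring

lemma T_meas {g : E n → ℂ} (hg : Measurable g) : Measurable (T g) := by
  haveI := sg_finite n
  have : StronglyMeasurable (fun z : E n × E n =>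
      Complex.exp (-((⟪z.1, z.2⟫ : ℝ) : ℂ) * I) * g z.2) := by
    apply Measurable.stronglyMeasurable
    have h1 : Continuous (fun z : E n × E n => Complex.exp (-((⟪z.1, z.2⟫ : ℝ) : ℂ) * I)) := by
      fun_prop
    exact h1.measurable.mul (hg.comp measurable_snd)
  exact (this.integral_prod_right' (ν := sg n)).measurable

lemma w_cont (R : ℝ) (y : E n) :
    Continuous (fun w : E n => Real.exp (-(R / 2) * ‖y - w‖ ^ 2)) := by fun_prop

lemma w_le (R : ℝ) (hR : 0 ≤ R) (y w : E n) : Real.exp (-(R / 2) * ‖y - w‖ ^ 2) ≤ 1 := by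
  apply Real.exp_le_one_iff.mpr
  have := mul_nonneg (div_nonneg hR (by norm_num : (0:ℝ) ≤ 2)) (sq_nonneg ‖y - w‖)
  linarith

lemma w_integrable (R : ℝ) (hR : 0 ≤ R) (y : E n) :
    Integrable (fun w => Real.exp (-(R / 2) * ‖y - w‖ ^ 2)) (sg n) := by
  haveI := sg_finite n
  refine Integrable.of_bound (w_cont R y).aestronglyMeasurable 1 ?_
  filter_upwards with w
  rw [Real.norm_eq_abs, Real.abs_exp]
  exact w_le R hR y w

lemma D_meas (R : ℝ) : Measurable (D R : E n → ℝ) := by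
  haveI := sg_finite n
  have : StronglyMeasurable (fun z : E n × E n => Real.exp (-(R / 2) * ‖z.1 - z.2‖ ^ 2)) := by
    apply Measurable.stronglyMeasurable
    have h1 : Continuous (fun z : E n × E n => Real.exp (-(R / 2) * ‖z.1 - z.2‖ ^ 2)) := by
      fun_prop
    exact h1.measurable
  exact (this.integral_prod_right' (ν := sg n)).measurable

lemma A_meas (R : ℝ) {g : E n → ℂ} (hg : Measurable g) : Measurable (A R g) := by
  haveI := sg_finite n
  have : StronglyMeasurable (fun z : E n × E n =>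
      ((Real.exp (-(R / 2) * ‖z.1 - z.2‖ ^ 2) : ℝ) : ℂ) * g z.2) := by
    apply Measurable.stronglyMeasurable
    have h1 : Continuous (fun z : E n × E n =>
        ((Real.exp (-(R / 2) * ‖z.1 - z.2‖ ^ 2) : ℝ) : ℂ)) := by fun_prop
    exact h1.measurable.mul (hg.comp measurable_snd)
  have h2 := (this.integral_prod_right' (ν := sg n)).measurable
  exact h2.div (Complex.measurable_ofReal.comp (D_meas R))

lemma A_bound (R : ℝ) (hR : 0 ≤ R) {g : E n → ℂ} {M : ℝ} (hM : ∀ x, ‖g x‖ ≤ M) (y : E n) :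
    ‖A R g y‖ ≤ M := by
  haveI := sg_finite n
  have hM0 : 0 ≤ M := (norm_nonneg _).trans (hM y)
  have hD0 : 0 ≤ D R y := integral_nonneg fun w => (Real.exp_pos _).le
  rcases hD0.eq_or_lt with h | h
  · rw [A, ← h]
    simpa using hM0
  rw [A, norm_div, Complex.norm_real, Real.norm_eq_abs, abs_of_pos h, div_le_iff₀ h]
  have h1 : ‖∫ w, ((Real.exp (-(R / 2) * ‖y - w‖ ^ 2) : ℝ) : ℂ) * g w ∂(sg n)‖ ≤
      ∫ w, M * Real.exp (-(R / 2) * ‖y - w‖ ^ 2) ∂(sg n) := by
    refine norm_integral_le_of_norm_le ((w_integrable R hR y).const_mul M) ?_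
    filter_upwards with w
    rw [norm_mul, Complex.norm_real, Real.norm_eq_abs, Real.abs_exp, mul_comm M]
    exact mul_le_mul_of_nonneg_left (hM w) (Real.exp_pos _).le
  rw [integral_const_mul] at h1
  exact h1

end basics

lemma add_rpow_le (a b p : ℝ) (ha : 0 ≤ a) (hb : 0 ≤ b) (hp : 0 ≤ p) :
    (a + b) ^ p ≤ 2 ^ p * (a ^ p + b ^ p) := by
  have h1 : a + b ≤ 2 * max a b := by
    have := le_max_left a b
    have := le_max_right a b
    linarith
  have hm : 0 ≤ max a b := ha.trans (le_max_left _ _)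
  calc (a + b) ^ p ≤ (2 * max a b) ^ p := Real.rpow_le_rpow (by positivity) h1 hp
    _ = 2 ^ p * (max a b) ^ p := Real.mul_rpow (by norm_num) hm
    _ ≤ 2 ^ p * (a ^ p + b ^ p) := by
        apply mul_le_mul_of_nonneg_left _ (by positivity)
        rcases max_cases a b with ⟨h, _⟩ | ⟨h, _⟩
        · rw [h]
          have := Real.rpow_nonneg hb p
          linarith
        · rw [h]
          have := Real.rpow_nonneg ha p
          linarith

/-- the dyadic shells -/
def shell (n : ℕ) (j : ℕ) : Set (E n) := {x | 2 * (2 : ℝ) ^ j ≤ ‖x‖ ∧ ‖x‖ < 4 * (2 : ℝ) ^ j}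

lemma shell_meas (n j : ℕ) : MeasurableSet (shell n j) :=
  (measurableSet_le measurable_const measurable_norm).inter
    (measurableSet_lt measurable_norm measurable_const)

lemma cover (n : ℕ) (x : E n) : x ∈ closedBall (0 : E n) 2 ∪ ⋃ j, shell n j := by
  by_cases h : ‖x‖ ≤ 2
  · left
    simpa using h
  · right
    push Not at h
    have h1 : 1 ≤ ‖x‖ / 2 := by linarith
    obtain ⟨j, hj1, hj2⟩ := exists_nat_pow_near h1 (by norm_num : (1 : ℝ) < 2)
    refine mem_iUnion.mpr ⟨j, ?_, ?_⟩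
    · linarith
    · rw [pow_succ] at hj2
      linarith

/-- the estimate on one shell -/
lemma shell_est (n : ℕ) (hn : 2 ≤ n) (s : ℝ) (hs : ((n : ℝ) - 1) / (2 * n) < s)
    (g : E n → ℂ) (hg : Measurable g) (M : ℝ) (hM : ∀ x, ‖g x‖ ≤ M) (K : ℝ) (hK0 : 0 ≤ K)
    (hK : (∫⁻ x, ∫⁻ y, ENNReal.ofReal (‖g x - g y‖ ^ 2 / ‖x - y‖ ^ ((n : ℝ) - 1 + 2 * s))
      ∂(sg n) ∂(sg n)) ≤ ENNReal.ofReal K) (p : ℝ) (hp : 2 * (n : ℝ) / ((n : ℝ) - 1) < p)
    (hp' : p < 2 * ((n : ℝ) + 1) / ((n : ℝ) - 1)) :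
    ∃ C ε : ℝ, 0 ≤ C ∧ 0 < ε ∧ ∀ j : ℕ, ∫⁻ x in shell n j, ENNReal.ofReal (‖T g x‖ ^ p) ≤
      ENNReal.ofReal (C * ((2 : ℝ) ^ (-ε)) ^ j) := by
  have hn2 : (2 : ℝ) ≤ n := by exact_mod_cast hn
  have hn1 : (0 : ℝ) < (n : ℝ) - 1 := by linarith
  have hM0 : 0 ≤ M := (norm_nonneg _).trans (hM 0)
  have hp2 : 2 < p := by
    refine lt_of_lt_of_le ?_ hp.le
    rw [lt_div_iff₀ hn1]
    linarith
  have hs0 : 0 < s := lt_of_le_of_lt (by positivity) hs
  obtain ⟨C1, hC1, H1⟩ := smooth_bound n hn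
  obtain ⟨C2, hC2, H2⟩ := Lp_bound n hn p hp2 hp'
  obtain ⟨C3, hC3, H3⟩ := rem_bound n hn s hs0
  -- exponents
  set e1 : ℝ := (n : ℝ) - ((n : ℝ) - 1) / 2 * p with he1
  set e2 : ℝ := -s * (p / 2) + (1 - ((n : ℝ) - 1) * (p - 2) / 4) with he2
  have he1n : e1 < 0 := by
    rw [div_lt_iff₀ hn1] at hp
    rw [he1]
    nlinarith
  have he2n : e2 < 0 := by
    rw [div_lt_iff₀ hn1] at hp
    rw [div_lt_iff₀ (by linarith)] at hs
    rw [he2]
    -- 2n < p (n-1), (n-1) < s * 2n ; want 1 - (n-1)(p-2)/4 < s p/2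
    have h1 : ((n : ℝ) - 1) * (p - 2) > 2 := by nlinarith
    have h2 : s * p > 1 := by
      have h3 : ((n : ℝ) - 1) * (s * p) > ((n : ℝ) - 1) * 1 := by nlinarith
      exact lt_of_mul_lt_mul_left h3 hn1.le
    linarith
  set ε : ℝ := min (-e1) (-e2) with hε
  have hε0 : 0 < ε := lt_min (by linarith) (by linarith)
  set V : ℝ := volume.real (closedBall (0 : E n) 1) with hV
  set Ca : ℝ := 2 ^ p * (V * 4 ^ n * (C1 * M) ^ p) with hCa
  set Cb : ℝ := 2 ^ p * (C2 * (C3 * K) ^ (p / 2) * 4 ^ (1 - ((n : ℝ) - 1) * (p - 2) / 4)) with hCb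
  have hV0 : 0 ≤ V := measureReal_nonneg
  have hCa0 : 0 ≤ Ca := by positivity
  have hCb0 : 0 ≤ Cb := by positivity
  refine ⟨Ca + Cb, ε, by positivity, hε0, fun j => ?_⟩
  set R : ℝ := (2 : ℝ) ^ j with hR
  have hR1 : 1 ≤ R := one_le_pow₀ (by norm_num)
  have hR0 : 0 < R := by linarith
  have hAm := A_meas (n := n) R hg
  have hAb : ∀ y, ‖A R g y‖ ≤ M := A_bound R hR0.le hM
  set h : E n → ℂ := fun y => g y - A R g y with hh
  have hhm : Measurable h := hg.sub hAm
  have hhb : ∀ y, ‖h y‖ ≤ 2 * M := fun y => by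
    refine (norm_sub_le _ _).trans ?_
    linarith [hM y, hAb y]
  have hpt : ∀ x : E n, ENNReal.ofReal (‖T g x‖ ^ p) ≤ ENNReal.ofReal (2 ^ p) *
      (ENNReal.ofReal (‖T (A R g) x‖ ^ p) + ENNReal.ofReal (‖T h x‖ ^ p)) := by
    intro x
    rw [← ENNReal.ofReal_add (by positivity) (by positivity),
      ← ENNReal.ofReal_mul (by positivity)]
    apply ENNReal.ofReal_le_ofReal
    refine le_trans ?_ (add_rpow_le _ _ p (norm_nonneg _) (norm_nonneg _) (by linarith))
    apply Real.rpow_le_rpow (norm_nonneg _) _ (by linarith)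
    rw [T_add hg hAm hM hAb x]
    exact norm_add_le _ _
  have hmA : Measurable (fun x => ENNReal.ofReal (‖T (A R g) x‖ ^ p)) :=
    ((T_meas hAm).norm.pow_const p).ennreal_ofReal
  have hmh : Measurable (fun x => ENNReal.ofReal (‖T h x‖ ^ p)) :=
    ((T_meas hhm).norm.pow_const p).ennreal_ofReal
  have hsub : shell n j ⊆ closedBall (0 : E n) (4 * R) := by
    intro x hx
    simpa using hx.2.le
  have hI1 : ∫⁻ x in shell n j, ENNReal.ofReal (‖T (A R g) x‖ ^ p) ≤
      ENNReal.ofReal (V * 4 ^ n * (C1 * M) ^ p * R ^ e1) := by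
    calc ∫⁻ x in shell n j, ENNReal.ofReal (‖T (A R g) x‖ ^ p)
        ≤ ∫⁻ x in shell n j, ENNReal.ofReal ((C1 * M * R ^ (-((n : ℝ) - 1) / 2)) ^ p) := by
          apply setLIntegral_mono measurable_const
          intro x hx
          apply ENNReal.ofReal_le_ofReal
          apply Real.rpow_le_rpow (norm_nonneg _) _ (by linarith)
          exact H1 g hg M hM R hR1 x hx.1
      _ ≤ ENNReal.ofReal ((C1 * M * R ^ (-((n : ℝ) - 1) / 2)) ^ p) *
            volume (closedBall (0 : E n) (4 * R)) := by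
          rw [setLIntegral_const]
          gcongr
      _ = ENNReal.ofReal (V * 4 ^ n * (C1 * M) ^ p * R ^ e1) := by
          have hvol : volume (closedBall (0 : E n) (4 * R)) = ENNReal.ofReal (V * (4 * R) ^ n) := by
            haveI : Nonempty (Fin n) := ⟨⟨0, by omega⟩⟩
            haveI : Nontrivial (E n) := by infer_instance
            rw [Measure.addHaar_closedBall_center volume (0 : E n) (4 * R),
              Measure.addHaar_closedBall volume (0 : E n) (by positivity : (0:ℝ) ≤ 4 * R)]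
            rw [hV, Measure.real]
            have h1 : Module.finrank ℝ (E n) = n := by simp
            rw [h1, mul_comm, ENNReal.ofReal_mul ENNReal.toReal_nonneg, ENNReal.ofReal_toReal
              measure_closedBall_lt_top.ne, Measure.addHaar_closedBall_eq_addHaar_ball]
          rw [hvol, ← ENNReal.ofReal_mul (by positivity)]
          congr 1
          rw [Real.mul_rpow (by positivity) (by positivity), ← Real.rpow_mul hR0.le, he1,
            mul_pow, Real.rpow_sub hR0, Real.rpow_natCast]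
          have : R ^ (-((n : ℝ) - 1) / 2 * p) = (R ^ (((n : ℝ) - 1) / 2 * p))⁻¹ := by
            rw [← Real.rpow_neg hR0.le]
            congr 1
            ring
          rw [this]
          ring
  have hI2 : ∫⁻ x in shell n j, ENNReal.ofReal (‖T h x‖ ^ p) ≤
      ENNReal.ofReal (C2 * (C3 * K) ^ (p / 2) * 4 ^ (1 - ((n : ℝ) - 1) * (p - 2) / 4) *
        R ^ e2) := by
    calc ∫⁻ x in shell n j, ENNReal.ofReal (‖T h x‖ ^ p)
        ≤ ∫⁻ x in closedBall (0 : E n) (4 * R), ENNReal.ofReal (‖T h x‖ ^ p) :=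
          lintegral_mono_set hsub
      _ ≤ ENNReal.ofReal (C2 * (∫ w, ‖h w‖ ^ 2 ∂(sg n)) ^ (p / 2) *
            (4 * R) ^ (1 - ((n : ℝ) - 1) * (p - 2) / 4)) :=
          H2 h hhm ⟨2 * M, hhb⟩ (4 * R) (by linarith)
      _ ≤ ENNReal.ofReal (C2 * (C3 * K * R ^ (-s)) ^ (p / 2) *
            (4 * R) ^ (1 - ((n : ℝ) - 1) * (p - 2) / 4)) := by
          apply ENNReal.ofReal_le_ofReal
          have h3 := H3 g hg ⟨M, hM⟩ K hK0 hK R hR1
          have h0 : 0 ≤ ∫ w, ‖h w‖ ^ 2 ∂(sg n) := integral_nonneg fun w => by positivity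
          gcongr
      _ = ENNReal.ofReal (C2 * (C3 * K) ^ (p / 2) * 4 ^ (1 - ((n : ℝ) - 1) * (p - 2) / 4) *
            R ^ e2) := by
          congr 1
          rw [Real.mul_rpow (by positivity) (by positivity), ← Real.rpow_mul hR0.le,
            Real.mul_rpow (by norm_num) hR0.le, he2, Real.rpow_add hR0]
          ring
  have hRe : ∀ e : ℝ, e ≤ -ε → R ^ e ≤ ((2 : ℝ) ^ (-ε)) ^ j := by
    intro e he
    calc R ^ e ≤ R ^ (-ε) := Real.rpow_le_rpow_of_exponent_le hR1 he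
      _ = ((2 : ℝ) ^ (-ε)) ^ j := by
        rw [hR, ← Real.rpow_natCast, ← Real.rpow_natCast, ← Real.rpow_mul (by norm_num),
          ← Real.rpow_mul (by norm_num), mul_comm]
  calc ∫⁻ x in shell n j, ENNReal.ofReal (‖T g x‖ ^ p)
      ≤ ∫⁻ x in shell n j, ENNReal.ofReal (2 ^ p) *
          (ENNReal.ofReal (‖T (A R g) x‖ ^ p) + ENNReal.ofReal (‖T h x‖ ^ p)) :=
        lintegral_mono hpt
    _ = ENNReal.ofReal (2 ^ p) * ((∫⁻ x in shell n j, ENNReal.ofReal (‖T (A R g) x‖ ^ p)) +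
          (∫⁻ x in shell n j, ENNReal.ofReal (‖T h x‖ ^ p))) := by
        rw [lintegral_const_mul' _ _ ENNReal.ofReal_ne_top, lintegral_add_left hmA]
    _ ≤ ENNReal.ofReal (2 ^ p) * (ENNReal.ofReal (V * 4 ^ n * (C1 * M) ^ p * R ^ e1) +
          ENNReal.ofReal (C2 * (C3 * K) ^ (p / 2) *
            4 ^ (1 - ((n : ℝ) - 1) * (p - 2) / 4) * R ^ e2)) :=
        mul_le_mul_right (add_le_add hI1 hI2) _
    _ = ENNReal.ofReal (Ca * R ^ e1 + Cb * R ^ e2) := by
        rw [← ENNReal.ofReal_add (by positivity) (by positivity),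
          ← ENNReal.ofReal_mul (by positivity)]
        congr 1
        rw [hCa, hCb]
        ring
    _ ≤ ENNReal.ofReal ((Ca + Cb) * ((2 : ℝ) ^ (-ε)) ^ j) := by
        apply ENNReal.ofReal_le_ofReal
        have h1 := hRe e1 (by have := min_le_left (-e1) (-e2); linarith)
        have h2 := hRe e2 (by have := min_le_right (-e1) (-e2); linarith)
        have h3 := mul_le_mul_of_nonneg_left h1 hCa0
        have h4 := mul_le_mul_of_nonneg_left h2 hCb0
        linarith

/-- main estimate for `p` below the Stein-Tomas exponent -/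
lemma core_small (n : ℕ) (hn : 2 ≤ n) (s : ℝ) (hs : ((n : ℝ) - 1) / (2 * n) < s)
    (g : E n → ℂ) (hg : Measurable g) (M : ℝ) (hM : ∀ x, ‖g x‖ ≤ M) (K : ℝ) (hK0 : 0 ≤ K)
    (hK : (∫⁻ x, ∫⁻ y, ENNReal.ofReal (‖g x - g y‖ ^ 2 / ‖x - y‖ ^ ((n : ℝ) - 1 + 2 * s))
      ∂(sg n) ∂(sg n)) ≤ ENNReal.ofReal K) (p : ℝ) (hp : 2 * (n : ℝ) / ((n : ℝ) - 1) < p)
    (hp' : p < 2 * ((n : ℝ) + 1) / ((n : ℝ) - 1)) :
    ∫⁻ x, ENNReal.ofReal (‖T g x‖ ^ p) < ∞ := by
  have hn2 : (2 : ℝ) ≤ n := by exact_mod_cast hn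
  have hn1 : (0 : ℝ) < (n : ℝ) - 1 := by linarith
  have hp2 : 2 < p := by
    refine lt_of_lt_of_le ?_ hp.le
    rw [lt_div_iff₀ hn1]
    linarith
  obtain ⟨C, ε, hC, hε, H⟩ := shell_est n hn s hs g hg M hM K hK0 hK p hp hp'
  have h1 : ∫⁻ x, ENNReal.ofReal (‖T g x‖ ^ p) ≤
      (∫⁻ x in closedBall (0 : E n) 2, ENNReal.ofReal (‖T g x‖ ^ p)) +
      ∑' j, (∫⁻ x in shell n j, ENNReal.ofReal (‖T g x‖ ^ p)) := by
    rw [← setLIntegral_univ]
    have : (univ : Set (E n)) = closedBall (0 : E n) 2 ∪ ⋃ j, shell n j := by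
      ext x
      simpa using cover n x
    rw [this]
    refine (lintegral_union_le _ _ _).trans ?_
    gcongr
    exact lintegral_iUnion_le _ _
  refine h1.trans_lt (ENNReal.add_lt_top.mpr ⟨?_, ?_⟩)
  · refine lt_of_le_of_lt (setLIntegral_mono (g := fun _ =>
      ENNReal.ofReal ((M * (sg n).real univ) ^ p)) measurable_const ?_) ?_
    · intro x _
      apply ENNReal.ofReal_le_ofReal
      exact Real.rpow_le_rpow (norm_nonneg _) (T_bound hM x) (by linarith)
    · rw [setLIntegral_const]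
      exact ENNReal.mul_lt_top ENNReal.ofReal_lt_top measure_closedBall_lt_top
  · refine lt_of_le_of_lt (ENNReal.tsum_le_tsum H) ?_
    have hq0 : 0 ≤ (2 : ℝ) ^ (-ε) := by positivity
    have hq1 : (2 : ℝ) ^ (-ε) < 1 := by
      apply Real.rpow_lt_one_of_one_lt_of_neg (by norm_num) (by linarith)
    have hsum : Summable (fun j : ℕ => C * ((2 : ℝ) ^ (-ε)) ^ j) :=
      (summable_geometric_of_lt_one hq0 hq1).mul_left C
    rw [← ENNReal.ofReal_tsum_of_nonneg (fun j => by positivity) hsum]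
    exact ENNReal.ofReal_lt_top

theorem core (n : ℕ) (hn : 2 ≤ n) (s : ℝ) (hs : ((n : ℝ) - 1) / (2 * n) < s)
    (g : E n → ℂ) (hg : Measurable g) (M : ℝ) (hM : ∀ x, ‖g x‖ ≤ M) (K : ℝ) (hK0 : 0 ≤ K)
    (hK : (∫⁻ x, ∫⁻ y, ENNReal.ofReal (‖g x - g y‖ ^ 2 / ‖x - y‖ ^ ((n : ℝ) - 1 + 2 * s))
      ∂(sg n) ∂(sg n)) ≤ ENNReal.ofReal K) (p : ℝ) (hp : 2 * (n : ℝ) / ((n : ℝ) - 1) < p) :
    ∫⁻ x, ENNReal.ofReal (‖T g x‖ ^ p) < ∞ := by
  have hn2 : (2 : ℝ) ≤ n := by exact_mod_cast hn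
  have hn1 : (0 : ℝ) < (n : ℝ) - 1 := by linarith
  rcases lt_or_ge p (2 * ((n : ℝ) + 1) / ((n : ℝ) - 1)) with h | h
  · exact core_small n hn s hs g hg M hM K hK0 hK p hp h
  · -- reduce to a smaller exponent
    set p1 : ℝ := (2 * (n : ℝ) + 1) / ((n : ℝ) - 1) with hp1
    have h1 : 2 * (n : ℝ) / ((n : ℝ) - 1) < p1 := by
      rw [hp1]
      exact div_lt_div_of_pos_right (by linarith) hn1
    have h2 : p1 < 2 * ((n : ℝ) + 1) / ((n : ℝ) - 1) := by
      rw [hp1]
      exact div_lt_div_of_pos_right (by linarith) hn1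
    have hp10 : 0 < p1 := by positivity
    have hsm := core_small n hn s hs g hg M hM K hK0 hK p1 h1 h2
    have hM0 : 0 ≤ M := (norm_nonneg _).trans (hM 0)
    set B : ℝ := M * (sg n).real univ with hB
    have hB0 : 0 ≤ B := mul_nonneg hM0 measureReal_nonneg
    refine lt_of_le_of_lt (lintegral_mono (g := fun x =>
      ENNReal.ofReal (B ^ (p - p1)) * ENNReal.ofReal (‖T g x‖ ^ p1)) ?_) ?_
    · intro x
      simp only
      rw [← ENNReal.ofReal_mul (by positivity)]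
      apply ENNReal.ofReal_le_ofReal
      rcases (norm_nonneg (T g x)).eq_or_lt with h0 | h0
      · rw [← h0, Real.zero_rpow (by linarith), Real.zero_rpow hp10.ne']
        simp
      · have : p = (p - p1) + p1 := by ring
        conv_lhs => rw [this, Real.rpow_add h0]
        gcongr
        · linarith
        · exact T_bound hM x
    · rw [lintegral_const_mul' _ _ ENNReal.ofReal_ne_top]
      exact ENNReal.mul_lt_top ENNReal.ofReal_lt_top hsm

end Pool.Agent.H789R2.FR
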