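import Mathlib
import Pool.Agent.H97.L.S8.H789R2.FR.Core
set_option autoImplicit false

/-! Task U3: `L²` contractivity, linearity and commutation of the averaging operators `A R`. -/

namespace Pool.Agent.H789R2.FR

open MeasureTheory Measure Set Metric Complex
open scoped ENNReal Pointwise RealInnerProductSpace

namespace AOp

variable {n : ℕ}

lemma kk_bound (R : ℝ) (hR : 0 ≤ R) {g : E n → ℂ} {M : ℝ} (hM : ∀ x, ‖g x‖ ≤ M) (y w : E n) :
    ‖((Real.exp (-(R / 2) * ‖y - w‖ ^ 2) : ℝ) : ℂ) * g w‖ ≤ M := by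
  rw [norm_mul, Complex.norm_real, Real.norm_eq_abs, Real.abs_exp]
  calc Real.exp (-(R / 2) * ‖y - w‖ ^ 2) * ‖g w‖ ≤ 1 * ‖g w‖ :=
        mul_le_mul_of_nonneg_right (w_le R hR y w) (norm_nonneg _)
    _ ≤ M := by rw [one_mul]; exact hM w

lemma kg_integrable (R : ℝ) (hR : 0 ≤ R) {g : E n → ℂ} (hg : Measurable g) {M : ℝ}
    (hM : ∀ x, ‖g x‖ ≤ M) (y : E n) :
    Integrable (fun w => ((Real.exp (-(R / 2) * ‖y - w‖ ^ 2) : ℝ) : ℂ) * g w) (sg n) := by
  haveI := sg_finite n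
  refine Integrable.of_bound
    ((Complex.measurable_ofReal.comp (w_cont R y).measurable).mul hg).aestronglyMeasurable M ?_
  filter_upwards with w
  exact kk_bound R hR hM y w

lemma AD_pos (hn : 2 ≤ n) (R : ℝ) (hR : 0 < R) (y : E n) (hy : ‖y‖ = 1) : 0 < D R y := by
  obtain ⟨c, hc, h⟩ := D_lower n hn
  have h1 : 0 < D (max R 1) y :=
    lt_of_lt_of_le (by positivity) (h (max R 1) (le_max_right _ _) y hy)
  refine h1.trans_le ?_
  unfold D
  refine integral_mono (w_integrable _ (by positivity) y) (w_integrable _ hR.le y) ?_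
  intro w
  apply Real.exp_le_exp.2
  have : R ≤ max R 1 := le_max_left _ _
  have h2 : 0 ≤ ‖y - w‖ ^ 2 := by positivity
  nlinarith

/-- Cauchy-Schwarz. -/
lemma cs (R : ℝ) (hR : 0 ≤ R) {g : E n → ℂ} (hg : Measurable g) {M : ℝ}
    (hM : ∀ x, ‖g x‖ ≤ M) (y : E n) (hD : 0 < D R y) :
    ‖A R g y‖ ^ 2 ≤ (∫ w, Real.exp (-(R / 2) * ‖y - w‖ ^ 2) * ‖g w‖ ^ 2 ∂(sg n)) / D R y := by
  haveI := sg_finite n
  have hM0 : 0 ≤ M := (norm_nonneg _).trans (hM y)
  set k : E n → ℝ := fun w => Real.exp (-(R / 2) * ‖y - w‖ ^ 2) with hk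
  have hk0 : ∀ w, 0 ≤ k w := fun w => (Real.exp_pos _).le
  have hk1 : ∀ w, k w ≤ 1 := fun w => w_le R hR y w
  have i0 : Integrable k (sg n) := w_integrable R hR y
  have i1 : Integrable (fun w => k w * ‖g w‖) (sg n) := by
    refine Integrable.of_bound ((w_cont R y).measurable.mul hg.norm).aestronglyMeasurable M ?_
    filter_upwards with w
    rw [Real.norm_eq_abs, abs_of_nonneg (mul_nonneg (hk0 w) (norm_nonneg _))]
    calc k w * ‖g w‖ ≤ 1 * M := mul_le_mul (hk1 w) (hM w) (norm_nonneg _) zero_le_one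
      _ = M := one_mul M
  have i2 : Integrable (fun w => k w * ‖g w‖ ^ 2) (sg n) := by
    refine Integrable.of_bound ((w_cont R y).measurable.mul (hg.norm.pow_const 2)).aestronglyMeasurable
      (M ^ 2) ?_
    filter_upwards with w
    rw [Real.norm_eq_abs, abs_of_nonneg (mul_nonneg (hk0 w) (by positivity))]
    calc k w * ‖g w‖ ^ 2 ≤ 1 * M ^ 2 :=
          mul_le_mul (hk1 w) (pow_le_pow_left₀ (norm_nonneg _) (hM w) 2) (by positivity) zero_le_one
      _ = M ^ 2 := one_mul _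
  set a : ℝ := ∫ w, k w * ‖g w‖ ∂(sg n) with ha
  set b : ℝ := ∫ w, k w * ‖g w‖ ^ 2 ∂(sg n) with hb
  have hDk : D R y = ∫ w, k w ∂(sg n) := rfl
  set d : ℝ := D R y with hd
  have ha0 : 0 ≤ a := integral_nonneg fun w => mul_nonneg (hk0 w) (norm_nonneg _)
  have hquad : ∀ t : ℝ, 0 ≤ b - 2 * t * a + t ^ 2 * d := by
    intro t
    have h1 : ∫ w, k w * (‖g w‖ - t) ^ 2 ∂(sg n) = b - 2 * t * a + t ^ 2 * d := by
      have h2 : (fun w => k w * (‖g w‖ - t) ^ 2) =
          fun w => (k w * ‖g w‖ ^ 2 - (2 * t) * (k w * ‖g w‖)) + t ^ 2 * k w := by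
        funext w
        ring
      have i3 : Integrable (fun w => k w * ‖g w‖ ^ 2 - (2 * t) * (k w * ‖g w‖)) (sg n) :=
        i2.sub (i1.const_mul _)
      rw [h2, integral_add i3 (i0.const_mul _),
        integral_sub i2 (i1.const_mul _), integral_const_mul, integral_const_mul, ← hDk]
    rw [← h1]
    exact integral_nonneg fun w => mul_nonneg (hk0 w) (sq_nonneg _)
  have hcs : a ^ 2 ≤ b * d := by
    have h := hquad (a / d)
    have h2 : b - 2 * (a / d) * a + (a / d) ^ 2 * d = b - a ^ 2 / d := by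
      field_simp
      ring
    rw [h2] at h
    have h3 : a ^ 2 / d ≤ b := by linarith
    rwa [div_le_iff₀ hD] at h3
  have hn : ‖∫ w, ((Real.exp (-(R / 2) * ‖y - w‖ ^ 2) : ℝ) : ℂ) * g w ∂(sg n)‖ ≤ a := by
    refine (norm_integral_le_integral_norm _).trans (le_of_eq ?_)
    refine integral_congr_ae ?_
    filter_upwards with w
    rw [norm_mul, Complex.norm_real, Real.norm_eq_abs, Real.abs_exp]
  unfold A
  rw [norm_div, Complex.norm_real, Real.norm_eq_abs, abs_of_pos hD, div_pow, div_le_div_iff₀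
    (by positivity) hD]
  have h5 := pow_le_pow_left₀ (norm_nonneg _) hn 2
  calc ‖∫ w, ((Real.exp (-(R / 2) * ‖y - w‖ ^ 2) : ℝ) : ℂ) * g w ∂(sg n)‖ ^ 2 * d
      ≤ a ^ 2 * d := mul_le_mul_of_nonneg_right h5 hD.le
    _ ≤ (b * d) * d := mul_le_mul_of_nonneg_right hcs hD.le
    _ = b * d ^ 2 := by ring

lemma AA (R R' : ℝ) (hR : 0 < R) (hR' : 0 < R') {g : E n → ℂ}
    (hg : Measurable g) {M : ℝ} (hM : ∀ x, ‖g x‖ ≤ M) (y : E n) (hy : ‖y‖ = 1) :
    A R (A R' g) y = (∫ z, ((∫ w, Real.exp (-(R / 2) * ‖y - w‖ ^ 2) *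
      Real.exp (-(R' / 2) * ‖w - z‖ ^ 2) ∂(sg n) : ℝ) : ℂ) * g z ∂(sg n)) /
        ((D R y : ℂ) * (D R' y : ℂ)) := by
  haveI := sg_finite n
  have h1 : A R (A R' g) y = (∫ w, (∫ z, ((Real.exp (-(R / 2) * ‖y - w‖ ^ 2) : ℝ) : ℂ) *
      ((Real.exp (-(R' / 2) * ‖w - z‖ ^ 2) : ℝ) : ℂ) * g z ∂(sg n)) / (D R' y : ℂ) ∂(sg n)) /
      (D R y : ℂ) := by
    conv_lhs => unfold A
    congr 1
    refine integral_congr_ae ?_
    filter_upwards [sg_ae n] with w hw
    rw [D_const R' w y hw hy, ← mul_div_assoc, ← integral_const_mul]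
    simp only [mul_assoc]
  rw [h1, integral_div, div_div, mul_comm (D R' y : ℂ)]
  congr 1
  rw [integral_integral_swap]
  · refine integral_congr_ae ?_
    filter_upwards with z
    rw [integral_mul_const, ← integral_complex_ofReal]
    congr 1
    refine integral_congr_ae ?_
    filter_upwards with w
    push_cast
    rfl
  · have hm : Measurable (fun q : E n × E n => ((Real.exp (-(R / 2) * ‖y - q.1‖ ^ 2) : ℝ) : ℂ) *
        ((Real.exp (-(R' / 2) * ‖q.1 - q.2‖ ^ 2) : ℝ) : ℂ) * g q.2) := by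
      have c1 : Continuous (fun q : E n × E n => ((Real.exp (-(R / 2) * ‖y - q.1‖ ^ 2) : ℝ) : ℂ) *
        ((Real.exp (-(R' / 2) * ‖q.1 - q.2‖ ^ 2) : ℝ) : ℂ)) := by fun_prop
      exact c1.measurable.mul (hg.comp measurable_snd)
    refine Integrable.of_bound hm.aestronglyMeasurable M ?_
    filter_upwards with q
    simp only [Function.uncurry]
    rw [norm_mul, norm_mul, Complex.norm_real, Complex.norm_real, Real.norm_eq_abs,
      Real.norm_eq_abs, Real.abs_exp, Real.abs_exp]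
    have e1 := w_le R hR.le y q.1
    have e2 := w_le R' hR'.le q.1 q.2
    have hM0 : 0 ≤ M := (norm_nonneg _).trans (hM y)
    calc Real.exp (-(R / 2) * ‖y - q.1‖ ^ 2) * Real.exp (-(R' / 2) * ‖q.1 - q.2‖ ^ 2) * ‖g q.2‖
        ≤ (1 * 1) * M := by
          refine mul_le_mul (mul_le_mul e1 e2 (Real.exp_pos _).le zero_le_one) (hM _)
            (norm_nonneg _) (by norm_num)
      _ = M := by ring

lemma swapQ (R R' : ℝ) (y z : E n) (hy : ‖y‖ = 1) (hz : ‖z‖ = 1) :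
    ∫ w, Real.exp (-(R / 2) * ‖y - w‖ ^ 2) * Real.exp (-(R' / 2) * ‖w - z‖ ^ 2) ∂(sg n) =
    ∫ w, Real.exp (-(R' / 2) * ‖y - w‖ ^ 2) * Real.exp (-(R / 2) * ‖w - z‖ ^ 2) ∂(sg n) := by
  set L : E n ≃ₗᵢ[ℝ] E n := (ℝ ∙ (y - z))ᗮ.reflection with hL
  have hLy : L y = z := Submodule.reflection_sub (by rw [hy, hz])
  have hLz : L z = y := by
    rw [← hLy, hL]
    exact Submodule.reflection_reflection _ _
  have hmp := sg_inv L
  have hme : MeasurableEmbedding L := L.toHomeomorph.measurableEmbedding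
  rw [← hmp.integral_comp hme]
  refine integral_congr_ae ?_
  filter_upwards with w
  have h1 : ‖y - L w‖ = ‖z - w‖ := by
    rw [← hLz, ← map_sub, L.norm_map]
  have h2 : ‖L w - z‖ = ‖w - y‖ := by
    rw [← hLy, ← map_sub, L.norm_map]
  simp only [h1, h2]
  rw [norm_sub_rev z w, norm_sub_rev w y, mul_comm]

end AOp

open AOp

theorem A_L2 (n : ℕ) (hn : 2 ≤ n) (R : ℝ) (hR : 0 < R) (g : E n → ℂ) (hg : Measurable g)
    (hb : ∃ M : ℝ, ∀ x, ‖g x‖ ≤ M) :
    ∫ w, ‖A R g w‖ ^ 2 ∂(sg n) ≤ ∫ w, ‖g w‖ ^ 2 ∂(sg n) := by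
  haveI := sg_finite n
  obtain ⟨M, hM⟩ := hb
  have hM0 : 0 ≤ M := (norm_nonneg _).trans (hM 0)
  -- a unit vector
  obtain ⟨e, he⟩ : ∃ e : E n, ‖e‖ = 1 :=
    ⟨EuclideanSpace.single ⟨0, by omega⟩ 1, by simp⟩
  have hDe : 0 < D R e := AD_pos hn R hR e he
  have hI : ∀ y : E n, Integrable (fun w => Real.exp (-(R / 2) * ‖y - w‖ ^ 2) * ‖g w‖ ^ 2)
      (sg n) := by
    intro y
    refine Integrable.of_bound ((w_cont R y).measurable.mul
      (hg.norm.pow_const 2)).aestronglyMeasurable (M ^ 2) ?_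
    filter_upwards with w
    rw [Real.norm_eq_abs, abs_of_nonneg (mul_nonneg (Real.exp_pos _).le (by positivity))]
    calc Real.exp (-(R / 2) * ‖y - w‖ ^ 2) * ‖g w‖ ^ 2 ≤ 1 * M ^ 2 :=
          mul_le_mul (w_le R hR.le y w) (pow_le_pow_left₀ (norm_nonneg _) (hM w) 2)
            (by positivity) zero_le_one
      _ = M ^ 2 := one_mul _
  have hprod : Integrable (Function.uncurry fun y w : E n =>
      Real.exp (-(R / 2) * ‖y - w‖ ^ 2) * ‖g w‖ ^ 2) ((sg n).prod (sg n)) := by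
    have hm : Measurable (fun q : E n × E n => Real.exp (-(R / 2) * ‖q.1 - q.2‖ ^ 2) *
        ‖g q.2‖ ^ 2) := by
      have c1 : Continuous (fun q : E n × E n => Real.exp (-(R / 2) * ‖q.1 - q.2‖ ^ 2)) := by
        fun_prop
      exact c1.measurable.mul ((hg.comp measurable_snd).norm.pow_const 2)
    refine Integrable.of_bound hm.aestronglyMeasurable (M ^ 2) ?_
    filter_upwards with q
    simp only [Function.uncurry]
    rw [Real.norm_eq_abs, abs_of_nonneg (mul_nonneg (Real.exp_pos _).le (by positivity))]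
    calc Real.exp (-(R / 2) * ‖q.1 - q.2‖ ^ 2) * ‖g q.2‖ ^ 2 ≤ 1 * M ^ 2 :=
          mul_le_mul (w_le R hR.le _ _) (pow_le_pow_left₀ (norm_nonneg _) (hM _) 2)
            (by positivity) zero_le_one
      _ = M ^ 2 := one_mul _
  have hAi : Integrable (fun w => ‖A R g w‖ ^ 2) (sg n) := by
    refine Integrable.of_bound ((A_meas R hg).norm.pow_const 2).aestronglyMeasurable (M ^ 2) ?_
    filter_upwards with w
    rw [Real.norm_eq_abs, abs_of_nonneg (by positivity)]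
    exact pow_le_pow_left₀ (norm_nonneg _) (A_bound R hR.le hM w) 2
  calc ∫ y, ‖A R g y‖ ^ 2 ∂(sg n)
      ≤ ∫ y, (∫ w, Real.exp (-(R / 2) * ‖y - w‖ ^ 2) * ‖g w‖ ^ 2 ∂(sg n)) / D R e ∂(sg n) := by
        refine integral_mono_ae hAi (hprod.integral_prod_left.div_const _) ?_
        filter_upwards [sg_ae n] with y hy
        have := cs R hR.le hg hM y (AD_pos hn R hR y hy)
        rwa [D_const R y e hy he] at this
    _ = (∫ w, ∫ y, Real.exp (-(R / 2) * ‖y - w‖ ^ 2) * ‖g w‖ ^ 2 ∂(sg n) ∂(sg n)) / D R e := by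
        rw [integral_div, integral_integral_swap hprod]
    _ = (∫ w, D R e * ‖g w‖ ^ 2 ∂(sg n)) / D R e := by
        congr 1
        refine integral_congr_ae ?_
        filter_upwards [sg_ae n] with w hw
        rw [integral_mul_const, ← D_const R w e hw he]
        unfold D
        simp only [norm_sub_rev w]
    _ = ∫ w, ‖g w‖ ^ 2 ∂(sg n) := by
        rw [integral_const_mul]
        field_simp

theorem A_sub (n : ℕ) (R : ℝ) (hR : 0 < R) (g h : E n → ℂ) (hg : Measurable g)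
    (hh : Measurable h) (hb : ∃ M : ℝ, ∀ x, ‖g x‖ ≤ M) (hb' : ∃ M : ℝ, ∀ x, ‖h x‖ ≤ M) (y : E n) :
    A R (fun x => g x - h x) y = A R g y - A R h y := by
  obtain ⟨M, hM⟩ := hb
  obtain ⟨M', hM'⟩ := hb'
  unfold A
  rw [← sub_div, ← integral_sub (kg_integrable R hR.le hg hM y) (kg_integrable R hR.le hh hM' y)]
  congr 1
  refine integral_congr_ae ?_
  filter_upwards with w
  ring

theorem A_comm (n : ℕ) (hn : 2 ≤ n) (R R' : ℝ) (hR : 0 < R) (hR' : 0 < R') (g : E n → ℂ)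
    (hg : Measurable g) (hb : ∃ M : ℝ, ∀ x, ‖g x‖ ≤ M) (y : E n) (hy : ‖y‖ = 1) :
    A R (A R' g) y = A R' (A R g) y := by
  obtain ⟨M, hM⟩ := hb
  rw [AA R R' hR hR' hg hM y hy, AA R' R hR' hR hg hM y hy, mul_comm (D R y : ℂ)]
  congr 1
  refine integral_congr_ae ?_
  filter_upwards [sg_ae n] with z hz
  rw [swapQ R R' y z hy hz]

end Pool.Agent.H789R2.FR
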