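import Mathlib
import Pool.Agent.H97.L.S8.H789R2.FR.Core
set_option autoImplicit false

/-! Task U2: localisation of the smoothed extension. -/

namespace Pool.Agent.H789R2.FR

open MeasureTheory Measure Set Metric Complex
open scoped ENNReal Pointwise RealInnerProductSpace Topology

theorem tail_restrict (n : ℕ) : (sg n).restrict (closedBall (0 : E n) 1) = sg n := by
  apply Measure.restrict_eq_self_of_ae_mem
  filter_upwards [sg_ae n] with w hw
  rw [mem_closedBall_zero_iff, hw]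

theorem tail_cont {n : ℕ} {F : Type} [NormedAddCommGroup F] [NormedSpace ℝ F]
    (f : ℝ → E n → F) (hf : Continuous (Function.uncurry f)) :
    Continuous (fun t => ∫ w, f t w ∂(sg n)) := by
  have := sg_finite n
  have h := continuous_parametric_integral_of_continuous (μ := sg n) hf
    (isCompact_closedBall (0 : E n) 1)
  simp only [tail_restrict] at h
  exact h

/-- `G_bound` including the case `w = 0`. -/
theorem G_bound' (n : ℕ) (hn : 2 ≤ n) (a b e : E n) (he : ‖e‖ = 1) (w : ℂ)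
    (hw : w ^ 2 = ((‖a‖ ^ 2 - ‖b‖ ^ 2 : ℝ) : ℂ) - 2 * ((⟪a, b⟫ : ℝ) : ℂ) * I) :
    ‖∫ x, Complex.exp (((⟪a, x⟫ : ℝ) : ℂ) - ((⟪b, x⟫ : ℝ) : ℂ) * I) ∂(sg n)‖ ≤
      ∫ x, Real.exp (|w.re| * ⟪e, x⟫) ∂(sg n) := by
  rcases ne_or_eq w 0 with hw0 | hw0
  · exact G_bound n hn a b e he w hw0 hw
  have := sg_finite n
  subst hw0
  have h1 : ‖a‖ ^ 2 - ‖b‖ ^ 2 = 0 := by
    have := congrArg Complex.re hw
    simp [pow_two] at this
    linarith
  have h2 : ⟪a, b⟫ = 0 := by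
    have := congrArg Complex.im hw
    simp [pow_two] at this
    linarith
  rcases eq_or_ne a 0 with ha | ha
  · subst ha
    have hb : b = 0 := by
      simp at h1
      exact h1
    subst hb
    simp
    rw [abs_of_nonneg measureReal_nonneg]
  have ha0 : 0 < ‖a‖ := norm_pos_iff.2 ha
  -- the two continuous functions
  have hF : Continuous (fun t : ℝ => ‖∫ x, Complex.exp (((⟪t • a, x⟫ : ℝ) : ℂ) -
      ((⟪b, x⟫ : ℝ) : ℂ) * I) ∂(sg n)‖) := by
    apply Continuous.norm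
    apply tail_cont (n := n) (fun (t : ℝ) (x : E n) => Complex.exp (((⟪t • a, x⟫ : ℝ) : ℂ) -
      ((⟪b, x⟫ : ℝ) : ℂ) * I))
    fun_prop
  have hH : Continuous (fun t : ℝ => ∫ x, Real.exp ((√(t ^ 2 - 1) * ‖a‖) * ⟪e, x⟫) ∂(sg n)) := by
    apply tail_cont (n := n) (fun (t : ℝ) (x : E n) => Real.exp ((√(t ^ 2 - 1) * ‖a‖) * ⟪e, x⟫))
    fun_prop
  have hle : ∀ᶠ t in 𝓝[>] (1 : ℝ), ‖∫ x, Complex.exp (((⟪t • a, x⟫ : ℝ) : ℂ) -
      ((⟪b, x⟫ : ℝ) : ℂ) * I) ∂(sg n)‖ ≤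
      ∫ x, Real.exp ((√(t ^ 2 - 1) * ‖a‖) * ⟪e, x⟫) ∂(sg n) := by
    filter_upwards [self_mem_nhdsWithin] with t ht
    have ht1 : (1 : ℝ) < t := ht
    have hpos : 0 < t ^ 2 - 1 := by nlinarith
    have hs : 0 < √(t ^ 2 - 1) * ‖a‖ := mul_pos (Real.sqrt_pos.2 hpos) ha0
    have hG := G_bound n hn (t • a) b e he ((√(t ^ 2 - 1) * ‖a‖ : ℝ) : ℂ)
      (by exact_mod_cast hs.ne') (by
        rw [real_inner_smul_left, h2, mul_zero, norm_smul, mul_pow, Real.norm_eq_abs, sq_abs]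
        have h3 : ‖b‖ ^ 2 = ‖a‖ ^ 2 := by linarith
        rw [h3]
        have h4 : (√(t ^ 2 - 1) * ‖a‖) ^ 2 = t ^ 2 * ‖a‖ ^ 2 - ‖a‖ ^ 2 := by
          rw [mul_pow, Real.sq_sqrt hpos.le]
          ring
        rw [← h4]
        push_cast
        ring)
    rw [Complex.ofReal_re, abs_of_pos hs] at hG
    exact hG
  have hlim := le_of_tendsto_of_tendsto ((hF.tendsto 1).mono_left nhdsWithin_le_nhds)
    ((hH.tendsto 1).mono_left nhdsWithin_le_nhds) hle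
  simp only [one_smul] at hlim
  refine hlim.trans (le_of_eq ?_)
  congr 1
  ext x
  simp

/-- elementary: the real part of the square root, all `X`. -/
theorem re_sqrt_bound' (R X s : ℝ) (hR : 0 < R) (hX : 0 < X) (hX4 : X ≤ 4 * R) (hs : |s| ≤ 1)
    (W : ℂ) (hW : W ^ 2 = ((R ^ 2 - X ^ 2 : ℝ) : ℂ) - 2 * ((R * X * s : ℝ) : ℂ) * I) :
    |W.re| ≤ R ∧ X ^ 2 * (1 - s ^ 2) / (34 * R) ≤ R - |W.re| := by
  have h1 : W.re ^ 2 - W.im ^ 2 = R ^ 2 - X ^ 2 := by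
    have := congrArg Complex.re hW
    simp [pow_two] at this
    nlinarith
  have h2 : 2 * (W.re * W.im) = - (2 * (R * X * s)) := by
    have := congrArg Complex.im hW
    simp [pow_two] at this
    nlinarith
  set p := W.re
  set q := W.im
  have hs2 : s ^ 2 ≤ 1 := by
    rw [← sq_abs]; nlinarith [abs_nonneg s]
  set k := 1 - s ^ 2 with hk
  have hk0 : 0 ≤ k := by linarith
  have hk1 : k ≤ 1 := by nlinarith [sq_nonneg s]
  have h3 : p ^ 2 * (p ^ 2 - (R ^ 2 - X ^ 2)) = R ^ 2 * X ^ 2 * s ^ 2 := by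
    have h4 : p * q = -(R * X * s) := by linarith
    have h5 : q ^ 2 = p ^ 2 - (R ^ 2 - X ^ 2) := by linarith
    rw [← h5]
    calc p ^ 2 * q ^ 2 = (p * q) ^ 2 := by ring
      _ = _ := by rw [h4]; ring
  have ha : 0 < R ^ 2 := by positivity
  have hb : 0 < X ^ 2 := by positivity
  set m := R ^ 2 * X ^ 2 * k / (R ^ 2 + X ^ 2) with hm
  have hm0 : 0 ≤ m := by positivity
  have hma : m * (R ^ 2 + X ^ 2) = R ^ 2 * X ^ 2 * k := by
    rw [hm]
    field_simp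
  have hmb : m < X ^ 2 := by
    rw [hm, div_lt_iff₀ (by positivity)]
    nlinarith [mul_nonneg (mul_nonneg ha.le hb.le) (sub_nonneg.2 hk1)]
  have hmR : m ≤ R ^ 2 := by
    rw [hm, div_le_iff₀ (by positivity)]
    nlinarith [mul_nonneg (mul_nonneg ha.le hb.le) (sub_nonneg.2 hk1)]
  have h6 : p ^ 2 ≤ R ^ 2 - m := by
    by_contra hcon
    push Not at hcon
    have h7 : (R ^ 2 - m) * (X ^ 2 - m) < p ^ 2 * (p ^ 2 - (R ^ 2 - X ^ 2)) := by
      have h8 : X ^ 2 - m < p ^ 2 - (R ^ 2 - X ^ 2) := by linarith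
      have h9 : 0 ≤ R ^ 2 - m := by linarith
      have h10 : 0 < X ^ 2 - m := by linarith
      have h11 : 0 < p ^ 2 := by linarith
      calc (R ^ 2 - m) * (X ^ 2 - m) ≤ p ^ 2 * (X ^ 2 - m) := by
            apply mul_le_mul_of_nonneg_right hcon.le h10.le
        _ < p ^ 2 * (p ^ 2 - (R ^ 2 - X ^ 2)) := by
            apply mul_lt_mul_of_pos_left h8 h11
    rw [h3] at h7
    have h12 : (R ^ 2 - m) * (X ^ 2 - m) = R ^ 2 * X ^ 2 * s ^ 2 + m ^ 2 := by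
      have : s ^ 2 = 1 - k := by rw [hk]; ring
      rw [this]
      nlinarith
    rw [h12] at h7
    nlinarith [sq_nonneg m]
  have h13 : |p| ≤ R := by
    apply abs_le_of_sq_le_sq _ hR.le
    linarith
  refine ⟨h13, ?_⟩
  have h14 : X ^ 2 * k / 17 ≤ m := by
    rw [hm, div_le_div_iff₀ (by norm_num) (by positivity)]
    have h15 : X ^ 2 ≤ 16 * R ^ 2 := by nlinarith
    have h16 : 0 ≤ X ^ 2 * k := by positivity
    nlinarith
  have h17 : m ≤ (R - |p|) * (2 * R) := by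
    have h18 : |p| ^ 2 = p ^ 2 := sq_abs p
    have h19 : 0 ≤ R - |p| := by linarith
    have h20 : (R - |p|) * (R + |p|) ≤ (R - |p|) * (2 * R) :=
      mul_le_mul_of_nonneg_left (by linarith) h19
    nlinarith
  rw [div_le_iff₀ (by positivity)]
  linarith

/-- Bound for the kernel. -/
theorem tail_kernel (n : ℕ) (hn : 2 ≤ n) : ∃ C : ℝ, 0 < C ∧ ∀ R : ℝ, 1 ≤ R → ∀ x : E n,
    x ≠ 0 → ‖x‖ ≤ 4 * R → ∀ y : E n, ‖y‖ = 1 → ∀ w' : E n, ‖w'‖ = 1 →
    ‖∫ w, Complex.exp (-((⟪x, w⟫ : ℝ) : ℂ) * I) *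
      ((Real.exp (-(R / 2) * ‖w - w'‖ ^ 2) : ℝ) : ℂ) ∂(sg n)‖ / D R y ≤
    C * Real.exp (-(‖x‖ ^ 2 * (1 - ⟪‖x‖⁻¹ • x, w'⟫ ^ 2) / (68 * R))) := by
  obtain ⟨C, hC, hRat⟩ := ratio_bound n hn
  refine ⟨C, hC, fun R hR x hxne hx y hy w' hw' => ?_⟩
  have hR0 : 0 < R := by linarith
  have hx0 : 0 < ‖x‖ := norm_pos_iff.2 hxne
  set e : E n := ‖x‖⁻¹ • x with he_def
  have he : ‖e‖ = 1 := by
    rw [he_def, norm_smul, norm_inv, norm_norm, inv_mul_cancel₀ hx0.ne']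
  set s : ℝ := ⟪e, w'⟫ with hs
  have hs1 : |s| ≤ 1 := inner_abs_le_one e w' he hw'
  have hxe : ⟪w', x⟫ = ‖x‖ * s := by
    have : x = ‖x‖ • e := by
      rw [he_def, smul_smul, mul_inv_cancel₀ hx0.ne', one_smul]
    conv_lhs => rw [this]
    rw [inner_smul_right, real_inner_comm]
  obtain ⟨W, hW⟩ := IsAlgClosed.exists_pow_nat_eq (((‖R • w'‖ ^ 2 - ‖x‖ ^ 2 : ℝ) : ℂ) -
      2 * ((⟪R • w', x⟫ : ℝ) : ℂ) * I) (n := 2) (by norm_num)
  have hRw : ‖R • w'‖ = R := by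
    rw [norm_smul, hw', mul_one, Real.norm_of_nonneg hR0.le]
  have hin : ⟪R • w', x⟫ = R * ‖x‖ * s := by
    rw [real_inner_smul_left, hxe]; ring
  have hW' : W ^ 2 = ((R ^ 2 - ‖x‖ ^ 2 : ℝ) : ℂ) - 2 * ((R * ‖x‖ * s : ℝ) : ℂ) * I := by
    rw [hW, hRw, hin]
  obtain ⟨huR, hre⟩ := re_sqrt_bound' R ‖x‖ s hR0 hx0 hx hs1 W hW'
  have hG := G_bound' n hn (R • w') x y hy W hW
  set u : ℝ := |W.re| with hu
  have hu0 : 0 ≤ u := abs_nonneg _
  rw [integral_exp_eq u y hy] at hG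
  have hrat := hRat R hR u hu0 huR y hy y hy
  have hD0 : 0 ≤ D R y := integral_nonneg fun w => (Real.exp_pos _).le
  have hI : ∫ w, Complex.exp (-((⟪x, w⟫ : ℝ) : ℂ) * I) *
      ((Real.exp (-(R / 2) * ‖w - w'‖ ^ 2) : ℝ) : ℂ) ∂(sg n) =
      ((Real.exp (-R) : ℝ) : ℂ) * ∫ w, Complex.exp (((⟪R • w', w⟫ : ℝ) : ℂ) -
        ((⟪x, w⟫ : ℝ) : ℂ) * I) ∂(sg n) := by
    rw [← integral_const_mul]
    apply integral_congr_ae
    filter_upwards [sg_ae n] with w hw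
    rw [norm_sub_rev, exp_inner_eq R w' w hw' hw, real_inner_smul_left]
    push_cast
    rw [← Complex.exp_add, ← Complex.exp_add, ← Complex.exp_add]
    congr 1
    ring
  rw [hI, norm_mul, Complex.norm_real, Real.norm_of_nonneg (Real.exp_pos _).le]
  calc Real.exp (-R) * ‖∫ w, Complex.exp (((⟪R • w', w⟫ : ℝ) : ℂ) -
        ((⟪x, w⟫ : ℝ) : ℂ) * I) ∂(sg n)‖ / D R y
      ≤ Real.exp (-R) * (Real.exp u * D u y) / D R y := by gcongr
    _ ≤ C * Real.exp (-(R - u) / 2) := hrat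
    _ ≤ C * Real.exp (-(‖x‖ ^ 2 * (1 - s ^ 2) / (68 * R))) := by
        gcongr
        have h1 : ‖x‖ ^ 2 * (1 - s ^ 2) / (68 * R) = ‖x‖ ^ 2 * (1 - s ^ 2) / (34 * R) / 2 := by
          field_simp
          ring
        rw [h1]
        linarith

theorem tail (n : ℕ) (hn : 2 ≤ n) : ∃ C : ℝ, 0 < C ∧ ∀ R : ℝ, 1 ≤ R → ∀ x : E n, x ≠ 0 →
    ‖x‖ ≤ 4 * R → ∀ g : E n → ℂ, Measurable g → ∀ M : ℝ, (∀ y, ‖g y‖ ≤ M) → ∀ κ : ℝ, 0 < κ →
    (∀ w : E n, ‖w‖ = 1 → ‖(‖x‖⁻¹ • x) - w‖ < κ → g w = 0) →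
    (∀ w : E n, ‖w‖ = 1 → ‖(‖x‖⁻¹ • x) + w‖ < κ → g w = 0) →
    ‖T (A R g) x‖ ≤ C * M * Real.exp (-(‖x‖ ^ 2 * κ ^ 2 / (200 * R))) := by
  obtain ⟨C, hC, hK⟩ := tail_kernel n hn
  obtain ⟨y, hy⟩ := exists_unit n hn
  have := sg_finite n
  set t : ℝ := (sg n).real univ with ht
  have ht0 : 0 ≤ t := measureReal_nonneg
  refine ⟨C * (t + 1), by positivity, fun R hR x hxne hx g hg M hM κ hκ h1 h2 => ?_⟩
  have hR0 : 0 < R := by linarith
  have hx0 : 0 < ‖x‖ := norm_pos_iff.2 hxne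
  have hM0 : 0 ≤ M := (norm_nonneg _).trans (hM 0)
  set e : E n := ‖x‖⁻¹ • x with he_def
  have he : ‖e‖ = 1 := by
    rw [he_def, norm_smul, norm_inv, norm_norm, inv_mul_cancel₀ hx0.ne']
  have hD := D_pos n hn R hR y hy
  rw [T_A_eq n hn g hg M hM R hR x y hy]
  set B : ℝ := Real.exp (-(‖x‖ ^ 2 * κ ^ 2 / (200 * R))) with hB
  have hB0 : 0 < B := Real.exp_pos _
  calc ‖∫ w', g w' * ((∫ w, Complex.exp (-((⟪x, w⟫ : ℝ) : ℂ) * I) *
      ((Real.exp (-(R / 2) * ‖w - w'‖ ^ 2) : ℝ) : ℂ) ∂(sg n)) / (D R y : ℂ)) ∂(sg n)‖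
      ≤ ∫ _w', M * (C * B) ∂(sg n) := by
        apply norm_integral_le_of_norm_le (integrable_const _)
        filter_upwards [sg_ae n] with w' hw'
        by_cases hg0 : g w' = 0
        · rw [hg0, zero_mul, norm_zero]
          positivity
        have hk1 : κ ≤ ‖e - w'‖ := by
          by_contra hcon
          exact hg0 (h1 w' hw' (not_le.1 hcon))
        have hk2 : κ ≤ ‖e + w'‖ := by
          by_contra hcon
          exact hg0 (h2 w' hw' (not_le.1 hcon))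
        rw [norm_mul, norm_div, Complex.norm_real, Real.norm_of_nonneg hD.le]
        have h3 := hK R hR x hxne hx y hy w' hw'
        refine mul_le_mul (hM _) (h3.trans ?_) (by positivity) hM0
        apply mul_le_mul_of_nonneg_left _ hC.le
        apply Real.exp_le_exp.2
        set s : ℝ := ⟪e, w'⟫ with hs
        have hs1 : |s| ≤ 1 := inner_abs_le_one e w' he hw'
        have e1 : ‖e - w'‖ ^ 2 = 2 - 2 * s := by
          rw [norm_sub_sq_real, he, hw', ← hs]; ring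
        have e2 : ‖e + w'‖ ^ 2 = 2 + 2 * s := by
          rw [norm_add_sq_real, he, hw', ← hs]; ring
        have e3 : κ ^ 2 ≤ 2 - 2 * s := by
          rw [← e1]
          exact pow_le_pow_left₀ hκ.le hk1 2
        have e4 : κ ^ 2 ≤ 2 + 2 * s := by
          rw [← e2]
          exact pow_le_pow_left₀ hκ.le hk2 2
        have e5 : κ ^ 2 / 2 ≤ 1 - s ^ 2 := by
          have h6 : s ≤ 1 := (abs_le.1 hs1).2
          have h7 : -1 ≤ s := (abs_le.1 hs1).1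
          rcases le_total 0 s with h0 | h0
          · nlinarith
          · nlinarith
        rw [neg_le_neg_iff, div_le_div_iff₀ (by positivity) (by positivity)]
        have h8 : 0 ≤ ‖x‖ ^ 2 * R := by positivity
        have h9 : 0 ≤ κ ^ 2 := sq_nonneg _
        nlinarith [mul_le_mul_of_nonneg_left e5 h8, mul_nonneg h8 h9]
    _ = t * (M * (C * B)) := by simp [ht]
    _ ≤ C * (t + 1) * M * B := by
        have : 0 ≤ M * (C * B) := by positivity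
        nlinarith

end Pool.Agent.H789R2.FR
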