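import Mathlib
import Pool.Agent.H97.L.S8.H789R2.FR.AOp
import Pool.Agent.H97.L.S8.H789R2.FR.Block
set_option autoImplicit false

/-! Induction on the smoothing scale. -/

namespace Pool.Agent.H789R2.FR

open MeasureTheory Measure Set Metric Complex
open scoped ENNReal Pointwise RealInnerProductSpace

/-- the estimate at scale `ρ^(2 lam) / 2` -/
def GoodAt (n : ℕ) (s p M K lam : ℝ) : Prop :=
  ∃ C ε : ℝ, 0 < C ∧ 0 < ε ∧ ∀ ρ : ℝ, 2 ≤ ρ → ∀ g : E n → ℂ, Measurable g →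
      (∀ x, ‖g x‖ ≤ M) →
      (∀ R : ℝ, 1 ≤ R → ∫ w, ‖g w - A R g w‖ ^ 2 ∂(sg n) ≤ K * R ^ (-s)) →
      ∫⁻ x in {x : E n | ρ ≤ ‖x‖ ∧ ‖x‖ < 2 * ρ},
        ENNReal.ofReal (‖T (A (ρ ^ (2 * lam) / 2) g) x‖ ^ p) ≤
        ENNReal.ofReal (C * ρ ^ (-ε))

private lemma ae_unit (n : ℕ) : ∀ᵐ w ∂(sg n), ‖w‖ = 1 := by
  unfold sg
  rw [ae_map_iff measurable_subtype_coe.aemeasurable]
  · filter_upwards with w
    simp
  · exact measurableSet_eq_fun measurable_norm measurable_const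

private lemma T_congr {n : ℕ} {g h : E n → ℂ} (H : ∀ y, ‖y‖ = 1 → g y = h y) (x : E n) :
    T g x = T h x := by
  unfold T
  apply integral_congr_ae
  filter_upwards [ae_unit n] with w hw
  simp only [H w hw]

private lemma vol_cb (n : ℕ) (hn : 2 ≤ n) (r : ℝ) (hr : 0 ≤ r) :
    volume (closedBall (0 : E n) r) =
      ENNReal.ofReal (volume.real (closedBall (0 : E n) 1) * r ^ n) := by
  have : Nonempty (Fin n) := ⟨⟨0, by omega⟩⟩
  have : Nontrivial (E n) := by infer_instance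
  rw [Measure.addHaar_closedBall volume (0 : E n) hr]
  rw [Measure.real]
  have h1 : Module.finrank ℝ (E n) = n := by simp
  rw [h1, mul_comm, ENNReal.ofReal_mul ENNReal.toReal_nonneg, ENNReal.ofReal_toReal
    measure_closedBall_lt_top.ne, Measure.addHaar_closedBall_eq_addHaar_ball]

private lemma base (n : ℕ) (hn : 2 ≤ n) (s : ℝ) (p : ℝ) (hp : 2 * (n : ℝ) / ((n : ℝ) - 1) < p)
    (M K : ℝ) (hM : 0 ≤ M) : GoodAt n s p M K (1 / 2) := by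
  have hn2 : (2 : ℝ) ≤ n := by exact_mod_cast hn
  have hn1 : (0 : ℝ) < (n : ℝ) - 1 := by linarith
  have hp0 : 0 < p := lt_trans (by positivity) hp
  obtain ⟨C1, hC1, H1⟩ := smooth_bound n hn
  set e1 : ℝ := (n : ℝ) - ((n : ℝ) - 1) / 2 * p with he1
  have he1n : e1 < 0 := by
    rw [div_lt_iff₀ hn1] at hp
    rw [he1]
    nlinarith
  set V : ℝ := volume.real (closedBall (0 : E n) 1) with hV
  have hV0 : 0 ≤ V := measureReal_nonneg
  set Q : ℝ := V * 2 ^ n * (C1 * M) ^ p * (1 / 2) ^ (-((n : ℝ) - 1) / 2 * p) with hQ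
  have hQ0 : 0 ≤ Q := by positivity
  refine ⟨Q + 1, -e1, by positivity, by linarith, fun ρ hρ g hg hgM _ => ?_⟩
  have hρ0 : 0 < ρ := by linarith
  have hR : ρ ^ (2 * (1 / 2 : ℝ)) / 2 = ρ / 2 := by
    rw [show (2 * (1 / 2 : ℝ)) = 1 by norm_num, Real.rpow_one]
  rw [hR]
  calc ∫⁻ x in {x : E n | ρ ≤ ‖x‖ ∧ ‖x‖ < 2 * ρ}, ENNReal.ofReal (‖T (A (ρ / 2) g) x‖ ^ p)
      ≤ ∫⁻ x in {x : E n | ρ ≤ ‖x‖ ∧ ‖x‖ < 2 * ρ},
          ENNReal.ofReal ((C1 * M * (ρ / 2) ^ (-((n : ℝ) - 1) / 2)) ^ p) := by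
        apply setLIntegral_mono measurable_const
        intro x hx
        apply ENNReal.ofReal_le_ofReal
        apply Real.rpow_le_rpow (norm_nonneg _) _ hp0.le
        exact H1 g hg M hgM (ρ / 2) (by linarith) x (by linarith [hx.1])
    _ ≤ ENNReal.ofReal ((C1 * M * (ρ / 2) ^ (-((n : ℝ) - 1) / 2)) ^ p) *
          volume (closedBall (0 : E n) (2 * ρ)) := by
        rw [setLIntegral_const]
        gcongr
        intro x hx
        simpa using hx.2.le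
    _ = ENNReal.ofReal (Q * ρ ^ e1) := by
        rw [vol_cb n hn (2 * ρ) (by positivity), ← ENNReal.ofReal_mul (by positivity)]
        congr 1
        rw [← hV, Real.mul_rpow (by positivity) (by positivity), ← Real.rpow_mul (by positivity),
          mul_pow, hQ, he1, Real.rpow_sub hρ0, Real.rpow_natCast,
          show ρ / 2 = ρ * (1 / 2) by ring, Real.mul_rpow hρ0.le (by norm_num)]
        have : ρ ^ (-((n : ℝ) - 1) / 2 * p) = (ρ ^ (((n : ℝ) - 1) / 2 * p))⁻¹ := by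
          rw [← Real.rpow_neg hρ0.le]
          congr 1
          ring
        rw [this]
        ring
    _ ≤ ENNReal.ofReal ((Q + 1) * ρ ^ (-(-e1))) := by
        apply ENNReal.ofReal_le_ofReal
        rw [neg_neg]
        have : 0 < ρ ^ e1 := by positivity
        nlinarith

/-- the exponent computation -/
private lemma expo (n : ℕ) (hn : 2 ≤ n) (s : ℝ) (hs' : s ≤ 1 / 2) (hs0 : 0 ≤ s) (m : ℝ)
    (hm : m = 1 / 2 - ((2 * (n : ℝ) - 1) / (2 * n)) * (1 - 2 * s)) (hm0 : 0 < m) (y : ℝ)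
    (hy : 1 ≤ y) (lam lam0 e1 : ℝ) (he1 : e1 ≤ m / 4) (he1' : e1 ≤ 1 / (2 * n))
    (hl' : lam ≤ (2 * (n : ℝ) - 1) / (2 * n)) (hl0 : lam - m / 4 ≤ lam0) :
    1 - y / 2 + (e1 + lam - 1) * y + -s * (2 * lam0) ≤ -(m / 2) := by
  have hn2 : (2 : ℝ) ≤ n := by exact_mod_cast hn
  have hsum : lam + e1 ≤ 1 := by
    have h1 : (2 * (n : ℝ) - 1) / (2 * n) + 1 / (2 * n) = 1 := by
      field_simp
      ring
    linarith
  have h1 : 1 ≤ (3 / 2 - lam - e1) * y + (lam + e1 - 1 / 2) := by nlinarith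
  have h2 : lam * (1 - 2 * s) ≤ (2 * (n : ℝ) - 1) / (2 * n) * (1 - 2 * s) :=
    mul_le_mul_of_nonneg_right hl' (by linarith)
  have h3 : (lam - m / 4) * s ≤ lam0 * s := mul_le_mul_of_nonneg_right hl0 hs0
  have h4 : s * m ≤ 1 / 2 * m := mul_le_mul_of_nonneg_right hs' hm0.le
  nlinarith

private lemma step (n : ℕ) (hn : 2 ≤ n) (s : ℝ)
    (hs : ((n : ℝ) - 1) / (2 * (2 * n - 1)) < s)
    (hs' : s ≤ 1 / 2) (p : ℝ) (hp : 2 * (n : ℝ) / ((n : ℝ) - 1) < p)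
    (hp' : p < 2 * ((n : ℝ) + 1) / ((n : ℝ) - 1)) (M K : ℝ) (hM : 0 ≤ M) (hK : 0 ≤ K)
    (m : ℝ) (hm : m = 1 / 2 - ((2 * (n : ℝ) - 1) / (2 * n)) * (1 - 2 * s)) (hm0 : 0 < m)
    (lam lam0 : ℝ) (hl : 1 / 2 ≤ lam0) (hll : lam0 ≤ lam)
    (hl' : lam ≤ (2 * (n : ℝ) - 1) / (2 * n)) (hl0 : lam - m / 4 ≤ lam0)
    (hG : GoodAt n s p M K lam0) : GoodAt n s p M K lam := by
  have hn2 : (2 : ℝ) ≤ n := by exact_mod_cast hn
  have hn1 : (0 : ℝ) < (n : ℝ) - 1 := by linarith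
  have hp2 : 2 < p := by
    refine lt_of_lt_of_le ?_ hp.le
    rw [lt_div_iff₀ hn1]
    linarith
  have hs0 : 0 < s := lt_of_le_of_lt (div_nonneg hn1.le (by linarith)) hs
  set e1 : ℝ := min (m / 4) (1 / (2 * n)) with he1
  have he10 : 0 < e1 := lt_min (by positivity) (by positivity)
  set y : ℝ := ((n : ℝ) - 1) * (p - 2) / 2 with hy
  have hy1 : 1 ≤ y := by
    rw [div_lt_iff₀ hn1] at hp
    rw [hy]
    nlinarith
  obtain ⟨C0, ε0, hC0, hε0, H0⟩ := hG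
  obtain ⟨C1, hC1, H1⟩ := block n hn p hp2 hp' e1 he10
  set ε : ℝ := min ε0 (min (m / 2) 1) with hε
  have hεp : 0 < ε := lt_min hε0 (lt_min (by positivity) one_pos)
  set Q1 : ℝ := C1 * ((2 * M) ^ (p - 2) * (K * (1 / 2) ^ (-s))) with hQ1
  set Q2 : ℝ := C1 * (2 * M) ^ p with hQ2
  have hQ10 : 0 ≤ Q1 := by positivity
  have hQ20 : 0 ≤ Q2 := by positivity
  refine ⟨2 ^ p * (C0 + (Q1 + Q2)), ε, by positivity, hεp, fun ρ hρ g hg hgM hreg => ?_⟩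
  have hρ0 : 0 < ρ := by linarith
  have hρ1 : 1 ≤ ρ := by linarith
  have hsum : lam + e1 ≤ 1 := by
    have h1 : (2 * (n : ℝ) - 1) / (2 * n) + 1 / (2 * n) = 1 := by
      field_simp
      ring
    have h2 : e1 ≤ 1 / (2 * n) := min_le_right _ _
    linarith
  have hpow : ∀ l : ℝ, 1 / 2 ≤ l → ρ / 2 ≤ ρ ^ (2 * l) / 2 := by
    intro l hl
    have : ρ ^ (1 : ℝ) ≤ ρ ^ (2 * l) := Real.rpow_le_rpow_of_exponent_le hρ1 (by linarith)
    rw [Real.rpow_one] at this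
    linarith
  set R : ℝ := ρ ^ (2 * lam0) / 2 with hR
  set R' : ℝ := ρ ^ (2 * lam) / 2 with hR'
  have hRρ : ρ / 2 ≤ R := hpow lam0 hl
  have hR'ρ : ρ / 2 ≤ R' := hpow lam (by linarith)
  have hR1 : 1 ≤ R := by linarith
  have hR'1 : 1 ≤ R' := by linarith
  have hR0 : 0 < R := by linarith
  have hR'0 : 0 < R' := by linarith
  -- the two functions
  set g1 : E n → ℂ := A R' g with hg1
  have hg1m : Measurable g1 := A_meas R' hg
  have hg1M : ∀ x, ‖g1 x‖ ≤ M := A_bound R' hR'0.le hgM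
  set h : E n → ℂ := fun x => g x - A R g x with hh
  have hARm : Measurable (A R g) := A_meas R hg
  have hARb : ∀ x, ‖A R g x‖ ≤ M := A_bound R hR0.le hgM
  have hhm : Measurable h := hg.sub hARm
  have hhb : ∀ x, ‖h x‖ ≤ 2 * M := fun x => by
    refine (norm_sub_le _ _).trans ?_
    linarith [hgM x, hARb x]
  -- commutation
  have hcomm : ∀ S : ℝ, 1 ≤ S → ∀ z : E n, ‖z‖ = 1 →
      g1 z - A S g1 z = A R' (fun x => g x - A S g x) z := by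
    intro S hS z hz
    have hS0 : 0 < S := by linarith
    rw [A_sub n R' hR'0 g (A S g) hg (A_meas S hg) ⟨M, hgM⟩ ⟨M, A_bound S hS0.le hgM⟩ z,
      hg1, A_comm n hn S R' hS0 hR'0 g hg ⟨M, hgM⟩ z hz]
  have hreg1 : ∀ S : ℝ, 1 ≤ S → ∫ w, ‖g1 w - A S g1 w‖ ^ 2 ∂(sg n) ≤ K * S ^ (-s) := by
    intro S hS
    have hS0 : 0 < S := by linarith
    have hSb : ∀ x, ‖A S g x‖ ≤ M := A_bound S hS0.le hgM
    refine le_trans ?_ (hreg S hS)
    have h1 : ∫ w, ‖g1 w - A S g1 w‖ ^ 2 ∂(sg n) =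
        ∫ w, ‖A R' (fun x => g x - A S g x) w‖ ^ 2 ∂(sg n) := by
      apply integral_congr_ae
      filter_upwards [ae_unit n] with w hw
      simp only [hcomm S hS w hw]
    rw [h1]
    refine A_L2 n hn R' hR'0 _ (hg.sub (A_meas S hg)) ⟨2 * M, fun x => ?_⟩
    refine (norm_sub_le _ _).trans ?_
    linarith [hgM x, hSb x]
  have hI1 := H0 ρ hρ g1 hg1m hg1M hreg1
  -- block
  have hk : ρ ^ e1 * R' ^ (1 / 2 : ℝ) ≤ ρ ^ (e1 + lam) := by
    rw [Real.rpow_add hρ0]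
    apply mul_le_mul_of_nonneg_left _ (by positivity)
    calc R' ^ (1 / 2 : ℝ) ≤ (ρ ^ (2 * lam)) ^ (1 / 2 : ℝ) := by
          apply Real.rpow_le_rpow hR'0.le _ (by norm_num)
          have : 0 < ρ ^ (2 * lam) := by positivity
          rw [hR']
          linarith
      _ = ρ ^ lam := by
          rw [← Real.rpow_mul hρ0.le]
          congr 1
          ring
  have hk1 : ρ ^ e1 * R' ^ (1 / 2 : ℝ) ≤ ρ := by
    refine hk.trans ?_
    calc ρ ^ (e1 + lam) ≤ ρ ^ (1 : ℝ) := Real.rpow_le_rpow_of_exponent_le hρ1 (by linarith)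
      _ = ρ := Real.rpow_one ρ
  have hI2 := H1 ρ hρ1 R' hR'1 hR'ρ hk1 h hhm (2 * M) hhb
  have hB : C1 * (ρ ^ (1 - ((n : ℝ) - 1) * (p - 2) / 4) *
        (ρ ^ e1 * R' ^ (1 / 2 : ℝ) / ρ) ^ (((n : ℝ) - 1) * (p - 2) / 2) * (2 * M) ^ (p - 2) *
          (∫ w, ‖h w‖ ^ 2 ∂(sg n)) + (2 * M) ^ p * ρ ^ (-1 : ℝ)) ≤
      Q1 * ρ ^ (-(m / 2)) + Q2 * ρ ^ (-1 : ℝ) := by
    have h2 : (ρ ^ e1 * R' ^ (1 / 2 : ℝ) / ρ) ^ y ≤ (ρ ^ (e1 + lam - 1)) ^ y := by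
      apply Real.rpow_le_rpow (by positivity) _ (by linarith)
      rw [Real.rpow_sub_one hρ0.ne']
      gcongr
    have h3 : ∫ w, ‖h w‖ ^ 2 ∂(sg n) ≤ K * R ^ (-s) := hreg R hR1
    have h4 : R ^ (-s) = (1 / 2) ^ (-s) * ρ ^ (-s * (2 * lam0)) := by
      rw [hR, div_eq_mul_one_div, Real.mul_rpow (by positivity) (by norm_num),
        ← Real.rpow_mul hρ0.le, mul_comm]
      congr 2
      ring
    have h30 : 0 ≤ ∫ w, ‖h w‖ ^ 2 ∂(sg n) := integral_nonneg fun w => by positivity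
    have h5 : ρ ^ (1 - ((n : ℝ) - 1) * (p - 2) / 4) *
        (ρ ^ e1 * R' ^ (1 / 2 : ℝ) / ρ) ^ (((n : ℝ) - 1) * (p - 2) / 2) * (2 * M) ^ (p - 2) *
          (∫ w, ‖h w‖ ^ 2 ∂(sg n)) ≤
        ρ ^ (1 - y / 2) * (ρ ^ (e1 + lam - 1)) ^ y * (2 * M) ^ (p - 2) *
          (K * ((1 / 2) ^ (-s) * ρ ^ (-s * (2 * lam0)))) := by
      rw [← h4, show ((n : ℝ) - 1) * (p - 2) / 4 = y / 2 by rw [hy]; ring]
      gcongr
    have h6 : ρ ^ (1 - y / 2) * (ρ ^ (e1 + lam - 1)) ^ y * ρ ^ (-s * (2 * lam0)) ≤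
        ρ ^ (-(m / 2)) := by
      rw [← Real.rpow_mul hρ0.le, ← Real.rpow_add hρ0, ← Real.rpow_add hρ0]
      apply Real.rpow_le_rpow_of_exponent_le hρ1
      exact expo n hn s hs' hs0.le m hm hm0 y hy1 lam lam0 e1 (min_le_left _ _)
        (min_le_right _ _) hl' hl0
    have h7 : 0 ≤ C1 * ((2 * M) ^ (p - 2) * (K * (1 / 2) ^ (-s))) := hQ10
    calc _ ≤ C1 * (ρ ^ (1 - y / 2) * (ρ ^ (e1 + lam - 1)) ^ y * (2 * M) ^ (p - 2) *
          (K * ((1 / 2) ^ (-s) * ρ ^ (-s * (2 * lam0)))) + (2 * M) ^ p * ρ ^ (-1 : ℝ)) := by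
          gcongr
      _ = C1 * ((2 * M) ^ (p - 2) * (K * (1 / 2) ^ (-s))) *
            (ρ ^ (1 - y / 2) * (ρ ^ (e1 + lam - 1)) ^ y * ρ ^ (-s * (2 * lam0))) +
          Q2 * ρ ^ (-1 : ℝ) := by
          rw [hQ2]
          ring
      _ ≤ _ := by
          rw [hQ1]
          gcongr
  -- pointwise
  have hpt : ∀ x : E n, ENNReal.ofReal (‖T (A R' g) x‖ ^ p) ≤ ENNReal.ofReal (2 ^ p) *
      (ENNReal.ofReal (‖T (A R g1) x‖ ^ p) + ENNReal.ofReal (‖T (A R' h) x‖ ^ p)) := by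
    intro x
    rw [← ENNReal.ofReal_add (by positivity) (by positivity),
      ← ENNReal.ofReal_mul (by positivity)]
    apply ENNReal.ofReal_le_ofReal
    refine le_trans ?_ (add_rpow_le _ _ p (norm_nonneg _) (norm_nonneg _) (by linarith))
    apply Real.rpow_le_rpow (norm_nonneg _) _ (by linarith)
    rw [T_add hg1m (A_meas R hg1m) hg1M (A_bound R hR0.le hg1M) x]
    have h1 : T (fun z => g1 z - A R g1 z) x = T (A R' h) x :=
      T_congr (fun z hz => hcomm R hR1 z hz) x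
    rw [h1]
    exact norm_add_le _ _
  have hmA : Measurable (fun x => ENNReal.ofReal (‖T (A R g1) x‖ ^ p)) :=
    ((T_meas (A_meas R hg1m)).norm.pow_const p).ennreal_ofReal
  have hexp : ∀ e : ℝ, ε ≤ e → ρ ^ (-e) ≤ ρ ^ (-ε) := fun e he =>
    Real.rpow_le_rpow_of_exponent_le hρ1 (by linarith)
  calc ∫⁻ x in {x : E n | ρ ≤ ‖x‖ ∧ ‖x‖ < 2 * ρ}, ENNReal.ofReal (‖T (A R' g) x‖ ^ p)
      ≤ ∫⁻ x in {x : E n | ρ ≤ ‖x‖ ∧ ‖x‖ < 2 * ρ}, ENNReal.ofReal (2 ^ p) *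
          (ENNReal.ofReal (‖T (A R g1) x‖ ^ p) + ENNReal.ofReal (‖T (A R' h) x‖ ^ p)) :=
        lintegral_mono hpt
    _ = ENNReal.ofReal (2 ^ p) *
          ((∫⁻ x in {x : E n | ρ ≤ ‖x‖ ∧ ‖x‖ < 2 * ρ}, ENNReal.ofReal (‖T (A R g1) x‖ ^ p)) +
          (∫⁻ x in {x : E n | ρ ≤ ‖x‖ ∧ ‖x‖ < 2 * ρ}, ENNReal.ofReal (‖T (A R' h) x‖ ^ p))) := by
        rw [lintegral_const_mul' _ _ ENNReal.ofReal_ne_top, lintegral_add_left hmA]
    _ ≤ ENNReal.ofReal (2 ^ p) * (ENNReal.ofReal (C0 * ρ ^ (-ε0)) +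
          ENNReal.ofReal (Q1 * ρ ^ (-(m / 2)) + Q2 * ρ ^ (-1 : ℝ))) := by
        gcongr
        exact hI2.trans (ENNReal.ofReal_le_ofReal hB)
    _ = ENNReal.ofReal (2 ^ p * (C0 * ρ ^ (-ε0) + (Q1 * ρ ^ (-(m / 2)) +
          Q2 * ρ ^ (-1 : ℝ)))) := by
        rw [← ENNReal.ofReal_add (by positivity) (by positivity),
          ← ENNReal.ofReal_mul (by positivity)]
    _ ≤ ENNReal.ofReal (2 ^ p * (C0 + (Q1 + Q2)) * ρ ^ (-ε)) := by
        apply ENNReal.ofReal_le_ofReal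
        have h1 := hexp ε0 (min_le_left _ _)
        have h2 := hexp (m / 2) ((min_le_right _ _).trans (min_le_left _ _))
        have h3 := hexp 1 ((min_le_right _ _).trans (min_le_right _ _))
        have h4 := mul_le_mul_of_nonneg_left h1 hC0.le
        have h5 := mul_le_mul_of_nonneg_left h2 hQ10
        have h6 := mul_le_mul_of_nonneg_left h3 hQ20
        have h7 : C0 * ρ ^ (-ε0) + (Q1 * ρ ^ (-(m / 2)) + Q2 * ρ ^ (-1 : ℝ)) ≤
            (C0 + (Q1 + Q2)) * ρ ^ (-ε) := by linarith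
        calc 2 ^ p * (C0 * ρ ^ (-ε0) + (Q1 * ρ ^ (-(m / 2)) + Q2 * ρ ^ (-1 : ℝ)))
            ≤ 2 ^ p * ((C0 + (Q1 + Q2)) * ρ ^ (-ε)) :=
              mul_le_mul_of_nonneg_left h7 (by positivity)
          _ = 2 ^ p * (C0 + (Q1 + Q2)) * ρ ^ (-ε) := by ring

theorem induct (n : ℕ) (hn : 2 ≤ n) (s : ℝ) (hs : ((n : ℝ) - 1) / (2 * (2 * n - 1)) < s)
    (hs' : s ≤ 1 / 2) (p : ℝ) (hp : 2 * (n : ℝ) / ((n : ℝ) - 1) < p)
    (hp' : p < 2 * ((n : ℝ) + 1) / ((n : ℝ) - 1)) (lam : ℝ) (hl : 1 / 2 ≤ lam)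
    (hl' : lam ≤ (2 * (n : ℝ) - 1) / (2 * n)) (M K : ℝ) (hM : 0 ≤ M) (hK : 0 ≤ K) :
    ∃ C ε : ℝ, 0 < C ∧ 0 < ε ∧ ∀ ρ : ℝ, 2 ≤ ρ → ∀ g : E n → ℂ, Measurable g →
      (∀ x, ‖g x‖ ≤ M) →
      (∀ R : ℝ, 1 ≤ R → ∫ w, ‖g w - A R g w‖ ^ 2 ∂(sg n) ≤ K * R ^ (-s)) →
      ∫⁻ x in {x : E n | ρ ≤ ‖x‖ ∧ ‖x‖ < 2 * ρ},
        ENNReal.ofReal (‖T (A (ρ ^ (2 * lam) / 2) g) x‖ ^ p) ≤
        ENNReal.ofReal (C * ρ ^ (-ε)) := by
  have hn2 : (2 : ℝ) ≤ n := by exact_mod_cast hn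
  set m : ℝ := 1 / 2 - ((2 * (n : ℝ) - 1) / (2 * n)) * (1 - 2 * s) with hm
  have hm0 : 0 < m := by
    rw [div_lt_iff₀ (by linarith)] at hs
    have h1 : ((2 * (n : ℝ) - 1) / (2 * n)) * (1 - 2 * s) < 1 / 2 := by
      rw [div_mul_eq_mul_div, div_lt_iff₀ (by linarith)]
      nlinarith
    rw [hm]
    linarith
  have main : ∀ k : ℕ, ∀ l : ℝ, 1 / 2 ≤ l → l ≤ (2 * (n : ℝ) - 1) / (2 * n) →
      l ≤ 1 / 2 + k * (m / 4) → GoodAt n s p M K l := by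
    intro k
    induction k with
    | zero =>
      intro l h1 _ h3
      have : l = 1 / 2 := by
        apply le_antisymm _ h1
        simpa using h3
      rw [this]
      exact base n hn s p hp M K hM
    | succ k ih =>
      intro l h1 h2 h3
      push_cast at h3
      refine step n hn s hs hs' p hp hp' M K hM hK m hm hm0 l (max (1 / 2) (l - m / 4))
        (le_max_left _ _) (max_le h1 (by linarith)) h2 (le_max_right _ _) ?_
      apply ih _ (le_max_left _ _)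
      · exact max_le (h1.trans h2) (by linarith)
      · apply max_le
        · have : (0 : ℝ) ≤ k * (m / 4) := by positivity
          linarith
        · linarith
  obtain ⟨k, hk⟩ := exists_nat_ge ((lam - 1 / 2) / (m / 4))
  exact main k lam hl hl' (by
    rw [div_le_iff₀ (by positivity)] at hk
    linarith)

end Pool.Agent.H789R2.FR
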