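import Mathlib
import Pool.Agent.H97.L.S8.H789R2.FR.Induct
set_option autoImplicit false

/-! Assembly of theorem 1': extension of bounded `H^s` densities, `s > (n-1)/(2(2n-1))`. -/

namespace Pool.Agent.H789R2.FR

open MeasureTheory Measure Set Metric Complex Filter Topology
open scoped ENNReal Pointwise RealInnerProductSpace

/-- the estimate on one shell -/
lemma shell_est1 (n : ℕ) (hn : 2 ≤ n) (s : ℝ) (hs : ((n : ℝ) - 1) / (2 * (2 * n - 1)) < s)
    (hs' : s ≤ 1 / 2)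
    (g : E n → ℂ) (hg : Measurable g) (M : ℝ) (hM : ∀ x, ‖g x‖ ≤ M) (K : ℝ) (hK0 : 0 ≤ K)
    (hreg : ∀ R : ℝ, 1 ≤ R → ∫ w, ‖g w - A R g w‖ ^ 2 ∂(sg n) ≤ K * R ^ (-s))
    (p : ℝ) (hp : 2 * (n : ℝ) / ((n : ℝ) - 1) < p)
    (hp' : p < 2 * ((n : ℝ) + 1) / ((n : ℝ) - 1)) :
    ∃ C ε : ℝ, 0 ≤ C ∧ 0 < ε ∧ ∀ j : ℕ, ∫⁻ x in shell n j, ENNReal.ofReal (‖T g x‖ ^ p) ≤
      ENNReal.ofReal (C * ((2 : ℝ) ^ (-ε)) ^ j) := by
  have hn2 : (2 : ℝ) ≤ n := by exact_mod_cast hn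
  have hn1 : (0 : ℝ) < (n : ℝ) - 1 := by linarith
  have hn3 : (0 : ℝ) < 2 * (n : ℝ) - 1 := by linarith
  have hn0 : (0 : ℝ) < n := by linarith
  have hM0 : 0 ≤ M := (norm_nonneg _).trans (hM 0)
  have hp2 : 2 < p := by
    refine lt_of_lt_of_le ?_ hp.le
    rw [lt_div_iff₀ hn1]
    linarith
  have hs0 : 0 < s := lt_of_le_of_lt (by positivity) hs
  set lam : ℝ := (2 * (n : ℝ) - 1) / (2 * n) with hlam
  have hlam1 : 1 / 2 ≤ lam := by
    rw [hlam, div_le_div_iff₀ (by norm_num) (by linarith)]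
    linarith
  obtain ⟨C1, ε1, hC1, hε1, H1⟩ := induct n hn s hs hs' p hp hp' lam hlam1 le_rfl M K hM0 hK0
  obtain ⟨C2, hC2, H2⟩ := Lp_bound n hn p hp2 hp'
  set e2 : ℝ := -s * (lam * p) + (1 - ((n : ℝ) - 1) * (p - 2) / 4) with he2
  have he2n : e2 < 0 := by
    rw [div_lt_iff₀ hn1] at hp
    rw [div_lt_iff₀ (by linarith)] at hs
    have h1 : ((n : ℝ) - 1) * (p - 2) > 2 := by nlinarith
    -- s * lam * p > 1/2
    have h2 : s * (lam * p) > 1 / 2 := by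
      have hl : lam * (2 * n) = 2 * n - 1 := by
        rw [hlam]
        field_simp
      -- (n-1) < 2 s (2n-1) = 2 s lam 2n < 2 s lam p (n-1)
      have h3 : ((n : ℝ) - 1) * (s * (lam * p)) > ((n : ℝ) - 1) * (1 / 2) := by
        have h4 : (s * lam) * (p * ((n : ℝ) - 1)) > (s * lam) * (2 * n) :=
          mul_lt_mul_of_pos_left hp (mul_pos hs0 (by linarith))
        have h5 : s * lam * (2 * n) = s * (2 * n - 1) := by rw [mul_assoc, hl]
        nlinarith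
      exact lt_of_mul_lt_mul_left h3 hn1.le
    rw [he2]
    nlinarith
  set ε : ℝ := min ε1 (-e2) with hε
  have hε0 : 0 < ε := lt_min hε1 (by linarith)
  set Ca : ℝ := 2 ^ p * C1 with hCa
  set Cb : ℝ := 2 ^ p * (C2 * (K * (1 / 2) ^ (-s)) ^ (p / 2) *
    2 ^ (1 - ((n : ℝ) - 1) * (p - 2) / 4)) with hCb
  have hCa0 : 0 ≤ Ca := by positivity
  have hCb0 : 0 ≤ Cb := by positivity
  refine ⟨Ca + Cb, ε, by positivity, hε0, fun j => ?_⟩
  set ρ : ℝ := 2 * (2 : ℝ) ^ j with hρ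
  have h2j : 1 ≤ (2 : ℝ) ^ j := one_le_pow₀ (by norm_num)
  have hρ2 : 2 ≤ ρ := by linarith
  have hρ0 : 0 < ρ := by linarith
  have hρ1 : 1 ≤ ρ := by linarith
  set R : ℝ := ρ ^ (2 * lam) / 2 with hR
  have hR1 : 1 ≤ R := by
    have : ρ ^ (1 : ℝ) ≤ ρ ^ (2 * lam) := Real.rpow_le_rpow_of_exponent_le hρ1 (by linarith)
    rw [Real.rpow_one] at this
    rw [hR]
    linarith
  have hR0 : 0 < R := by linarith
  have hAm := A_meas (n := n) R hg
  have hAb : ∀ y, ‖A R g y‖ ≤ M := A_bound R hR0.le hM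
  set h : E n → ℂ := fun y => g y - A R g y with hh
  have hhm : Measurable h := hg.sub hAm
  have hhb : ∀ y, ‖h y‖ ≤ 2 * M := fun y => by
    refine (norm_sub_le _ _).trans ?_
    linarith [hM y, hAb y]
  have hpt : ∀ x : E n, ENNReal.ofReal (‖T g x‖ ^ p) ≤ ENNReal.ofReal (2 ^ p) *
      (ENNReal.ofReal (‖T (A R g) x‖ ^ p) + ENNReal.ofReal (‖T h x‖ ^ p)) := by
    intro x
    rw [← ENNReal.ofReal_add (by positivity) (by positivity),
      ← ENNReal.ofReal_mul (by positivity)]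
    apply ENNReal.ofReal_le_ofReal
    refine le_trans ?_ (add_rpow_le _ _ p (norm_nonneg _) (norm_nonneg _) (by linarith))
    apply Real.rpow_le_rpow (norm_nonneg _) _ (by linarith)
    rw [T_add hg hAm hM hAb x]
    exact norm_add_le _ _
  have hmA : Measurable (fun x => ENNReal.ofReal (‖T (A R g) x‖ ^ p)) :=
    ((T_meas hAm).norm.pow_const p).ennreal_ofReal
  have hshell : shell n j = {x : E n | ρ ≤ ‖x‖ ∧ ‖x‖ < 2 * ρ} := by
    ext x
    simp only [shell, mem_ofPred_eq, hρ]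
    constructor
    · rintro ⟨h1, h2⟩
      exact ⟨h1, by linarith⟩
    · rintro ⟨h1, h2⟩
      exact ⟨h1, by linarith⟩
  have hsub : shell n j ⊆ closedBall (0 : E n) (2 * ρ) := by
    intro x hx
    rw [hshell] at hx
    simpa using hx.2.le
  have hI1 : ∫⁻ x in shell n j, ENNReal.ofReal (‖T (A R g) x‖ ^ p) ≤
      ENNReal.ofReal (C1 * ρ ^ (-ε1)) := by
    rw [hshell]
    exact H1 ρ hρ2 g hg hM hreg
  have hI2 : ∫⁻ x in shell n j, ENNReal.ofReal (‖T h x‖ ^ p) ≤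
      ENNReal.ofReal (C2 * (K * (1 / 2) ^ (-s)) ^ (p / 2) *
        2 ^ (1 - ((n : ℝ) - 1) * (p - 2) / 4) * ρ ^ e2) := by
    calc ∫⁻ x in shell n j, ENNReal.ofReal (‖T h x‖ ^ p)
        ≤ ∫⁻ x in closedBall (0 : E n) (2 * ρ), ENNReal.ofReal (‖T h x‖ ^ p) :=
          lintegral_mono_set hsub
      _ ≤ ENNReal.ofReal (C2 * (∫ w, ‖h w‖ ^ 2 ∂(sg n)) ^ (p / 2) *
            (2 * ρ) ^ (1 - ((n : ℝ) - 1) * (p - 2) / 4)) :=
          H2 h hhm ⟨2 * M, hhb⟩ (2 * ρ) (by linarith)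
      _ ≤ ENNReal.ofReal (C2 * (K * R ^ (-s)) ^ (p / 2) *
            (2 * ρ) ^ (1 - ((n : ℝ) - 1) * (p - 2) / 4)) := by
          apply ENNReal.ofReal_le_ofReal
          have h3 := hreg R hR1
          have h0 : 0 ≤ ∫ w, ‖h w‖ ^ 2 ∂(sg n) := integral_nonneg fun w => by positivity
          gcongr
      _ = ENNReal.ofReal (C2 * (K * (1 / 2) ^ (-s)) ^ (p / 2) *
            2 ^ (1 - ((n : ℝ) - 1) * (p - 2) / 4) * ρ ^ e2) := by
          congr 1
          have hRs : R ^ (-s) = (1 / 2) ^ (-s) * ρ ^ (-s * (2 * lam)) := by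
            rw [hR, div_eq_mul_one_div, Real.mul_rpow (by positivity) (by norm_num),
              ← Real.rpow_mul hρ0.le]
            ring_nf
          rw [hRs, ← mul_assoc, Real.mul_rpow (by positivity) (by positivity),
            ← Real.rpow_mul hρ0.le, Real.mul_rpow (by norm_num) hρ0.le, he2, Real.rpow_add hρ0]
          have : -s * (2 * lam) * (p / 2) = -s * (lam * p) := by ring
          rw [this]
          ring
  have hRe : ∀ e : ℝ, e ≤ -ε → ρ ^ e ≤ ((2 : ℝ) ^ (-ε)) ^ j := by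
    intro e he
    calc ρ ^ e ≤ ρ ^ (-ε) := Real.rpow_le_rpow_of_exponent_le hρ1 he
      _ ≤ ((2 : ℝ) ^ j) ^ (-ε) := by
        rw [Real.rpow_neg hρ0.le, Real.rpow_neg (by positivity)]
        apply inv_anti₀ (by positivity)
        exact Real.rpow_le_rpow (by positivity) (by linarith) hε0.le
      _ = ((2 : ℝ) ^ (-ε)) ^ j := by
        rw [← Real.rpow_natCast, ← Real.rpow_natCast, ← Real.rpow_mul (by norm_num),
          ← Real.rpow_mul (by norm_num), mul_comm]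
  calc ∫⁻ x in shell n j, ENNReal.ofReal (‖T g x‖ ^ p)
      ≤ ∫⁻ x in shell n j, ENNReal.ofReal (2 ^ p) *
          (ENNReal.ofReal (‖T (A R g) x‖ ^ p) + ENNReal.ofReal (‖T h x‖ ^ p)) :=
        lintegral_mono hpt
    _ = ENNReal.ofReal (2 ^ p) * ((∫⁻ x in shell n j, ENNReal.ofReal (‖T (A R g) x‖ ^ p)) +
          (∫⁻ x in shell n j, ENNReal.ofReal (‖T h x‖ ^ p))) := by
        rw [lintegral_const_mul' _ _ ENNReal.ofReal_ne_top, lintegral_add_left hmA]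
    _ ≤ ENNReal.ofReal (2 ^ p) * (ENNReal.ofReal (C1 * ρ ^ (-ε1)) +
          ENNReal.ofReal (C2 * (K * (1 / 2) ^ (-s)) ^ (p / 2) *
            2 ^ (1 - ((n : ℝ) - 1) * (p - 2) / 4) * ρ ^ e2)) :=
        mul_le_mul_right (add_le_add hI1 hI2) _
    _ = ENNReal.ofReal (Ca * ρ ^ (-ε1) + Cb * ρ ^ e2) := by
        rw [← ENNReal.ofReal_add (by positivity) (by positivity),
          ← ENNReal.ofReal_mul (by positivity)]
        congr 1
        rw [hCa, hCb]
        ring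
    _ ≤ ENNReal.ofReal ((Ca + Cb) * ((2 : ℝ) ^ (-ε)) ^ j) := by
        apply ENNReal.ofReal_le_ofReal
        have h1 := hRe (-ε1) (by have := min_le_left ε1 (-e2); linarith)
        have h2 := hRe e2 (by have := min_le_right ε1 (-e2); linarith)
        have h3 := mul_le_mul_of_nonneg_left h1 hCa0
        have h4 := mul_le_mul_of_nonneg_left h2 hCb0
        linarith

lemma core1_small (n : ℕ) (hn : 2 ≤ n) (s : ℝ) (hs : ((n : ℝ) - 1) / (2 * (2 * n - 1)) < s)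
    (hs' : s ≤ 1 / 2)
    (g : E n → ℂ) (hg : Measurable g) (M : ℝ) (hM : ∀ x, ‖g x‖ ≤ M) (K : ℝ) (hK0 : 0 ≤ K)
    (hreg : ∀ R : ℝ, 1 ≤ R → ∫ w, ‖g w - A R g w‖ ^ 2 ∂(sg n) ≤ K * R ^ (-s))
    (p : ℝ) (hp : 2 * (n : ℝ) / ((n : ℝ) - 1) < p)
    (hp' : p < 2 * ((n : ℝ) + 1) / ((n : ℝ) - 1)) :
    ∫⁻ x, ENNReal.ofReal (‖T g x‖ ^ p) < ∞ := by
  have hn2 : (2 : ℝ) ≤ n := by exact_mod_cast hn
  have hn1 : (0 : ℝ) < (n : ℝ) - 1 := by linarith
  have hp2 : 2 < p := by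
    refine lt_of_lt_of_le ?_ hp.le
    rw [lt_div_iff₀ hn1]
    linarith
  obtain ⟨C, ε, hC, hε, H⟩ := shell_est1 n hn s hs hs' g hg M hM K hK0 hreg p hp hp'
  have h1 : ∫⁻ x, ENNReal.ofReal (‖T g x‖ ^ p) ≤
      (∫⁻ x in closedBall (0 : E n) 2, ENNReal.ofReal (‖T g x‖ ^ p)) +
      ∑' j, (∫⁻ x in shell n j, ENNReal.ofReal (‖T g x‖ ^ p)) := by
    rw [← setLIntegral_univ]
    have : (univ : Set (E n)) = closedBall (0 : E n) 2 ∪ ⋃ j, shell n j := by
      ext x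
      simpa using cover n x
    rw [this]
    refine (lintegral_union_le _ _ _).trans ?_
    gcongr
    exact lintegral_iUnion_le _ _
  refine h1.trans_lt (ENNReal.add_lt_top.mpr ⟨?_, ?_⟩)
  · refine lt_of_le_of_lt (setLIntegral_mono (g := fun _ =>
      ENNReal.ofReal ((M * (sg n).real univ) ^ p)) measurable_const ?_) ?_
    · intro x _
      apply ENNReal.ofReal_le_ofReal
      exact Real.rpow_le_rpow (norm_nonneg _) (T_bound hM x) (by linarith)
    · rw [setLIntegral_const]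
      exact ENNReal.mul_lt_top ENNReal.ofReal_lt_top measure_closedBall_lt_top
  · refine lt_of_le_of_lt (ENNReal.tsum_le_tsum H) ?_
    have hq0 : 0 ≤ (2 : ℝ) ^ (-ε) := by positivity
    have hq1 : (2 : ℝ) ^ (-ε) < 1 := by
      apply Real.rpow_lt_one_of_one_lt_of_neg (by norm_num) (by linarith)
    have hsum : Summable (fun j : ℕ => C * ((2 : ℝ) ^ (-ε)) ^ j) :=
      (summable_geometric_of_lt_one hq0 hq1).mul_left C
    rw [← ENNReal.ofReal_tsum_of_nonneg (fun j => by positivity) hsum]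
    exact ENNReal.ofReal_lt_top

/-- passage from small exponents to all exponents for a bounded function -/
lemma rpow_lift {n : ℕ} (hn : 2 ≤ n) (g : E n → ℂ) (M : ℝ) (hM : ∀ x, ‖g x‖ ≤ M)
    (H : ∀ p : ℝ, 2 * (n : ℝ) / ((n : ℝ) - 1) < p → p < 2 * ((n : ℝ) + 1) / ((n : ℝ) - 1) →
      ∫⁻ x, ENNReal.ofReal (‖T g x‖ ^ p) < ∞) (p : ℝ) (hp : 2 * (n : ℝ) / ((n : ℝ) - 1) < p) :
    ∫⁻ x, ENNReal.ofReal (‖T g x‖ ^ p) < ∞ := by
  have hn2 : (2 : ℝ) ≤ n := by exact_mod_cast hn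
  have hn1 : (0 : ℝ) < (n : ℝ) - 1 := by linarith
  rcases lt_or_ge p (2 * ((n : ℝ) + 1) / ((n : ℝ) - 1)) with h | h
  · exact H p hp h
  · set p1 : ℝ := (2 * (n : ℝ) + 1) / ((n : ℝ) - 1) with hp1
    have h1 : 2 * (n : ℝ) / ((n : ℝ) - 1) < p1 := by
      rw [hp1]
      exact div_lt_div_of_pos_right (by linarith) hn1
    have h2 : p1 < 2 * ((n : ℝ) + 1) / ((n : ℝ) - 1) := by
      rw [hp1]
      exact div_lt_div_of_pos_right (by linarith) hn1
    have hp10 : 0 < p1 := by positivity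
    have hsm := H p1 h1 h2
    have hM0 : 0 ≤ M := (norm_nonneg _).trans (hM 0)
    set B : ℝ := M * (sg n).real univ with hB
    have hB0 : 0 ≤ B := mul_nonneg hM0 measureReal_nonneg
    refine lt_of_le_of_lt (lintegral_mono (g := fun x =>
      ENNReal.ofReal (B ^ (p - p1)) * ENNReal.ofReal (‖T g x‖ ^ p1)) ?_) ?_
    · intro x
      simp only
      rw [← ENNReal.ofReal_mul (by positivity)]
      apply ENNReal.ofReal_le_ofReal
      rcases (norm_nonneg (T g x)).eq_or_lt with h0 | h0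
      · rw [← h0, Real.zero_rpow (by linarith), Real.zero_rpow hp10.ne']
        simp
      · have : p = (p - p1) + p1 := by ring
        conv_lhs => rw [this, Real.rpow_add h0]
        gcongr
        · linarith
        · exact T_bound hM x
    · rw [lintegral_const_mul' _ _ ENNReal.ofReal_ne_top]
      exact ENNReal.mul_lt_top ENNReal.ofReal_lt_top hsm

theorem core1 (n : ℕ) (hn : 2 ≤ n) (s : ℝ) (hs : ((n : ℝ) - 1) / (2 * (2 * n - 1)) < s)
    (g : E n → ℂ) (hg : Measurable g) (M : ℝ) (hM : ∀ x, ‖g x‖ ≤ M) (K : ℝ) (hK : 0 ≤ K)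
    (hreg : ∀ R : ℝ, 1 ≤ R → ∫ w, ‖g w - A R g w‖ ^ 2 ∂(sg n) ≤ K * R ^ (-s))
    (p : ℝ) (hp : 2 * (n : ℝ) / ((n : ℝ) - 1) < p) :
    ∫⁻ x, ENNReal.ofReal (‖T g x‖ ^ p) < ∞ := by
  have hn2 : (2 : ℝ) ≤ n := by exact_mod_cast hn
  refine rpow_lift hn g M hM (fun q hq hq' => ?_) p hp
  rcases le_total s (1 / 2) with h | h
  · exact core1_small n hn s hs h g hg M hM K hK hreg q hq hq'
  · refine core1_small n hn (1 / 2) ?_ le_rfl g hg M hM K hK (fun R hR => ?_) q hq hq'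
    · rw [div_lt_div_iff₀ (by linarith) (by norm_num)]
      linarith
    · refine (hreg R hR).trans ?_
      apply mul_le_mul_of_nonneg_left _ hK
      exact Real.rpow_le_rpow_of_exponent_le hR (by linarith)

end Pool.Agent.H789R2.FR
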