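import Mathlib
import Pool.Agent.H97.L.S8.H789R2.FR.Defs
set_option autoImplicit false

/-! Definitions for the theorem in `ℝ^3` with regularity only in longitude. -/

namespace Pool.Agent.H789R2.FR

open MeasureTheory Measure Set Metric Complex
open scoped ENNReal Pointwise RealInnerProductSpace

/-- `s(c) = sqrt(1-c^2)`. -/
noncomputable def sc (c : ℝ) : ℝ := Real.sqrt (1 - c ^ 2)

/-- The point of the sphere with height `c` and longitude `φ`. -/
noncomputable def pt (c φ : ℝ) : E 3 := !₂[sc c * Real.cos φ, sc c * Real.sin φ, c]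

/-- A point of space in cylindrical coordinates. -/
noncomputable def cyl (r α z : ℝ) : E 3 := !₂[r * Real.cos α, r * Real.sin α, z]

/-- Rotation by the angle `h` about the third axis. -/
noncomputable def rot (h : ℝ) (x : E 3) : E 3 :=
  !₂[x 0 * Real.cos h - x 1 * Real.sin h, x 0 * Real.sin h + x 1 * Real.cos h, x 2]

/-- The set of heights `c` with `μ/2 < s(c) ≤ μ`. -/
def band (μ : ℝ) : Set ℝ := {c | |c| < 1 ∧ μ / 2 < sc c ∧ sc c ≤ μ}

/-- Two-dimensional extension operator (half circle). -/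
noncomputable def Ex (b : ℝ → ℂ) (y z : ℝ) : ℂ :=
  ∫ c in Ioo (-1 : ℝ) 1, Complex.exp (-((y * sc c + z * c : ℝ) : ℂ) * I) * b c

/-- Average over longitudes in a window of length `δ`. -/
noncomputable def avg (δ : ℝ) (G : E 3 → ℂ) (x : E 3) : ℂ :=
  (δ : ℂ)⁻¹ * ∫ h in Ioo (0 : ℝ) δ, G (rot (-h) x)

end Pool.Agent.H789R2.FR
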