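import Mathlib
import Pool.Agent.H97.L.S8.H789R2.FR.Defs3
set_option autoImplicit false

/-! Two abstract interpolation lemmas. -/

namespace Pool.Agent.H789R2.FR

open MeasureTheory Measure Set Metric Complex
open scoped ENNReal Pointwise RealInnerProductSpace

namespace InterpAux

variable {Ω : Type*} [MeasurableSpace Ω]

/-- vanishing -/
lemma zero_of_ae (μ : Measure Ω) (p : ℝ) (hp : 2 < p) (f : Ω → ℝ)
    (h : ∀ᵐ x ∂μ, f x = 0) : ∫⁻ x, ENNReal.ofReal (f x ^ p) ∂μ = 0 := by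
  rw [lintegral_congr_ae (g := fun _ => 0)]
  · simp
  · filter_upwards [h] with x hx
    rw [hx, Real.zero_rpow (by linarith)]
    simp

/-- the dyadic pointwise bound -/
lemma dyadic_pt (p lam y : ℝ) (hp : 2 < p) (hl : 0 < lam) (hy : lam ≤ y) :
    ENNReal.ofReal (y ^ p) ≤ ∑' j : ℕ, (if (2 : ℝ) ^ j * lam ≤ y then
      ENNReal.ofReal ((2 ^ (j + 1) * lam) ^ p) else 0) := by
  have hy0 : 0 < y := hl.trans_le hy
  obtain ⟨j, hj1, hj2⟩ := exists_nat_pow_near (x := y / lam) (y := (2 : ℝ))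
    ((one_le_div hl).2 hy) (by norm_num)
  rw [le_div_iff₀ hl] at hj1
  rw [div_lt_iff₀ hl] at hj2
  refine le_trans ?_ (ENNReal.le_tsum j)
  rw [if_pos hj1]
  apply ENNReal.ofReal_le_ofReal
  exact Real.rpow_le_rpow hy0.le hj2.le (by linarith)

lemma high_part (μ : Measure Ω) (p : ℝ) (hp : 2 < p) (hp' : p < 4) (f : Ω → ℝ)
    (hf : Measurable f) (lam Y : ℝ) (hl : 0 < lam)
    (hw : ∀ t : ℝ, 0 < t → μ {x | t ≤ f x} ≤ ENNReal.ofReal ((Y / t ^ 2) ^ 2)) :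
    ∫⁻ x in {x | lam ≤ f x}, ENNReal.ofReal (f x ^ p) ∂μ ≤
      ENNReal.ofReal (2 ^ p / (1 - 2 ^ (p - 4)) * (Y ^ 2 * lam ^ (p - 4))) := by
  have hmS : ∀ t : ℝ, MeasurableSet {x | t ≤ f x} := fun t => measurableSet_le measurable_const hf
  have hq0 : (0 : ℝ) < 2 ^ (p - 4) := by positivity
  have hq1 : (2 : ℝ) ^ (p - 4) < 1 :=
    Real.rpow_lt_one_of_one_lt_of_neg (by norm_num) (by linarith)
  have hterm : ∀ j : ℕ, ENNReal.ofReal ((2 ^ (j + 1) * lam) ^ p) *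
      ENNReal.ofReal ((Y / (2 ^ j * lam) ^ 2) ^ 2) =
      ENNReal.ofReal (2 ^ p * (Y ^ 2 * lam ^ (p - 4)) * ((2 : ℝ) ^ (p - 4)) ^ j) := by
    intro j
    rw [← ENNReal.ofReal_mul (by positivity)]
    congr 1
    have h2j : (0 : ℝ) < 2 ^ j := by positivity
    have e1 : ((2 : ℝ) ^ (j + 1) * lam) ^ p = 2 ^ p * (2 ^ j) ^ p * lam ^ p := by
      rw [pow_succ, mul_comm ((2 : ℝ) ^ j) 2, Real.mul_rpow (by positivity) hl.le,
        Real.mul_rpow (by norm_num) h2j.le]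
    have e2 : (Y / (2 ^ j * lam) ^ 2) ^ 2 = Y ^ 2 * ((2 ^ j) ^ (4 : ℝ))⁻¹ * (lam ^ (4 : ℝ))⁻¹ := by
      have e3 : ((2 : ℝ) ^ j) ^ (4 : ℝ) = ((2 : ℝ) ^ j) ^ 4 := by
        exact_mod_cast Real.rpow_natCast ((2 : ℝ) ^ j) 4
      have e4 : lam ^ (4 : ℝ) = lam ^ 4 := by exact_mod_cast Real.rpow_natCast lam 4
      rw [e3, e4]
      field_simp
    have e5 : lam ^ (p - 4) = lam ^ p * (lam ^ (4 : ℝ))⁻¹ := by
      rw [Real.rpow_sub hl, div_eq_mul_inv]
    have e6 : ((2 : ℝ) ^ (p - 4)) ^ j = (2 ^ j) ^ p * ((2 ^ j) ^ (4 : ℝ))⁻¹ := by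
      rw [← div_eq_mul_inv, ← Real.rpow_sub h2j, ← Real.rpow_natCast, ← Real.rpow_natCast,
        ← Real.rpow_mul (by norm_num), ← Real.rpow_mul (by norm_num), mul_comm]
    rw [e1, e2, e5, e6]
    ring
  calc ∫⁻ x in {x | lam ≤ f x}, ENNReal.ofReal (f x ^ p) ∂μ
      ≤ ∫⁻ x in {x | lam ≤ f x}, ∑' j : ℕ, (if (2 : ℝ) ^ j * lam ≤ f x then
          ENNReal.ofReal ((2 ^ (j + 1) * lam) ^ p) else 0) ∂μ :=
        setLIntegral_mono' (hmS lam) fun x hx => dyadic_pt p lam (f x) hp hl hx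
    _ ≤ ∫⁻ x, ∑' j : ℕ, (if (2 : ℝ) ^ j * lam ≤ f x then
          ENNReal.ofReal ((2 ^ (j + 1) * lam) ^ p) else 0) ∂μ := setLIntegral_le_lintegral _ _
    _ = ∑' j : ℕ, ∫⁻ x, (if (2 : ℝ) ^ j * lam ≤ f x then
          ENNReal.ofReal ((2 ^ (j + 1) * lam) ^ p) else 0) ∂μ := by
        apply lintegral_tsum
        intro j
        exact (Measurable.ite (hmS _) measurable_const measurable_const).aemeasurable
    _ ≤ ∑' j : ℕ, ENNReal.ofReal (2 ^ p * (Y ^ 2 * lam ^ (p - 4)) * ((2 : ℝ) ^ (p - 4)) ^ j) := by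
        apply ENNReal.tsum_le_tsum
        intro j
        rw [← hterm j]
        have e : (fun x => (if (2 : ℝ) ^ j * lam ≤ f x then
            ENNReal.ofReal ((2 ^ (j + 1) * lam) ^ p) else 0)) =
            {x | (2 : ℝ) ^ j * lam ≤ f x}.indicator
              (fun _ => ENNReal.ofReal ((2 ^ (j + 1) * lam) ^ p)) := by
          funext x
          simp only [Set.indicator_apply, Set.mem_ofPred_eq]
        rw [e, lintegral_indicator_const (hmS _)]
        gcongr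
        exact hw _ (by positivity)
    _ = ENNReal.ofReal (2 ^ p / (1 - 2 ^ (p - 4)) * (Y ^ 2 * lam ^ (p - 4))) := by
        have hs : HasSum (fun j : ℕ => 2 ^ p * (Y ^ 2 * lam ^ (p - 4)) * ((2 : ℝ) ^ (p - 4)) ^ j)
            (2 ^ p * (Y ^ 2 * lam ^ (p - 4)) * (1 - 2 ^ (p - 4))⁻¹) :=
          (hasSum_geometric_of_lt_one hq0.le hq1).mul_left _
        rw [← ENNReal.ofReal_tsum_of_nonneg (fun j => by positivity) hs.summable, hs.tsum_eq]
        congr 1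
        rw [div_eq_mul_inv]
        ring

lemma weak_gen (μ : Measure Ω) (p : ℝ) (hp : 2 < p) (hp' : p < 4) (f : Ω → ℝ)
    (hf : Measurable f) (hf0 : ∀ x, 0 ≤ f x) (X Y : ℝ) (hX : 0 ≤ X) (hY : 0 ≤ Y)
    (h2 : ∫⁻ x, ENNReal.ofReal (f x ^ 2) ∂μ ≤ ENNReal.ofReal X)
    (hw : ∀ t : ℝ, 0 < t → μ {x | t ≤ f x} ≤ ENNReal.ofReal ((Y / t ^ 2) ^ 2)) :
    ∫⁻ x, ENNReal.ofReal (f x ^ p) ∂μ ≤
      ENNReal.ofReal ((1 + 2 ^ p / (1 - 2 ^ (p - 4))) * X ^ ((4 - p) / 2) * Y ^ (p - 2)) := by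
  rcases hY.eq_or_lt with hY0 | hY0
  · rw [zero_of_ae μ p hp f]
    · exact zero_le
    · have h1 : ∀ n : ℕ, μ {x | 1 / ((n : ℝ) + 1) ≤ f x} = 0 := by
        intro n
        have h3 := hw (1 / ((n : ℝ) + 1)) (by positivity)
        rw [← hY0] at h3
        simpa using h3
      have h4 : μ (⋃ n : ℕ, {x | 1 / ((n : ℝ) + 1) ≤ f x}) = 0 := measure_iUnion_null h1
      rw [ae_iff]
      refine measure_mono_null ?_ h4
      intro x hx
      have hx0 : f x ≠ 0 := hx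
      have hpos : 0 < f x := lt_of_le_of_ne (hf0 x) (Ne.symm hx0)
      obtain ⟨n, hn⟩ := exists_nat_one_div_lt hpos
      exact mem_iUnion.2 ⟨n, hn.le⟩
  rcases hX.eq_or_lt with hX0 | hX0
  · rw [zero_of_ae μ p hp f]
    · exact zero_le
    · rw [← hX0, ENNReal.ofReal_zero, le_zero_iff,
        lintegral_eq_zero_iff (hf.pow_const 2).ennreal_ofReal] at h2
      filter_upwards [h2] with x hx
      have h3 : f x ^ 2 ≤ 0 := ENNReal.ofReal_eq_zero.1 hx
      exact pow_eq_zero_iff (two_ne_zero) |>.1 (le_antisymm h3 (sq_nonneg _))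
  set lam : ℝ := Y / Real.sqrt X with hlam
  have hsX : 0 < Real.sqrt X := Real.sqrt_pos.2 hX0
  have hl : 0 < lam := by positivity
  have hmS : MeasurableSet {x | lam ≤ f x} := measurableSet_le measurable_const hf
  have hq1 : (2 : ℝ) ^ (p - 4) < 1 :=
    Real.rpow_lt_one_of_one_lt_of_neg (by norm_num) (by linarith)
  have hlow : ∫⁻ x in {x | lam ≤ f x}ᶜ, ENNReal.ofReal (f x ^ p) ∂μ ≤
      ENNReal.ofReal (lam ^ (p - 2) * X) := by
    calc ∫⁻ x in {x | lam ≤ f x}ᶜ, ENNReal.ofReal (f x ^ p) ∂μ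
        ≤ ∫⁻ x in {x | lam ≤ f x}ᶜ, ENNReal.ofReal (lam ^ (p - 2)) *
            ENNReal.ofReal (f x ^ 2) ∂μ := by
          apply setLIntegral_mono' hmS.compl
          intro x hx
          have hx' : f x < lam := not_le.1 hx
          rw [← ENNReal.ofReal_mul (by positivity)]
          apply ENNReal.ofReal_le_ofReal
          have e1 : f x ^ p = f x ^ (p - 2) * f x ^ 2 := by
            rcases (hf0 x).eq_or_lt with h0 | h0
            · rw [← h0, Real.zero_rpow (by linarith), Real.zero_rpow (by linarith)]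
              ring
            · rw [← Real.rpow_natCast (f x) 2, ← Real.rpow_add h0]
              congr 1
              push_cast
              ring
          rw [e1]
          apply mul_le_mul_of_nonneg_right _ (by positivity)
          exact Real.rpow_le_rpow (hf0 x) hx'.le (by linarith)
      _ ≤ ∫⁻ x, ENNReal.ofReal (lam ^ (p - 2)) * ENNReal.ofReal (f x ^ 2) ∂μ :=
          setLIntegral_le_lintegral _ _
      _ = ENNReal.ofReal (lam ^ (p - 2)) * ∫⁻ x, ENNReal.ofReal (f x ^ 2) ∂μ :=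
          lintegral_const_mul _ (hf.pow_const 2).ennreal_ofReal
      _ ≤ ENNReal.ofReal (lam ^ (p - 2)) * ENNReal.ofReal X := by gcongr
      _ = _ := (ENNReal.ofReal_mul (by positivity)).symm
  have hhigh := high_part μ p hp hp' f hf lam Y hl hw
  have e2 : lam ^ (p - 2) * X = X ^ ((4 - p) / 2) * Y ^ (p - 2) := by
    rw [hlam, Real.div_rpow hY0.le hsX.le, Real.sqrt_eq_rpow, ← Real.rpow_mul hX0.le,
      div_mul_eq_mul_div, mul_comm (Y ^ (p - 2)) X, mul_div_right_comm]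
    congr 1
    have h3 : X ^ (1 / 2 * (p - 2)) * X ^ ((4 - p) / 2) = X := by
      rw [← Real.rpow_add hX0]
      have : 1 / 2 * (p - 2) + (4 - p) / 2 = 1 := by ring
      rw [this, Real.rpow_one]
    rw [div_eq_iff (by positivity)]
    rw [mul_comm]
    exact h3.symm
  have e3 : Y ^ 2 * lam ^ (p - 4) = X ^ ((4 - p) / 2) * Y ^ (p - 2) := by
    rw [hlam, Real.div_rpow hY0.le hsX.le, Real.sqrt_eq_rpow, ← Real.rpow_mul hX0.le]
    have h3 : X ^ (1 / 2 * (p - 4)) = (X ^ ((4 - p) / 2))⁻¹ := by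
      rw [← Real.rpow_neg hX0.le]
      congr 1
      ring
    have h4 : Y ^ 2 * Y ^ (p - 4) = Y ^ (p - 2) := by
      rw [← Real.rpow_natCast Y 2, ← Real.rpow_add hY0]
      congr 1
      push_cast
      ring
    rw [h3, div_inv_eq_mul, ← mul_assoc, h4, mul_comm]
  rw [← lintegral_add_compl _ hmS]
  refine (add_le_add hhigh hlow).trans ?_
  rw [e2, e3, ← ENNReal.ofReal_add]
  · apply ENNReal.ofReal_le_ofReal
    apply le_of_eq
    ring
  · have : 0 < 1 - (2 : ℝ) ^ (p - 4) := by linarith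
    positivity
  · positivity

lemma gen_24 (μ : Measure Ω) (p : ℝ) (hp : 2 < p) (hp' : p < 4) (f : Ω → ℝ)
    (hf : Measurable f) (hf0 : ∀ x, 0 ≤ f x) (X Y : ℝ) (hX : 0 ≤ X) (hY : 0 ≤ Y)
    (h2 : ∫⁻ x, ENNReal.ofReal (f x ^ 2) ∂μ ≤ ENNReal.ofReal X)
    (h4 : ∫⁻ x, ENNReal.ofReal (f x ^ 4) ∂μ ≤ ENNReal.ofReal Y) :
    ∫⁻ x, ENNReal.ofReal (f x ^ p) ∂μ ≤
      ENNReal.ofReal (X ^ ((4 - p) / 2) * Y ^ ((p - 2) / 2)) := by
  have hPQ : (2 / (4 - p)).HolderConjugate (2 / (p - 2)) := by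
    rw [Real.holderConjugate_iff]
    constructor
    · rw [one_lt_div (by linarith)]
      linarith
    · rw [inv_div, inv_div]
      ring
  have hF : Measurable (fun x => ENNReal.ofReal (f x ^ (4 - p))) :=
    (hf.pow_const _).ennreal_ofReal
  have hG : Measurable (fun x => ENNReal.ofReal (f x ^ (2 * (p - 2)))) :=
    (hf.pow_const _).ennreal_ofReal
  have h := ENNReal.lintegral_mul_le_Lp_mul_Lq μ hPQ hF.aemeasurable hG.aemeasurable
  have e1 : ∀ x, ((fun x => ENNReal.ofReal (f x ^ (4 - p))) *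
      fun x => ENNReal.ofReal (f x ^ (2 * (p - 2)))) x = ENNReal.ofReal (f x ^ p) := by
    intro x
    simp only [Pi.mul_apply]
    rw [← ENNReal.ofReal_mul (Real.rpow_nonneg (hf0 x) _)]
    congr 1
    rcases (hf0 x).eq_or_lt with h0 | h0
    · rw [← h0, Real.zero_rpow (by linarith : (4:ℝ) - p ≠ 0),
        Real.zero_rpow (by linarith : 2 * (p - 2) ≠ 0),
        Real.zero_rpow (by linarith : p ≠ 0), zero_mul]
    · rw [← Real.rpow_add h0]
      congr 1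
      ring
  have e2 : ∀ x, ENNReal.ofReal (f x ^ (4 - p)) ^ (2 / (4 - p)) = ENNReal.ofReal (f x ^ 2) := by
    intro x
    rw [ENNReal.ofReal_rpow_of_nonneg (Real.rpow_nonneg (hf0 x) _)
      (div_nonneg (by norm_num) (by linarith)), ← Real.rpow_mul (hf0 x),
      ← Real.rpow_natCast (f x) 2]
    congr 2
    have : 4 - p ≠ 0 := by linarith
    push_cast
    field_simp
  have e3 : ∀ x, ENNReal.ofReal (f x ^ (2 * (p - 2))) ^ (2 / (p - 2)) =
      ENNReal.ofReal (f x ^ 4) := by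
    intro x
    rw [ENNReal.ofReal_rpow_of_nonneg (Real.rpow_nonneg (hf0 x) _)
      (div_nonneg (by norm_num) (by linarith)), ← Real.rpow_mul (hf0 x),
      ← Real.rpow_natCast (f x) 4]
    congr 2
    have : p - 2 ≠ 0 := by linarith
    push_cast
    field_simp
    norm_num
  rw [lintegral_congr e1, lintegral_congr e2, lintegral_congr e3] at h
  refine h.trans ?_
  have e4 : 1 / (2 / (4 - p)) = (4 - p) / 2 := by rw [one_div_div]
  have e5 : 1 / (2 / (p - 2)) = (p - 2) / 2 := by rw [one_div_div]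
  rw [e4, e5, ENNReal.ofReal_mul (by positivity),
    ← ENNReal.ofReal_rpow_of_nonneg hX (by linarith),
    ← ENNReal.ofReal_rpow_of_nonneg hY (by linarith)]
  apply mul_le_mul'
  · exact ENNReal.rpow_le_rpow h2 (by linarith)
  · exact ENNReal.rpow_le_rpow h4 (by linarith)

end InterpAux

open InterpAux

theorem interp_weak (p : ℝ) (hp : 2 < p) (hp' : p < 4) : ∃ C : ℝ, 0 < C ∧
    ∀ (S : Set (E 3)), MeasurableSet S → ∀ f : E 3 → ℝ, Measurable f → (∀ x, 0 ≤ f x) →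
    ∀ X Y : ℝ, 0 ≤ X → 0 ≤ Y → ∫⁻ x in S, ENNReal.ofReal (f x ^ 2) ≤ ENNReal.ofReal X →
    (∀ t : ℝ, 0 < t → volume (S ∩ {x | t ≤ f x}) ≤ ENNReal.ofReal ((Y / t ^ 2) ^ 2)) →
    ∫⁻ x in S, ENNReal.ofReal (f x ^ p) ≤
      ENNReal.ofReal (C * X ^ ((4 - p) / 2) * Y ^ (p - 2)) := by
  have hq1 : (2 : ℝ) ^ (p - 4) < 1 :=
    Real.rpow_lt_one_of_one_lt_of_neg (by norm_num) (by linarith)
  refine ⟨1 + 2 ^ p / (1 - 2 ^ (p - 4)), ?_, ?_⟩
  · have : 0 < 1 - (2 : ℝ) ^ (p - 4) := by linarith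
    positivity
  intro S hS f hf hf0 X Y hX hY h2 hw
  apply weak_gen (volume.restrict S) p hp hp' f hf hf0 X Y hX hY h2
  intro t ht
  rw [Measure.restrict_apply (measurableSet_le measurable_const hf), Set.inter_comm]
  exact hw t ht

theorem interp_24 (p : ℝ) (hp : 2 < p) (hp' : p < 4)
    (S : Set (E 3)) (hS : MeasurableSet S) (f : E 3 → ℝ) (hf : Measurable f) (hf0 : ∀ x, 0 ≤ f x)
    (X Y : ℝ) (hX : 0 ≤ X) (hY : 0 ≤ Y) (h2 : ∫⁻ x in S, ENNReal.ofReal (f x ^ 2) ≤ ENNReal.ofReal X)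
    (h4 : ∫⁻ x in S, ENNReal.ofReal (f x ^ 4) ≤ ENNReal.ofReal Y) :
    ∫⁻ x in S, ENNReal.ofReal (f x ^ p) ≤
      ENNReal.ofReal (X ^ ((4 - p) / 2) * Y ^ ((p - 2) / 2)) :=
  gen_24 (volume.restrict S) p hp hp' f hf hf0 X Y hX hY h2 h4

end Pool.Agent.H789R2.FR
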